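import Pool.Agent.H114.MB.Defs

set_option autoImplicit false

/-! Task AMA: the commutator subgroup is carried by a half space. -/

namespace H114MB

namespace AMAaux

variable {G : Type} [Group G] {n : ℕ}

theorem ht_mul (X : G →* Multiplicative ℝ) (x y : G) : ht X (x * y) = ht X x + ht X y := by
  unfold ht
  rw [map_mul]
  rfl

theorem ht_one (X : G →* Multiplicative ℝ) : ht X 1 = 0 := by
  unfold ht
  rw [map_one]
  rfl

theorem ht_inv (X : G →* Multiplicative ℝ) (x : G) : ht X x⁻¹ = - ht X x := by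
  unfold ht
  rw [map_inv]
  rfl

theorem ht_comm (X : G →* Multiplicative ℝ) (x : G) (hx : x ∈ commutator G) : ht X x = 0 := by
  have h : X x = 1 := Abelianization.commutator_subset_ker X hx
  unfold ht
  rw [h]
  rfl

theorem ev_nil (g : Fin n → G) : ev g [] = 1 := rfl

theorem ev_cons (g : Fin n → G) (y : Fin n × Bool) (w : List (Fin n × Bool)) :
    ev g (y :: w) = pw (g y.1) y.2 * ev g w := by
  unfold ev
  rw [List.map_cons, List.prod_cons]

theorem ev_append (g : Fin n → G) (v w : List (Fin n × Bool)) :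
    ev g (v ++ w) = ev g v * ev g w := by
  unfold ev
  rw [List.map_append, List.prod_append]

/-- inverse word -/
def wi (w : List (Fin n × Bool)) : List (Fin n × Bool) := (w.map (fun y => (y.1, !y.2))).reverse

theorem wi_append (v w : List (Fin n × Bool)) : wi (v ++ w) = wi w ++ wi v := by
  unfold wi
  rw [List.map_append, List.reverse_append]

theorem wi_wi (w : List (Fin n × Bool)) : wi (wi w) = w := by
  unfold wi
  rw [List.map_reverse, List.reverse_reverse, List.map_map]
  conv_rhs => rw [← List.map_id w]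
  congr 1
  funext y
  simp

theorem ev_wi (g : Fin n → G) (w : List (Fin n × Bool)) : ev g (wi w) = (ev g w)⁻¹ := by
  induction w with
  | nil => simp [wi, ev_nil]
  | cons y w ih =>
    have : wi (y :: w) = wi w ++ [(y.1, !y.2)] := by
      unfold wi; simp
    rw [this, ev_append, ih, ev_cons g y w, mul_inv_rev, ev_cons, ev_nil, mul_one]
    congr 1
    unfold pw
    cases y.2 <;> simp

theorem prefix_wi (w p : List (Fin n × Bool)) (h : p <+: wi w) :
    ∃ p' s', w = p' ++ s' ∧ p = wi s' := by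
  obtain ⟨t, ht⟩ := h
  refine ⟨wi t, wi p, ?_, (wi_wi p).symm⟩
  rw [← wi_append, ht, wi_wi]

theorem ev_surj (g : Fin n → G) (hg : Subgroup.closure (Set.range g) = ⊤) (a : G) :
    ∃ w, ev g w = a := by
  have h : a ∈ Subgroup.closure (Set.range g) := by rw [hg]; trivial
  induction h using Subgroup.closure_induction with
  | mem x hx =>
    obtain ⟨i, rfl⟩ := hx
    exact ⟨[(i, true)], by simp [ev, pw]⟩
  | one => exact ⟨[], rfl⟩
  | mul x y _ _ hx hy =>
    obtain ⟨v, hv⟩ := hx
    obtain ⟨w, hw⟩ := hy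
    exact ⟨v ++ w, by rw [ev_append, hv, hw]⟩
  | inv x _ hx =>
    obtain ⟨v, hv⟩ := hx
    exact ⟨wi v, by rw [ev_wi, hv]⟩

theorem ev_toWord (g : Fin n → G) (r : FreeGroup (Fin n)) : ev g r.toWord = FreeGroup.lift g r := by
  conv_rhs => rw [← FreeGroup.mk_toWord (x := r)]
  rw [FreeGroup.lift_mk]
  unfold ev pw
  congr 2
  funext y
  cases y.2 <;> simp

/-- the subgroup carried by a region -/
def Sb (X : G →* Multiplicative ℝ) (g : Fin n → G) (I : Set ℝ) (h0 : (0 : ℝ) ∈ I) : Subgroup G where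
  carrier := {a | a ∈ commutator G ∧ ∃ w, ev g w = a ∧ ∀ p, p <+: w → ht X (ev g p) ∈ I}
  mul_mem' := by
    rintro a b ⟨ha, v, hv, hv'⟩ ⟨hb, w, hw, hw'⟩
    refine ⟨Subgroup.mul_mem _ ha hb, v ++ w, by rw [ev_append, hv, hw], ?_⟩
    intro p hp
    obtain ⟨t, ht'⟩ := hp
    rcases List.append_eq_append_iff.1 ht' with ⟨q, h1, h2⟩ | ⟨q, h1, h2⟩
    · exact hv' p ⟨q, h1.symm⟩
    · rw [h1, ev_append, ht_mul, hv, ht_comm X a ha, zero_add]
      exact hw' q ⟨t, h2.symm⟩
  one_mem' := by
    refine ⟨Subgroup.one_mem _, [], rfl, ?_⟩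
    intro p hp
    rw [List.prefix_nil] at hp
    rw [hp, ev_nil, ht_one]
    exact h0
  inv_mem' := by
    rintro a ⟨ha, v, hv, hv'⟩
    refine ⟨Subgroup.inv_mem _ ha, wi v, by rw [ev_wi, hv], ?_⟩
    intro p hp
    obtain ⟨p', s', h1, h2⟩ := prefix_wi v p hp
    have h3 := hv' p' ⟨s', h1.symm⟩
    have h4 : ht X (ev g p') + ht X (ev g s') = 0 := by
      rw [← ht_mul, ← ev_append, ← h1, hv, ht_comm X a ha]
    rw [h2, ev_wi, ht_inv]
    have : - ht X (ev g s') = ht X (ev g p') := by linarith
    rw [this]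
    exact h3

theorem pp_append {P : Type} [Group P] (g : Fin n → G) (f : G → Fin n → P)
    (v w : List (Fin n × Bool)) : ∀ x : G,
    pp g f x (v ++ w) = pp g f x v * pp g f (x * ev g v) w := by
  induction v with
  | nil => intro x; simp [pp, ev_nil]
  | cons y v ih =>
    intro x
    obtain ⟨i, b⟩ := y
    cases b
    · have e : x * ev g ((i, false) :: v) = x * (g i)⁻¹ * ev g v := by
        rw [ev_cons, ← mul_assoc]; rfl
      rw [List.cons_append, e]
      simp only [pp]
      rw [ih]
      exact (mul_assoc _ _ _).symm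
    · have e : x * ev g ((i, true) :: v) = x * g i * ev g v := by
        rw [ev_cons, ← mul_assoc]; rfl
      rw [List.cons_append, e]
      simp only [pp]
      rw [ih]
      exact (mul_assoc _ _ _).symm

theorem pp_shift {P : Type} [Group P] (g : Fin n → G) (f : G → Fin n → P) (u : G)
    (hf : ∀ x i, f (u * x) i = f x i) (w : List (Fin n × Bool)) : ∀ x : G,
    pp g f (u * x) w = pp g f x w := by
  induction w with
  | nil => intro x; rfl
  | cons y w ih =>
    intro x
    obtain ⟨i, b⟩ := y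
    cases b
    · simp only [pp]
      rw [mul_assoc, ih, hf]
    · simp only [pp]
      rw [mul_assoc, ih, hf]

/-- paths in a region -/
theorem region {P : Type} [Group P] (g : Fin n → G) (f : G → Fin n → P) (c : G → G)
    (A : Subgroup G) (j : A →* P) (D : G → Prop)
    (hE : ∀ x i, D x → D (x * g i) → ∃ h : c x * g i * (c (x * g i))⁻¹ ∈ A,
      f x i = j ⟨c x * g i * (c (x * g i))⁻¹, h⟩) (w : List (Fin n × Bool)) :
    ∀ x : G, (∀ p, p <+: w → D (x * ev g p)) →
    ∃ h : c x * ev g w * (c (x * ev g w))⁻¹ ∈ A,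
      pp g f x w = j ⟨c x * ev g w * (c (x * ev g w))⁻¹, h⟩ := by
  induction w with
  | nil =>
    intro x _
    have e : c x * ev g [] * (c (x * ev g []))⁻¹ = 1 := by
      rw [ev_nil, mul_one, mul_one, mul_inv_cancel]
    have h : c x * ev g [] * (c (x * ev g []))⁻¹ ∈ A := by rw [e]; exact A.one_mem
    refine ⟨h, ?_⟩
    have e2 : (⟨c x * ev g [] * (c (x * ev g []))⁻¹, h⟩ : A) = 1 := Subtype.ext e
    rw [e2, map_one]
    rfl
  | cons y w ih =>
    intro x hD
    obtain ⟨i, b⟩ := y
    have hx : D x := by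
      have := hD [] (List.nil_prefix)
      rwa [ev_nil, mul_one] at this
    have hy : D (x * pw (g i) b) := by
      have := hD [(i, b)] ⟨w, rfl⟩
      rwa [ev_cons, ev_nil, mul_one] at this
    have hD' : ∀ p, p <+: w → D (x * pw (g i) b * ev g p) := by
      intro p hp
      have := hD ((i, b) :: p) (List.cons_prefix_cons.2 ⟨rfl, hp⟩)
      rwa [ev_cons, ← mul_assoc] at this
    have hev : x * ev g ((i, b) :: w) = x * pw (g i) b * ev g w := by
      rw [ev_cons, mul_assoc]
    cases b
    · -- inverse letter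
      have hpw : pw (g i) false = (g i)⁻¹ := rfl
      rw [hpw] at hy hD' hev
      obtain ⟨h1, h2⟩ := ih (x * (g i)⁻¹) hD'
      obtain ⟨h3, h4⟩ := hE (x * (g i)⁻¹) i hy (by rw [inv_mul_cancel_right]; exact hx)
      have e : c x * ev g ((i, false) :: w) * (c (x * ev g ((i, false) :: w)))⁻¹ =
          (c (x * (g i)⁻¹) * g i * (c (x * (g i)⁻¹ * g i))⁻¹)⁻¹ *
          (c (x * (g i)⁻¹) * ev g w * (c (x * (g i)⁻¹ * ev g w))⁻¹) := by
        rw [hev, ev_cons, hpw, inv_mul_cancel_right]
        group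
      have h : c x * ev g ((i, false) :: w) * (c (x * ev g ((i, false) :: w)))⁻¹ ∈ A := by
        rw [e]; exact A.mul_mem (A.inv_mem h3) h1
      refine ⟨h, ?_⟩
      have e2 : (⟨c x * ev g ((i, false) :: w) * (c (x * ev g ((i, false) :: w)))⁻¹, h⟩ : A) =
        (⟨_, h3⟩ : A)⁻¹ * ⟨_, h1⟩ := Subtype.ext e
      rw [e2, map_mul, map_inv, ← h4, ← h2]
      rfl
    · have hpw : pw (g i) true = g i := rfl
      rw [hpw] at hy hD' hev
      obtain ⟨h1, h2⟩ := ih (x * g i) hD'
      obtain ⟨h3, h4⟩ := hE x i hx hy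
      have e : c x * ev g ((i, true) :: w) * (c (x * ev g ((i, true) :: w)))⁻¹ =
          (c x * g i * (c (x * g i))⁻¹) *
          (c (x * g i) * ev g w * (c (x * g i * ev g w))⁻¹) := by
        rw [hev, ev_cons, hpw]
        group
      have h : c x * ev g ((i, true) :: w) * (c (x * ev g ((i, true) :: w)))⁻¹ ∈ A := by
        rw [e]; exact A.mul_mem h3 h1
      refine ⟨h, ?_⟩
      have e2 : (⟨c x * ev g ((i, true) :: w) * (c (x * ev g ((i, true) :: w)))⁻¹, h⟩ : A) =
        (⟨_, h3⟩ : A) * ⟨_, h1⟩ := Subtype.ext e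
      rw [e2, map_mul, ← h4, ← h2]
      rfl

theorem ht_len (X : G →* Multiplicative ℝ) (g : Fin n → G) (c : ℝ)
    (hc : ∀ i, |ht X (g i)| ≤ c) (w : List (Fin n × Bool)) :
    |ht X (ev g w)| ≤ c * w.length := by
  induction w with
  | nil => rw [ev_nil, ht_one]; simp
  | cons y w ih =>
    rw [ev_cons, ht_mul, List.length_cons]
    have h1 : |ht X (pw (g y.1) y.2)| ≤ c := by
      unfold pw
      split_ifs
      · exact hc _
      · rw [ht_inv, abs_neg]; exact hc _
    have h2 := abs_add_le (ht X (pw (g y.1) y.2)) (ht X (ev g w))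
    push_cast
    linarith

end AMAaux

open AMAaux in
theorem t_AMA (hCOC : S_COC) (hPUSH : S_PUSH) (hPATH : S_PATH) : S_AMA := by
  classical
  intro G _ n g R hR hker hg hab X hX
  obtain ⟨C₀, hC₀⟩ := hPATH G n g hg X hX
  set c : ℝ := ∑ i, |ht X (g i)| with hcdef
  have hc : ∀ i, |ht X (g i)| ≤ c := fun i =>
    Finset.single_le_sum (f := fun i => |ht X (g i)|) (fun _ _ => abs_nonneg _) (Finset.mem_univ i)
  have hc0 : 0 ≤ c := Finset.sum_nonneg (fun _ _ => abs_nonneg _)
  obtain ⟨L, hL⟩ : ∃ L : ℕ, ∀ r ∈ R, r.toWord.length ≤ L := by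
    obtain ⟨L, hL⟩ := (hR.image (fun r => r.toWord.length)).bddAbove
    exact ⟨L, fun r hr => hL ⟨r, hr, rfl⟩⟩
  set C : ℝ := max C₀ (c * (L + 1)) + 1 with hCdef
  have hC1 : C₀ ≤ C := by have := le_max_left C₀ (c * (L + 1)); linarith
  have hC2 : c * (L + 1) ≤ C := by have := le_max_right C₀ (c * (L + 1)); linarith
  have hcL : 0 ≤ c * L := by positivity
  have hC3 : c ≤ C := by linarith
  have hC4 : c * L ≤ C := by linarith
  have hCpos : 0 < C := by
    have h1 := le_max_right C₀ (c * (L + 1))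
    have h2 : 0 ≤ c * (L + 1) := by positivity
    linarith
  -- words for the classes
  have hmk : ∀ x y : G, (QuotientGroup.mk x : G ⧸ commutator G) = QuotientGroup.mk y →
      ht X x = ht X y := by
    intro x y h
    have h1 := ht_comm X _ (QuotientGroup.eq.1 h)
    rw [ht_mul, ht_inv] at h1
    linarith
  have hs : ∀ q : G ⧸ commutator G, ∃ w : List (Fin n × Bool),
      (QuotientGroup.mk (ev g w) : G ⧸ commutator G) = q ∧
      (∀ x : G, (QuotientGroup.mk x : G ⧸ commutator G) = q → ∀ p, p <+: w →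
        min (-C) (ht X x) ≤ ht X (ev g p) ∧ ht X (ev g p) ≤ max C (ht X x)) ∧
      (q = 1 → w = []) := by
    intro q
    by_cases hq : q = 1
    · refine ⟨[], by rw [ev_nil, hq]; rfl, ?_, fun _ => rfl⟩
      intro x hx p hp
      rw [List.prefix_nil] at hp
      rw [hp, ev_nil, ht_one]
      exact ⟨(min_le_left _ _).trans (by linarith), le_trans hCpos.le (le_max_left _ _)⟩
    · obtain ⟨w, hw1, hw2⟩ := hC₀ C hC1 q.out
      refine ⟨w, ?_, ?_, fun h => absurd h hq⟩
      · rw [QuotientGroup.eq.2 hw1]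
        exact QuotientGroup.out_eq' q
      · intro x hx p hp
        have h1 : ht X x = ht X q.out := hmk _ _ (by rw [hx]; exact (QuotientGroup.out_eq' q).symm)
        rw [h1]
        exact hw2 p hp
  choose s hs1 hs2 hs3 using hs
  set cc : G → G := fun x => ev g (s (QuotientGroup.mk x)) with hcc
  have hccmk : ∀ x, (QuotientGroup.mk (cc x) : G ⧸ commutator G) = QuotientGroup.mk x :=
    fun x => hs1 _
  have hccht : ∀ x, ht X (cc x) = ht X x := fun x => hmk _ _ (hccmk x)
  have hcc1 : ∀ x ∈ commutator G, cc x = 1 := by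
    intro x hx
    have h1 : (QuotientGroup.mk x : G ⧸ commutator G) = 1 := (QuotientGroup.eq_one_iff x).2 hx
    change ev g (s (QuotientGroup.mk x)) = 1
    rw [hs3 _ h1, ev_nil]
  have hcceq : ∀ x y : G, (QuotientGroup.mk x : G ⧸ commutator G) = QuotientGroup.mk y →
      cc x = cc y := by
    intro x y h
    change ev g (s (QuotientGroup.mk x)) = ev g (s (QuotientGroup.mk y))
    rw [h]
  -- edge elements
  have key : ∀ (I : Set ℝ) (h0 : (0 : ℝ) ∈ I),
      (∀ x : G, ht X x ∈ I → ∀ p, p <+: s (QuotientGroup.mk x) → ht X (ev g p) ∈ I) →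
      ∀ (x : G) (i : Fin n), ht X x ∈ I → ht X (x * g i) ∈ I →
      cc x * g i * (cc (x * g i))⁻¹ ∈ Sb X g I h0 := by
    intro I h0 hI x i hx hy
    refine ⟨?_, s (QuotientGroup.mk x) ++ [(i, true)] ++ wi (s (QuotientGroup.mk (x * g i))), ?_, ?_⟩
    · rw [← QuotientGroup.eq_one_iff, QuotientGroup.mk_mul, QuotientGroup.mk_inv,
        QuotientGroup.mk_mul, hccmk, hccmk, QuotientGroup.mk_mul, mul_inv_cancel]
    · rw [ev_append, ev_append, ev_wi, ev_cons, ev_nil, mul_one]
      rfl
    · rintro p ⟨t, ht'⟩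
      rcases List.append_eq_append_iff.1 ht' with ⟨q, h1, h2⟩ | ⟨q, h1, h2⟩
      · rcases List.append_eq_append_iff.1 h1.symm with ⟨q', h3, h4⟩ | ⟨q', h3, h4⟩
        · exact hI x hx p ⟨q', h3.symm⟩
        · cases q' with
          | nil =>
            rw [List.append_nil] at h3
            rw [h3]
            exact hI x hx _ (List.prefix_rfl)
          | cons z q' =>
            simp only [List.cons_append, List.cons.injEq, List.nil_eq,
              List.append_eq_nil_iff] at h4
            obtain ⟨h5, h6, h7⟩ := h4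
            rw [h3, h6, ← h5, ev_append, ht_mul, ev_cons, ev_nil, mul_one]
            have e1 : ht X (ev g (s (QuotientGroup.mk x))) = ht X x := hccht x
            rw [e1]
            have e2 : ht X x + ht X (pw (g (i, true).1) (i, true).2) = ht X (x * g i) := by
              rw [ht_mul]; rfl
            rw [e2]
            exact hy
      · obtain ⟨p', s', h3, h4⟩ := prefix_wi _ q ⟨t, h2.symm⟩
        have h5 := hI (x * g i) hy p' ⟨s', h3.symm⟩
        have h6 : ht X (ev g p') + ht X (ev g s') = ht X (x * g i) := by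
          rw [← ht_mul, ← ev_append, ← h3]
          exact hccht (x * g i)
        have e1 : ht X (ev g (s (QuotientGroup.mk x))) = ht X x := hccht x
        rw [h1, ev_append, ev_append, ev_cons, ev_nil, mul_one, h4, ev_wi, ht_mul, ht_mul, ht_inv,
          e1]
        have e2 : ht X x + ht X (pw (g (i, true).1) (i, true).2) = ht X (x * g i) := by
          rw [ht_mul]; rfl
        rw [e2]
        have e3 : ht X (x * g i) + - ht X (ev g s') = ht X (ev g p') := by linarith
        rw [e3]
        exact h5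
  have h0U : (0 : ℝ) ∈ Set.Ici (-C) := by
    rw [Set.mem_Ici]; linarith
  have h0V : (0 : ℝ) ∈ Set.Iic C := hCpos.le
  set U := Sb X g (Set.Ici (-C)) h0U with hU
  set V := Sb X g (Set.Iic C) h0V with hV
  have keyU : ∀ (x : G) (i : Fin n), -C ≤ ht X x → -C ≤ ht X (x * g i) →
      cc x * g i * (cc (x * g i))⁻¹ ∈ U := by
    apply key (Set.Ici (-C)) h0U
    intro x hx p hp
    have := (hs2 _ x rfl p hp).1
    rw [Set.mem_Ici] at hx ⊢
    rwa [min_eq_left hx] at this
  have keyV : ∀ (x : G) (i : Fin n), ht X x ≤ C → ht X (x * g i) ≤ C →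
      cc x * g i * (cc (x * g i))⁻¹ ∈ V := by
    apply key (Set.Iic C) h0V
    intro x hx p hp
    have := (hs2 _ x rfl p hp).2
    rw [Set.mem_Iic] at hx ⊢
    rwa [max_eq_left hx] at this
  obtain ⟨P, instP, iU, iV, hag, hcom⟩ := hPUSH G U V
  set f : G → Fin n → P := fun x i =>
    if 0 ≤ ht X x then
      (if h : cc x * g i * (cc (x * g i))⁻¹ ∈ U then iU ⟨_, h⟩ else 1)
    else (if h : cc x * g i * (cc (x * g i))⁻¹ ∈ V then iV ⟨_, h⟩ else 1) with hf
  have hstep : ∀ (x : G) (i : Fin n), |ht X (x * g i) - ht X x| ≤ c := by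
    intro x i
    rw [ht_mul, add_sub_cancel_left]
    exact hc i
  have hEU : ∀ (x : G) (i : Fin n), -C ≤ ht X x → -C ≤ ht X (x * g i) →
      ∃ h : cc x * g i * (cc (x * g i))⁻¹ ∈ U, f x i = iU ⟨_, h⟩ := by
    intro x i hx hy
    have h := keyU x i hx hy
    refine ⟨h, ?_⟩
    by_cases h0 : 0 ≤ ht X x
    · simp only [hf, if_pos h0, dif_pos h]
    · rw [not_le] at h0
      have h1 := abs_le.1 (hstep x i)
      have h' := keyV x i (by linarith) (by linarith [h1.2])
      simp only [hf, if_neg (not_le.2 h0), dif_pos h']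
      exact (hag _ h h').symm
  have hEV : ∀ (x : G) (i : Fin n), ht X x ≤ C → ht X (x * g i) ≤ C →
      ∃ h : cc x * g i * (cc (x * g i))⁻¹ ∈ V, f x i = iV ⟨_, h⟩ := by
    intro x i hx hy
    have h := keyV x i hx hy
    refine ⟨h, ?_⟩
    by_cases h0 : 0 ≤ ht X x
    · have h1 := abs_le.1 (hstep x i)
      have h' := keyU x i (by linarith) (by linarith [h1.1])
      simp only [hf, if_pos h0, dif_pos h']
      exact hag _ h' h
    · simp only [hf, if_neg h0, dif_pos h]
  have rU := region g f cc U iU (fun x => -C ≤ ht X x) hEU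
  have rV := region g f cc V iV (fun x => ht X x ≤ C) hEV
  -- relators
  have hrel : ∀ x : G, ∀ r ∈ R, pp g f x r.toWord = 1 := by
    intro x r hr
    have hev : ev g r.toWord = 1 := by
      rw [ev_toWord]
      have : r ∈ (FreeGroup.lift g).ker := by
        rw [hker]
        exact Subgroup.subset_normalClosure hr
      exact this
    have hlen : ∀ p, p <+: r.toWord → |ht X (ev g p)| ≤ C := by
      intro p hp
      have h1 := ht_len X g c hc p
      have h2 : (p.length : ℝ) ≤ L := by exact_mod_cast hp.length_le.trans (hL r hr)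
      have h3 : c * p.length ≤ c * L := mul_le_mul_of_nonneg_left h2 hc0
      linarith
    have h1 : cc x * ev g r.toWord * (cc (x * ev g r.toWord))⁻¹ = 1 := by
      rw [hev, mul_one, mul_one, mul_inv_cancel]
    rcases le_or_gt 0 (ht X x) with hx | hx
    · obtain ⟨h, h2⟩ := rU r.toWord x (by
        intro p hp
        have h3 := (abs_le.1 (hlen p hp)).1
        show -C ≤ ht X (x * ev g p)
        rw [ht_mul]; linarith)
      rw [h2]
      have e : (⟨_, h⟩ : U) = 1 := Subtype.ext h1
      rw [e, map_one]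
    · obtain ⟨h, h2⟩ := rV r.toWord x (by
        intro p hp
        have h3 := (abs_le.1 (hlen p hp)).2
        show ht X (x * ev g p) ≤ C
        rw [ht_mul]; linarith)
      rw [h2]
      have e : (⟨_, h⟩ : V) = 1 := Subtype.ext h1
      rw [e, map_one]
  have hcoc := hCOC G P n g R hker f hrel
  have hUc : ∀ u ∈ U, u ∈ commutator G := fun u hu => hu.1
  have hVc : ∀ v ∈ V, v ∈ commutator G := fun v hv => hv.1
  -- shift invariance
  have hshift : ∀ u ∈ commutator G, ∀ (x : G) (i : Fin n), f (u * x) i = f x i := by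
    intro u hu x i
    have e1 : ht X (u * x) = ht X x := by rw [ht_mul, ht_comm X u hu, zero_add]
    have m : ∀ y : G, (QuotientGroup.mk (u * y) : G ⧸ commutator G) = QuotientGroup.mk y := by
      intro y
      rw [QuotientGroup.mk_mul, (QuotientGroup.eq_one_iff u).2 hu, one_mul]
    have e2 : cc (u * x) = cc x := hcceq _ _ (m x)
    have e3 : cc (u * x * g i) = cc (x * g i) := by
      rw [mul_assoc]; exact hcceq _ _ (m _)
    simp only [hf, e1, e2, e3]
  -- values of the loops
  have hloopU : ∀ (u : U) (w : List (Fin n × Bool)), ev g w = u →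
      (∀ p, p <+: w → ht X (ev g p) ∈ Set.Ici (-C)) → pp g f 1 w = iU u := by
    intro u w hw hp
    obtain ⟨h, h2⟩ := rU w 1 (by
      intro p hpw
      show -C ≤ ht X (1 * ev g p)
      rw [one_mul]
      exact hp p hpw)
    rw [h2]
    congr 1
    apply Subtype.ext
    change cc 1 * ev g w * (cc (1 * ev g w))⁻¹ = u
    rw [hcc1 1 (Subgroup.one_mem _), one_mul, hw, hcc1 _ (hUc _ u.2), inv_one, mul_one]
  have hloopV : ∀ (v : V) (w : List (Fin n × Bool)), ev g w = v →
      (∀ p, p <+: w → ht X (ev g p) ∈ Set.Iic C) → pp g f 1 w = iV v := by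
    intro v w hw hp
    obtain ⟨h, h2⟩ := rV w 1 (by
      intro p hpw
      show ht X (1 * ev g p) ≤ C
      rw [one_mul]
      exact hp p hpw)
    rw [h2]
    congr 1
    apply Subtype.ext
    change cc 1 * ev g w * (cc (1 * ev g w))⁻¹ = v
    rw [hcc1 1 (Subgroup.one_mem _), one_mul, hw, hcc1 _ (hVc _ v.2), inv_one, mul_one]
  have hUV : ∀ (u : U) (v : V), (u : G) ∈ V ∨ (v : G) ∈ U := by
    intro u v
    apply hcom
    obtain ⟨hu, wu, hwu, hwu'⟩ := u.2
    obtain ⟨hv, wv, hwv, hwv'⟩ := v.2
    have h1 : ev g (wu ++ wv) = ev g (wv ++ wu) := by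
      rw [ev_append, ev_append, hwu, hwv]
      exact hab _ hu _ hv
    have h2 := hcoc 1 _ _ h1
    have s1 : pp g f (1 * ev g wu) wv = pp g f 1 wv := by
      rw [one_mul, hwu]
      have := pp_shift g f (u : G) (hshift _ hu) wv 1
      rwa [mul_one] at this
    have s2 : pp g f (1 * ev g wv) wu = pp g f 1 wu := by
      rw [one_mul, hwv]
      have := pp_shift g f (v : G) (hshift _ hv) wu 1
      rwa [mul_one] at this
    rw [pp_append, pp_append, s1, s2, hloopU u wu hwu hwu', hloopV v wv hwv hwv'] at h2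
    exact h2
  have hle : U ≤ V ∨ V ≤ U := by
    by_cases h : U ≤ V
    · exact Or.inl h
    · right
      rw [SetLike.not_le_iff_exists] at h
      obtain ⟨u, hu, hu'⟩ := h
      intro v hv
      rcases hUV ⟨u, hu⟩ ⟨v, hv⟩ with h1 | h1
      · exact absurd h1 hu'
      · exact h1
  -- the commutator subgroup is generated by both
  have hgen : ∀ (w : List (Fin n × Bool)) (x : G),
      cc x * ev g w * (cc (x * ev g w))⁻¹ ∈ U ⊔ V := by
    have hE : ∀ (x : G) (i : Fin n), cc x * g i * (cc (x * g i))⁻¹ ∈ U ⊔ V := by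
      intro x i
      have h1 := abs_le.1 (hstep x i)
      rcases le_or_gt 0 (ht X x) with hx | hx
      · exact Subgroup.mem_sup_left (keyU x i (by linarith) (by linarith [h1.1]))
      · exact Subgroup.mem_sup_right (keyV x i (by linarith) (by linarith [h1.2]))
    have r := region g (fun x i => (⟨_, hE x i⟩ : (U ⊔ V : Subgroup G))) cc (U ⊔ V)
      (MonoidHom.id _) (fun _ => True) (fun x i _ _ => ⟨hE x i, rfl⟩)
    intro w x
    exact (r w x (fun _ _ => trivial)).1
  refine ⟨C, ?_⟩
  have hall : ∀ a ∈ commutator G, a ∈ U ⊔ V := by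
    intro a ha
    obtain ⟨w, hw⟩ := ev_surj g hg a
    have := hgen w 1
    rwa [hcc1 1 (Subgroup.one_mem _), one_mul, hw, hcc1 a ha, inv_one, mul_one] at this
  rcases hle with h | h
  · right
    rw [sup_eq_right.2 h] at hall
    intro a ha
    exact (hall a ha).2
  · left
    rw [sup_eq_left.2 h] at hall
    intro a ha
    exact (hall a ha).2

end H114MB
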