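import Pool.Agent.H114.MB.Defs

set_option autoImplicit false

/-! # MP_909f0f_lc: existence of centralizers (task CENT) -/

namespace H114MB

/-- exponent vector -/
def CENT_e (n : ℕ) : FreeGroup (Fin n) →* Multiplicative (Vec n) :=
  FreeGroup.lift fun i => Multiplicative.ofAdd (Pi.single i 1)

/-- monomials in the abelianization -/
def CENT_M {G : Type} [Group G] {n : ℕ} (g : Fin n → G) :
    Multiplicative (Vec n) →* Abelianization G where
  toFun u := ∏ i, (Abelianization.of (g i)) ^ (Multiplicative.toAdd u i)
  map_one' := by simp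
  map_mul' u v := by
    rw [← Finset.prod_mul_distrib]
    apply Finset.prod_congr rfl
    intro i _
    rw [← zpow_add]
    rfl

theorem CENT_mono {G : Type} [Group G] {n : ℕ} (g : Fin n → G) (u : Vec n) :
    Abelianization.of (mono g u) = CENT_M g (Multiplicative.ofAdd u) := by
  unfold mono
  rw [map_list_prod, List.map_ofFn, List.prod_ofFn]
  show _ = ∏ i, (Abelianization.of (g i)) ^ (u i)
  apply Finset.prod_congr rfl
  intro i _
  simp

theorem CENT_A {G : Type} [Group G] {n : ℕ} (g : Fin n → G) (w : FreeGroup (Fin n)) :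
    Abelianization.of (FreeGroup.lift g w) = CENT_M g (CENT_e n w) := by
  have : (Abelianization.of.comp (FreeGroup.lift g)) = (CENT_M g).comp (CENT_e n) := by
    apply FreeGroup.ext_hom
    intro i
    simp only [MonoidHom.comp_apply, FreeGroup.lift_apply_of, CENT_e]
    show _ = ∏ j, (Abelianization.of (g j)) ^ ((Pi.single i 1 : Vec n) j)
    rw [Finset.prod_eq_single i]
    · simp
    · intro j _ hj
      rw [Pi.single_eq_of_ne hj, zpow_zero]
    · intro h
      exact absurd (Finset.mem_univ i) h
  exact DFunLike.congr_fun this w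

/-- the value of a character on an exponent vector -/
noncomputable def CENT_L {n : ℕ} (χ : Fin n → ℝ) : Multiplicative (Vec n) →* Multiplicative ℝ where
  toFun u := Multiplicative.ofAdd (∑ i, χ i * ((Multiplicative.toAdd u i : ℤ) : ℝ))
  map_one' := by
    rw [← ofAdd_zero]
    congr 1
    apply Finset.sum_eq_zero
    intro i _
    simp
  map_mul' u v := by
    rw [← ofAdd_add, ← Finset.sum_add_distrib]
    congr 1
    apply Finset.sum_congr rfl
    intro i _
    simp only [toAdd_mul, Pi.add_apply]
    push_cast
    ring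

theorem CENT_B {n : ℕ} (χ : Fin n → ℝ) (w : FreeGroup (Fin n)) :
    FreeGroup.lift (fun i => Multiplicative.ofAdd (χ i)) w = CENT_L χ (CENT_e n w) := by
  have : FreeGroup.lift (fun i => Multiplicative.ofAdd (χ i)) = (CENT_L χ).comp (CENT_e n) := by
    apply FreeGroup.ext_hom
    intro i
    simp only [MonoidHom.comp_apply, FreeGroup.lift_apply_of, CENT_e]
    show _ = Multiplicative.ofAdd (∑ j, χ j * (((Pi.single i 1 : Vec n) j : ℤ) : ℝ))
    congr 1
    rw [Finset.sum_eq_single i]
    · simp
    · intro j _ hj
      rw [Pi.single_eq_of_ne hj]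
      simp
    · intro h
      exact absurd (Finset.mem_univ i) h
  exact DFunLike.congr_fun this w

theorem t_CENT (hAMA : S_AMA) (hHALF : S_HALF) (hNAK : S_NAK) : S_CENT := by
  intro G _ n g R hR hker hgen hmet χ hχ
  by_cases hcase : ∃ u : Vec n, mono g u ∈ commutator G ∧ ∑ i, χ i * (u i : ℝ) ≠ 0
  · obtain ⟨u, hu, hne⟩ := hcase
    refine ⟨[(u, true)], ?_, ?_⟩
    · rcases lt_or_gt_of_ne hne with h | h
      · right
        intro x hx
        rw [List.mem_singleton] at hx
        subst hx
        exact h
      · left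
        intro x hx
        rw [List.mem_singleton] at hx
        subst hx
        exact h
    · intro a ha
      simp only [List.map_cons, List.map_nil, List.prod_cons, List.prod_nil, mul_one, pw, if_true]
      rw [mul_assoc, hmet a ha _ hu, inv_mul_cancel_left]
  · push Not at hcase
    have hsurj : Function.Surjective (FreeGroup.lift g) := by
      rw [← MonoidHom.range_eq_top, FreeGroup.range_lift_eq_closure, hgen]
    have hle : (FreeGroup.lift g).ker ≤
        (FreeGroup.lift (fun i => Multiplicative.ofAdd (χ i))).ker := by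
      intro w hw
      rw [MonoidHom.mem_ker] at hw ⊢
      have h1 : mono g (Multiplicative.toAdd (CENT_e n w)) ∈ commutator G := by
        rw [← Abelianization.ker_of, MonoidHom.mem_ker, CENT_mono, ofAdd_toAdd, ← CENT_A, hw,
          map_one]
      have h2 := hcase _ h1
      rw [CENT_B]
      show Multiplicative.ofAdd (∑ i, χ i * ((Multiplicative.toAdd (CENT_e n w) i : ℤ) : ℝ)) = 1
      rw [h2, ofAdd_zero]
    let X : G →* Multiplicative ℝ := (FreeGroup.lift g).liftOfSurjective hsurj
      ⟨FreeGroup.lift (fun i => Multiplicative.ofAdd (χ i)), hle⟩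
    have hX : ∀ w, X (FreeGroup.lift g w) =
        FreeGroup.lift (fun i => Multiplicative.ofAdd (χ i)) w := by
      intro w
      exact MonoidHom.liftOfRightInverse_comp_apply _ _ (Function.rightInverse_surjInv hsurj) _ w
    have hXg : ∀ i, ht X (g i) = χ i := by
      intro i
      have h := hX (FreeGroup.of i)
      rw [FreeGroup.lift_apply_of, FreeGroup.lift_apply_of] at h
      unfold ht
      rw [h]
      rfl
    have hXne : ∃ x, ht X x ≠ 0 := by
      obtain ⟨i, hi⟩ := Function.ne_iff.1 hχ
      exact ⟨g i, by rw [hXg i]; exact hi⟩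
    obtain ⟨C, hC | hC⟩ := hAMA G n g R hR hker hgen hmet X hXne
    · obtain ⟨E, hE1, hE2⟩ := hHALF G n g hgen hmet X C hXne hC
      exact hNAK G n g hgen hmet X χ hXg hXne E hE1 hE2
    · have hinv : ∀ x, ht X⁻¹ x = - ht X x := by
        intro x
        unfold ht
        rw [MonoidHom.inv_apply]
        rfl
      have hXne' : ∃ x, ht X⁻¹ x ≠ 0 := by
        obtain ⟨x, hx⟩ := hXne
        exact ⟨x, by rw [hinv]; exact neg_ne_zero.2 hx⟩
      have hC' : ∀ a ∈ commutator G, ∃ w, ev g w = a ∧ ∀ p, p <+: w → -C ≤ ht X⁻¹ (ev g p) := by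
        intro a ha
        obtain ⟨w, hw, hp⟩ := hC a ha
        refine ⟨w, hw, fun p hpw => ?_⟩
        rw [hinv]
        have := hp p hpw
        linarith
      obtain ⟨E, hE1, hE2⟩ := hHALF G n g hgen hmet X⁻¹ C hXne' hC'
      obtain ⟨l, hl1, hl2⟩ := hNAK G n g hgen hmet X⁻¹ (-χ) (fun i => by
        rw [hinv, hXg]; rfl) hXne' E hE1 hE2
      refine ⟨l, ?_, hl2⟩
      have hneg : ∀ x : Vec n × Bool, ∑ i, (-χ) i * (x.1 i : ℝ) = - ∑ i, χ i * (x.1 i : ℝ) := by
        intro x
        rw [← Finset.sum_neg_distrib]
        apply Finset.sum_congr rfl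
        intro i _
        simp
      rcases hl1 with h | h
      · right
        intro x hx
        have := h x hx
        rw [hneg] at this
        linarith
      · left
        intro x hx
        have := h x hx
        rw [hneg] at this
        linarith

end H114MB
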