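import Pool.Agent.H114.MB.Defs

set_option autoImplicit false

/-! Task CMPW: completeness for words. -/

namespace H114MB

namespace CMPWaux

open scoped commutatorElement

variable {G : Type} [Group G]

theorem evw_nil (f : ℕ → G) : evw f [] = 1 := rfl

theorem evw_cons (f : ℕ → G) (y : ℕ × Bool) (w : Wd) :
    evw f (y :: w) = pw (f y.1) y.2 * evw f w := by
  unfold evw
  rw [List.map_cons, List.prod_cons]

theorem evw_append (f : ℕ → G) (v w : Wd) : evw f (v ++ w) = evw f v * evw f w := by
  unfold evw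
  rw [List.map_append, List.prod_append]

theorem evw_winv (f : ℕ → G) (w : Wd) : evw f (winv w) = (evw f w)⁻¹ := by
  induction w with
  | nil => simp [winv, evw_nil]
  | cons y w ih =>
    have : winv (y :: w) = winv w ++ [(y.1, !y.2)] := by
      unfold winv; simp
    rw [this, evw_append, ih, evw_cons f y w, mul_inv_rev, evw_cons, evw_nil, mul_one]
    congr 1
    unfold pw
    cases y.2 <;> simp

theorem evw_cw (f : ℕ → G) (a w : Wd) : evw f (cw a w) = (evw f w)⁻¹ * evw f a * evw f w := by
  unfold cw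
  rw [evw_append, evw_append, evw_winv]

theorem evw_flatten (f : ℕ → G) (L : List Wd) : evw f L.flatten = (L.map (evw f)).prod := by
  induction L with
  | nil => rfl
  | cons a L ih => rw [List.flatten_cons, evw_append, ih, List.map_cons, List.prod_cons]

theorem evw_replicate (f : ℕ → G) (k : ℕ) (y : ℕ × Bool) :
    evw f (List.replicate k y) = pw (f y.1) y.2 ^ k := by
  unfold evw
  rw [List.map_replicate, List.prod_replicate]

/-! ### exponent vectors -/

theorem wvec_cons (n : ℕ) (y : ℕ × Bool) (w : Wd) (h : y.1 < n) :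
    wvec n (y :: w) = wvec n w + Pi.single ⟨y.1, h⟩ (sgn y.2) := by
  funext i
  unfold wvec
  rw [Pi.add_apply, List.count_cons, List.count_cons]
  obtain ⟨k, b⟩ := y
  by_cases hi : i = ⟨k, h⟩
  · subst hi
    rw [Pi.single_eq_same]
    cases b <;> simp [sgn] <;> ring
  · rw [Pi.single_eq_of_ne hi]
    have hk : k ≠ (i : ℕ) := by
      intro hk
      apply hi
      apply Fin.ext
      exact hk.symm
    simp [hk]

theorem wvec_append (n : ℕ) (v w : Wd) : wvec n (v ++ w) = wvec n v + wvec n w := by
  funext i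
  unfold wvec
  rw [Pi.add_apply, List.count_append, List.count_append]
  push_cast
  ring

theorem wvec_nil (n : ℕ) : wvec n [] = 0 := by
  funext i
  simp [wvec]

theorem ip_add_left {n : ℕ} (u v w : Vec n) : ip (u + v) w = ip u w + ip v w := by
  unfold ip
  rw [← Finset.sum_add_distrib]
  exact Finset.sum_congr rfl (fun i _ => by rw [Pi.add_apply]; ring)

theorem ip_single_left {n : ℕ} (i : Fin n) (c : ℤ) (w : Vec n) :
    ip (Pi.single i c) w = c * w i := by
  unfold ip
  rw [Finset.sum_eq_single i]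
  · rw [Pi.single_eq_same]
  · intro j _ hj
    rw [Pi.single_eq_of_ne hj, zero_mul]
  · intro h
    exact absurd (Finset.mem_univ i) h

theorem ip_words (n : ℕ) (u w : Wd) (hu : ∀ y ∈ u, y.1 < n) :
    (ipP u w : ℤ) - (ipM u w : ℤ) = ip (wvec n u) (wvec n w) := by
  induction u with
  | nil => simp [ipP, ipM, wvec_nil, ip]
  | cons y u ih =>
    have hy : y.1 < n := hu y List.mem_cons_self
    have ih' := ih (fun z hz => hu z (List.mem_cons_of_mem _ hz))
    rw [wvec_cons n y u hy, ip_add_left, ip_single_left, ← ih']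
    unfold ipP ipM
    rw [List.map_cons, List.sum_cons, List.map_cons, List.sum_cons]
    have hw : wvec n w ⟨y.1, hy⟩ = ((w.count (y.1, true) : ℕ) : ℤ) - ((w.count (y.1, false) : ℕ) : ℤ) :=
      rfl
    rw [hw]
    obtain ⟨k, b⟩ := y
    cases b <;> simp [sgn] <;> ring

theorem ip_self_nonneg {n : ℕ} (u : Vec n) : 0 ≤ ip u u :=
  Finset.sum_nonneg (fun i _ => mul_self_nonneg _)

theorem nrm_eq (n : ℕ) (w : Wd) (hw : ∀ y ∈ w, y.1 < n) :
    (nrm w : ℤ) = ip (wvec n w) (wvec n w) := by
  have h1 := ip_words n w w hw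
  have h2 := ip_self_nonneg (wvec n w)
  unfold nrm
  omega

theorem abeq_of (n : ℕ) (w w' : Wd) (h : wvec n w = wvec n w') : abeq n w w' := by
  intro i hi
  have := congrFun h ⟨i, hi⟩
  unfold wvec at this
  simp only at this
  omega

theorem of_abeq (n : ℕ) (w w' : Wd) (h : abeq n w w') : wvec n w = wvec n w' := by
  funext i
  have := h i i.2
  unfold wvec
  omega

/-! ### values modulo the commutator subgroup -/

theorem pw_zpow (x : G) (c : Bool) : pw x c = x ^ sgn c := by
  cases c <;> simp [pw, sgn]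

theorem of_evw (n : ℕ) (f : ℕ → G) (w : Wd) (hw : ∀ y ∈ w, y.1 < n) :
    Abelianization.of (evw f w) =
      ∏ i : Fin n, (Abelianization.of (f i)) ^ (wvec n w i) := by
  induction w with
  | nil => simp [evw_nil, wvec_nil]
  | cons y w ih =>
    have hy : y.1 < n := hw y List.mem_cons_self
    have ih' := ih (fun z hz => hw z (List.mem_cons_of_mem _ hz))
    rw [evw_cons, map_mul, ih', wvec_cons n y w hy]
    simp only [Pi.add_apply, zpow_add, Finset.prod_mul_distrib]
    rw [mul_comm]
    congr 1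
    rw [Finset.prod_eq_single ⟨y.1, hy⟩]
    · rw [Pi.single_eq_same, pw_zpow, map_zpow]
    · intro j _ hj
      rw [Pi.single_eq_of_ne hj, zpow_zero]
    · intro h
      exact absurd (Finset.mem_univ _) h

theorem same_class (n : ℕ) (f : ℕ → G) (w w' : Wd) (hw : ∀ y ∈ w, y.1 < n)
    (hw' : ∀ y ∈ w', y.1 < n) (h : abeq n w w') : (evw f w)⁻¹ * evw f w' ∈ commutator G := by
  have h1 : Abelianization.of (evw f w) = Abelianization.of (evw f w') := by
    rw [of_evw n f w hw, of_evw n f w' hw', of_abeq n w w' h]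
  exact QuotientGroup.eq.1 h1

/-! ### words of vectors -/

/-- the word of a vector -/
def mw {n : ℕ} (u : Vec n) : Wd :=
  (List.ofFn fun i : Fin n => List.replicate (u i).natAbs ((i : ℕ), decide (0 ≤ u i))).flatten

theorem mw_lt {n : ℕ} (u : Vec n) : ∀ y ∈ mw u, y.1 < n := by
  intro y hy
  unfold mw at hy
  rw [List.mem_flatten] at hy
  obtain ⟨l, hl, hy⟩ := hy
  rw [List.mem_ofFn] at hl
  obtain ⟨i, rfl⟩ := hl
  rw [List.mem_replicate] at hy
  rw [hy.2]
  exact i.2

theorem mw_length {n : ℕ} (u : Vec n) : ((mw u).length : ℤ) = ∑ i, |u i| := by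
  unfold mw
  rw [List.length_flatten, List.map_ofFn, List.sum_ofFn]
  push_cast
  refine Finset.sum_congr rfl (fun i _ => ?_)
  simp

theorem mw_zero {n : ℕ} : mw (0 : Vec n) = [] := by
  have h := mw_length (0 : Vec n)
  simp only [Pi.zero_apply, abs_zero, Finset.sum_const_zero] at h
  exact List.length_eq_zero_iff.1 (by exact_mod_cast h)

theorem wvec_mw {n : ℕ} (u : Vec n) : wvec n (mw u) = u := by
  have hc : ∀ (i : Fin n) (c : Bool), (mw u).count ((i : ℕ), c) =
      if decide (0 ≤ u i) = c then (u i).natAbs else 0 := by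
    intro i c
    unfold mw
    rw [List.count_flatten, List.map_ofFn, List.sum_ofFn, Finset.sum_eq_single i]
    · simp only [Function.comp_apply, List.count_replicate]
      simp
    · intro j _ hj
      simp only [Function.comp_apply, List.count_replicate]
      have : (((j : ℕ), decide (0 ≤ u j)) == ((i : ℕ), c)) = false := by
        rw [beq_eq_false_iff_ne]
        intro h
        apply hj
        apply Fin.ext
        exact (Prod.mk.inj h).1
      rw [this]
      simp
    · intro h
      exact absurd (Finset.mem_univ _) h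
  funext i
  unfold wvec
  rw [hc, hc]
  by_cases h : 0 ≤ u i
  · simp [h]
  · have h1 : decide (0 ≤ u i) = false := by simpa using h
    rw [h1]
    simp only [Bool.false_eq_true, if_false, if_true]
    omega

theorem evw_mw {n : ℕ} (f : ℕ → G) (u : Vec n) :
    evw f (mw u) = mono (fun i : Fin n => f i) u := by
  unfold mw mono
  rw [evw_flatten, List.map_ofFn]
  congr 2
  funext i
  rw [Function.comp_apply, evw_replicate]
  unfold pw
  by_cases h : 0 ≤ u i
  · have : (u i) = ((u i).natAbs : ℤ) := by omega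
    simp only [h, decide_true, if_true]
    conv_rhs => rw [this, zpow_natCast]
  · have : (u i) = -((u i).natAbs : ℤ) := by omega
    simp only [h, decide_false, Bool.false_eq_true, if_false]
    conv_rhs => rw [this, zpow_neg, zpow_natCast]
    rw [inv_pow]

theorem ball_finite (n : ℕ) (s : ℤ) : {e : Vec n | ip e e < s}.Finite := by
  apply (Set.finite_Icc (fun _ : Fin n => -|s|) (fun _ => |s|)).subset
  intro e he
  have h1 : ∀ i, e i * e i ≤ ip e e := fun i =>
    Finset.single_le_sum (f := fun i => e i * e i) (fun _ _ => mul_self_nonneg _) (Finset.mem_univ i)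
  have he' : ip e e < s := he
  have hs : s ≤ |s| := le_abs_self s
  constructor
  · intro i
    have := h1 i
    show -|s| ≤ e i
    nlinarith
  · intro i
    have := h1 i
    show e i ≤ |s|
    nlinarith

/-- the commutator words -/
def Aw (n : ℕ) : List Wd :=
  (List.range n).flatMap fun i => (List.range n).flatMap fun j =>
    [true, false].flatMap fun c => [true, false].map fun d => [(i, !c), (j, !d), (i, c), (j, d)]

theorem mem_Aw {n : ℕ} {a : Wd} : a ∈ Aw n ↔ ∃ i < n, ∃ j < n, ∃ c : Bool, ∃ d : Bool,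
    a = [(i, !c), (j, !d), (i, c), (j, d)] := by
  unfold Aw
  simp only [List.mem_flatMap, List.mem_range, List.mem_map]
  constructor
  · rintro ⟨i, hi, j, hj, c, _, d, _, rfl⟩
    exact ⟨i, hi, j, hj, c, d, rfl⟩
  · rintro ⟨i, hi, j, hj, c, d, rfl⟩
    exact ⟨i, hi, j, hj, c, by cases c <;> simp, d, by cases d <;> simp, rfl⟩

theorem pw_not (x : G) (c : Bool) : pw x (!c) = (pw x c)⁻¹ := by
  cases c <;> simp [pw]

theorem evw_Aw {n : ℕ} (f : ℕ → G) {a : Wd} (ha : a ∈ Aw n) : evw f a ∈ commutator G := by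
  obtain ⟨i, _, j, _, c, d, rfl⟩ := mem_Aw.1 ha
  have : evw f [(i, !c), (j, !d), (i, c), (j, d)] = ⁅(pw (f i) c)⁻¹, (pw (f j) d)⁻¹⁆ := by
    rw [commutatorElement_def, evw_cons, evw_cons, evw_cons, evw_cons, evw_nil]
    simp only [pw_not, inv_inv, mul_one, mul_assoc]
  rw [this]
  exact Subgroup.commutator_mem_commutator (Subgroup.mem_top _) (Subgroup.mem_top _)

theorem lt_Aw {n : ℕ} {a : Wd} (ha : a ∈ Aw n) : ∀ y ∈ a, y.1 < n := by
  obtain ⟨i, hi, j, hj, c, d, rfl⟩ := mem_Aw.1 ha
  intro y hy
  simp only [List.mem_cons, List.not_mem_nil, or_false] at hy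
  rcases hy with rfl | rfl | rfl | rfl <;> assumption

theorem conj_eq (hab : ∀ x ∈ commutator G, ∀ y ∈ commutator G, x * y = y * x) {x u v : G}
    (hx : x ∈ commutator G) (h : u⁻¹ * v ∈ commutator G) : u⁻¹ * x * u = v⁻¹ * x * v := by
  have hn : (commutator G).Normal := inferInstance
  have h1 : u⁻¹ * x * u ∈ commutator G := by
    have := hn.conj_mem x hx u⁻¹
    rwa [inv_inv] at this
  have h2 := hab _ h _ h1
  calc u⁻¹ * x * u = (u⁻¹ * v)⁻¹ * ((u⁻¹ * v) * (u⁻¹ * x * u)) := by group
    _ = (u⁻¹ * v)⁻¹ * ((u⁻¹ * x * u) * (u⁻¹ * v)) := by rw [h2]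
    _ = v⁻¹ * x * v := by group

theorem conj_mem' {x : G} (hx : x ∈ commutator G) (u : G) : u⁻¹ * x * u ∈ commutator G := by
  have hn : (commutator G).Normal := inferInstance
  have := hn.conj_mem x hx u⁻¹
  rwa [inv_inv] at this

end CMPWaux

open CMPWaux in
theorem t_CMPW (hCENT : S_CENT) (hCPT : S_CPT) : S_CMPW := by
  classical
  intro G _ n f R hf hR hker hgen hab
  set g : Fin n → G := fun i => f i with hg
  have hgen' : Subgroup.closure (Set.range g) = ⊤ := by
    rw [eq_top_iff, ← hgen, Subgroup.closure_le]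
    rintro _ ⟨i, rfl⟩
    by_cases hi : i < n
    · exact Subgroup.subset_closure ⟨⟨i, hi⟩, rfl⟩
    · rw [hf i (not_lt.1 hi)]
      exact Subgroup.one_mem _
  let L : Set (List (Vec n × Bool)) := {l | ∀ a ∈ commutator G,
    a = (l.map fun x => (mono g x.1)⁻¹ * pw a x.2 * mono g x.1).prod}
  obtain ⟨Λ0, N, U, hN, hU, hL, hlen, hdir⟩ := hCPT n L (by
    intro χ hχ
    obtain ⟨l, h1, h2⟩ := hCENT G n g R hR hker hgen' hab χ hχ
    exact ⟨l, h2, h1⟩)
  set s : ℤ := (n : ℤ) * ((N : ℤ) * (U : ℤ) ^ 2) ^ 2 + 1 with hs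
  have hspos : 0 < s := by positivity
  let K : List Wd := (ball_finite n s).toFinset.toList.map mw
  have hKmem : ∀ w, w ∈ K ↔ ∃ e : Vec n, ip e e < s ∧ mw e = w := by
    intro w
    simp only [K, List.mem_map, Finset.mem_toList, Set.Finite.mem_toFinset, Set.mem_ofPred_eq]
  have hKlt : ∀ w ∈ K, ∀ y ∈ w, y.1 < n := by
    intro w hw
    obtain ⟨e, _, rfl⟩ := (hKmem w).1 hw
    exact mw_lt e
  let A : List Wd := Aw n
  let Λ : List (List (Wd × Bool)) := Λ0.map (List.map fun x => (mw x.1, x.2))
  let B1 : List Wd := K.flatMap fun w => K.flatMap fun w' => A.map fun a =>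
    cw a w ++ winv (cw a w')
  let B2 : List Wd := K.flatMap fun w => K.flatMap fun w' => (List.range n).flatMap fun i =>
    [true, false].flatMap fun c => A.map fun a => cw a (w ++ [(i, c)]) ++ winv (cw a w')
  let B3 : List Wd := K.flatMap fun w => A.flatMap fun a => A.map fun b =>
    a ++ cw b w ++ winv a ++ winv (cw b w)
  let B4 : List Wd := Λ.flatMap fun l => A.map fun a =>
    winv a ++ (l.flatMap fun x => cw (if x.2 = true then a else winv a) x.1)
  let T : List Wd := (B1 ++ B2 ++ B3 ++ B4).filter fun w => decide (evw f w = 1)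
  have hTmem : ∀ w, w ∈ T ↔ (w ∈ B1 ∨ w ∈ B2 ∨ w ∈ B3 ∨ w ∈ B4) ∧ evw f w = 1 := by
    intro w
    simp only [T, List.mem_filter, List.mem_append, decide_eq_true_eq, or_assoc]
  have hsame : ∀ (w w' : Wd), (∀ y ∈ w, y.1 < n) → (∀ y ∈ w', y.1 < n) → abeq n w w' →
      ∀ a ∈ A, evw f (cw a w ++ winv (cw a w')) = 1 := by
    intro w w' hw hw' h a ha
    rw [evw_append, evw_winv, evw_cw, evw_cw,
      conj_eq hab (evw_Aw f ha) (same_class n f w w' hw hw' h), mul_inv_cancel]
  refine ⟨T, K, Λ, A, N, U, ⟨⟨hN, hU, ?_⟩, hKlt, ?_, ?_, ?_, ?_, ?_, ?_, ?_, ?_⟩, ?_⟩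
  · -- the empty word
    refine (hKmem _).2 ⟨0, ?_, mw_zero⟩
    have : ip (0 : Vec n) 0 = 0 := by simp [ip]
    rw [this]
    exact hspos
  · -- lengths
    intro l hl x hx
    simp only [Λ, List.mem_map] at hl
    obtain ⟨l0, hl0, rfl⟩ := hl
    rw [List.mem_map] at hx
    obtain ⟨x0, hx0, rfl⟩ := hx
    refine ⟨?_, mw_lt x0.1⟩
    have h1 := hlen l0 hl0 x0 hx0
    rw [← mw_length] at h1
    exact_mod_cast h1
  · -- commutators
    intro i hi j hj c _ d _
    exact mem_Aw.2 ⟨i, hi, j, hj, c, d, rfl⟩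
  · -- neighbours
    intro w hw i hi c _
    have hw' : ∀ y ∈ w ++ [(i, c)], y.1 < n := by
      intro y hy
      rw [List.mem_append, List.mem_singleton] at hy
      rcases hy with hy | rfl
      · exact hKlt w hw y hy
      · exact hi
    have h1 := nrm_eq n _ hw'
    by_cases h : ip (wvec n (w ++ [(i, c)])) (wvec n (w ++ [(i, c)])) < s
    · right
      refine ⟨mw (wvec n (w ++ [(i, c)])), (hKmem _).2 ⟨_, h, rfl⟩, ?_⟩
      apply abeq_of
      rw [wvec_mw]
    · left
      rw [← h1] at h
      rw [not_lt, hs] at h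
      exact_mod_cast h
  · -- equal vectors
    intro w hw w' hw' h a ha
    refine (hTmem _).2 ⟨Or.inl ?_, hsame w w' (hKlt w hw) (hKlt w' hw') h a ha⟩
    simp only [B1, List.mem_flatMap, List.mem_map]
    exact ⟨w, hw, w', hw', a, ha, rfl⟩
  · -- steps
    intro w hw w' hw' i hi c hc h a ha
    have hw'' : ∀ y ∈ w ++ [(i, c)], y.1 < n := by
      intro y hy
      rw [List.mem_append, List.mem_singleton] at hy
      rcases hy with hy | rfl
      · exact hKlt w hw y hy
      · exact hi
    refine (hTmem _).2 ⟨Or.inr (Or.inl ?_), hsame _ w' hw'' (hKlt w' hw') h a ha⟩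
    simp only [B2, List.mem_flatMap, List.mem_map, List.mem_range]
    exact ⟨w, hw, w', hw', i, hi, c, hc, a, ha, rfl⟩
  · -- commuting
    intro w hw a ha b hb
    refine (hTmem _).2 ⟨Or.inr (Or.inr (Or.inl ?_)), ?_⟩
    · simp only [B3, List.mem_flatMap, List.mem_map]
      exact ⟨w, hw, a, ha, b, hb, rfl⟩
    · rw [evw_append, evw_append, evw_append, evw_winv, evw_winv, evw_cw,
        hab _ (evw_Aw f ha) _ (conj_mem' (evw_Aw f hb) (evw f w))]
      group
  · -- centralizers
    intro l hl a ha
    refine (hTmem _).2 ⟨Or.inr (Or.inr (Or.inr ?_)), ?_⟩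
    · simp only [B4, List.mem_flatMap, List.mem_map]
      exact ⟨l, hl, a, ha, rfl⟩
    · simp only [Λ, List.mem_map] at hl
      obtain ⟨l0, hl0, rfl⟩ := hl
      have h1 := hL l0 hl0 (evw f a) (evw_Aw f ha)
      have h2 : evw f ((l0.map fun x => (mw x.1, x.2)).flatMap fun x =>
          cw (if x.2 = true then a else winv a) x.1) =
          (l0.map fun x => (mono g x.1)⁻¹ * pw (evw f a) x.2 * mono g x.1).prod := by
        rw [List.flatMap_def, evw_flatten, List.map_map, List.map_map]
        congr 1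
        apply List.map_congr_left
        intro x _
        simp only [Function.comp_apply]
        rw [evw_cw, evw_mw]
        congr 2
        obtain ⟨x1, x2⟩ := x
        cases x2 <;> simp [pw, evw_winv]
      rw [evw_append, evw_winv, h2, ← h1, inv_mul_cancel]
  · -- directions
    intro w hw h1 h2
    have hwlt := hKlt w hw
    obtain ⟨l0, hl0, h3⟩ := hdir (wvec n w) (by
      intro i
      have := h1 i i.2
      rw [abs_le]
      unfold wvec
      omega) (by
      obtain ⟨i, hi, h⟩ := h2
      have h4 := h1 i hi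
      refine ⟨⟨i, hi⟩, ?_⟩
      unfold wvec
      simp only
      rcases h with h | h
      · rw [abs_of_nonneg (by omega)]
        omega
      · rw [abs_of_nonpos (by omega)]
        omega)
    refine ⟨l0.map fun x => (mw x.1, x.2), ?_, ?_⟩
    · simp only [Λ, List.mem_map]
      exact ⟨l0, hl0, rfl⟩
    · rcases h3 with h3 | h3
      · left
        intro x hx
        rw [List.mem_map] at hx
        obtain ⟨x0, hx0, rfl⟩ := hx
        have h4 := h3 x0 hx0
        have h5 := ip_words n (mw x0.1) w (mw_lt x0.1)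
        rw [wvec_mw] at h5
        simp only
        omega
      · right
        intro x hx
        rw [List.mem_map] at hx
        obtain ⟨x0, hx0, rfl⟩ := hx
        have h4 := h3 x0 hx0
        have h5 := ip_words n (mw x0.1) w (mw_lt x0.1)
        rw [wvec_mw] at h5
        simp only
        omega
  · intro w hw
    exact ((hTmem w).1 hw).2

end H114MB
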