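import Pool.Agent.H114.MB.Defs

/-!
Task COC (by helper403): the product of the labels depends only on the value of the word.
-/

set_option autoImplicit false

namespace H114MB

/-- the action of a generator -/
def COC_sig {G P : Type} [Group G] [Group P] {n : ℕ} (g : Fin n → G) (f : G → Fin n → P)
    (i : Fin n) : Equiv.Perm (G × P) where
  toFun z := (z.1 * g i, z.2 * f z.1 i)
  invFun z := (z.1 * (g i)⁻¹, z.2 * (f (z.1 * (g i)⁻¹) i)⁻¹)
  left_inv z := by
    ext1
    · simp
    · simp
  right_inv z := by
    ext1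
    · simp
    · simp

theorem COC_ev {G : Type} [Group G] {n : ℕ} (g : Fin n → G) (w : List (Fin n × Bool)) :
    ev g w = FreeGroup.lift g (FreeGroup.mk w) := by
  rw [FreeGroup.lift_mk]
  unfold ev
  congr 1
  refine List.map_congr_left fun y _ => ?_
  obtain ⟨i, c⟩ := y
  cases c <;> rfl

theorem COC_act {G P : Type} [Group G] [Group P] {n : ℕ} (g : Fin n → G) (f : G → Fin n → P)
    (w : List (Fin n × Bool)) : ∀ (x : G) (p : P),
    (FreeGroup.lift (fun i => (COC_sig g f i)⁻¹) (FreeGroup.mk w))⁻¹ (x, p) =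
      (x * ev g w, p * pp g f x w) := by
  induction w with
  | nil =>
    intro x p
    simp [ev, pp, FreeGroup.lift_mk]
  | cons c w ih =>
    intro x p
    obtain ⟨i, c⟩ := c
    have h1 : (FreeGroup.lift (fun i => (COC_sig g f i)⁻¹) (FreeGroup.mk ((i, c) :: w)))⁻¹ (x, p) =
        (FreeGroup.lift (fun i => (COC_sig g f i)⁻¹) (FreeGroup.mk w))⁻¹
          ((FreeGroup.lift (fun i => (COC_sig g f i)⁻¹) (FreeGroup.mk [(i, c)]))⁻¹ (x, p)) := by
      rw [← Equiv.Perm.mul_apply, ← mul_inv_rev, ← map_mul, FreeGroup.mul_mk]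
      rfl
    rw [h1]
    cases c with
    | true =>
      have h2 : (FreeGroup.lift (fun i => (COC_sig g f i)⁻¹) (FreeGroup.mk [(i, true)]))⁻¹ (x, p) =
          (x * g i, p * f x i) := by
        rw [FreeGroup.lift_mk]
        simp only [List.map_cons, List.map_nil, List.prod_cons, List.prod_nil, mul_one, cond_true,
          inv_inv]
        rfl
      rw [h2, ih]
      simp only [ev, pp, pw, List.map_cons, List.prod_cons, mul_assoc, if_true]
    | false =>
      have h2 : (FreeGroup.lift (fun i => (COC_sig g f i)⁻¹) (FreeGroup.mk [(i, false)]))⁻¹ (x, p) =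
          (x * (g i)⁻¹, p * (f (x * (g i)⁻¹) i)⁻¹) := by
        rw [FreeGroup.lift_mk]
        simp only [List.map_cons, List.map_nil, List.prod_cons, List.prod_nil, mul_one, cond_false,
          inv_inv]
        rfl
      rw [h2, ih]
      simp only [ev, pp, pw, List.map_cons, List.prod_cons, mul_assoc, Bool.false_eq_true, if_false]

theorem t_COC : S_COC := by
  intro G P _ _ n g R hR f hf x w w' hww
  have hker : Subgroup.normalClosure R ≤ (FreeGroup.lift (fun i => (COC_sig g f i)⁻¹)).ker := by
    apply Subgroup.normalClosure_le_normal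
    intro r hr
    show FreeGroup.lift (fun i => (COC_sig g f i)⁻¹) r = 1
    have h1 : ev g r.toWord = 1 := by
      rw [COC_ev, FreeGroup.mk_toWord]
      have : r ∈ (FreeGroup.lift g).ker := by
        rw [hR]
        exact Subgroup.subset_normalClosure hr
      exact this
    rw [← inv_eq_one]
    ext1 z
    obtain ⟨y, p⟩ := z
    have h2 := COC_act g f r.toWord y p
    rw [FreeGroup.mk_toWord, h1, hf y r hr, mul_one, mul_one] at h2
    rw [h2]
    rfl
  have h1 : (FreeGroup.mk w)⁻¹ * FreeGroup.mk w' ∈ (FreeGroup.lift g).ker := by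
    rw [MonoidHom.mem_ker, map_mul, map_inv, ← COC_ev, ← COC_ev, hww, inv_mul_cancel]
  rw [hR] at h1
  have h2 := hker h1
  rw [MonoidHom.mem_ker, map_mul, map_inv, inv_mul_eq_one] at h2
  have h3 := COC_act g f w x 1
  have h4 := COC_act g f w' x 1
  rw [h2, h4] at h3
  have h5 := congrArg Prod.snd h3
  simp only [one_mul] at h5
  exact h5.symm

end H114MB
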