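import Pool.Agent.H114.MB.Defs

set_option autoImplicit false

namespace H114MB

open scoped BigOperators Topology

private theorem CPT_gap {α : Type} (l : List α) (f : α → ℝ) (h : ∀ x ∈ l, 0 < f x) :
    ∃ d : ℝ, 0 < d ∧ ∀ x ∈ l, d < f x := by
  induction l with
  | nil => exact ⟨1, one_pos, by simp⟩
  | cons a l ih =>
    obtain ⟨d, hd, hl⟩ := ih (fun x hx => h x (List.mem_cons_of_mem _ hx))
    have ha := h a List.mem_cons_self
    refine ⟨min d (f a / 2), lt_min hd (by linarith), ?_⟩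
    intro x hx
    rcases List.mem_cons.mp hx with rfl | hx
    · exact lt_of_le_of_lt (min_le_right _ _) (by linarith)
    · exact lt_of_le_of_lt (min_le_left _ _) (hl x hx)

private theorem CPT_bd {α : Type} (l : List α) (f : α → ℤ) :
    ∃ U : ℕ, 1 ≤ U ∧ ∀ x ∈ l, f x ≤ (U : ℤ) := by
  induction l with
  | nil => exact ⟨1, le_rfl, by simp⟩
  | cons a l ih =>
    obtain ⟨U, hU, hl⟩ := ih
    refine ⟨U + (f a).toNat, by omega, ?_⟩
    intro x hx
    rcases List.mem_cons.mp hx with rfl | hx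
    · push_cast
      have := Int.self_le_toNat (f x)
      omega
    · have := hl x hx
      push_cast
      omega

private theorem CPT_cont {n : ℕ} (v : Vec n) :
    Continuous (fun χ : Fin n → ℝ => ∑ i, χ i * (v i : ℝ)) := by
  fun_prop

private theorem CPT_open {n : ℕ} (l : List (Vec n × Bool)) (d : ℝ) :
    IsOpen {χ : Fin n → ℝ | ∀ x ∈ l, d < ∑ i, χ i * (x.1 i : ℝ)} := by
  induction l with
  | nil => simp
  | cons a l ih =>
    have : {χ : Fin n → ℝ | ∀ x ∈ a :: l, d < ∑ i, χ i * (x.1 i : ℝ)} =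
        {χ : Fin n → ℝ | d < ∑ i, χ i * (a.1 i : ℝ)} ∩
        {χ : Fin n → ℝ | ∀ x ∈ l, d < ∑ i, χ i * (x.1 i : ℝ)} := by
      ext χ
      simp only [List.forall_mem_cons, Set.mem_inter_iff, Set.mem_ofPred_eq]
    rw [this]
    exact (isOpen_lt continuous_const (CPT_cont a.1)).inter ih

private theorem CPT_open' {n : ℕ} (l : List (Vec n × Bool)) (d : ℝ) :
    IsOpen {χ : Fin n → ℝ | ∀ x ∈ l, ∑ i, χ i * (x.1 i : ℝ) < -d} := by
  induction l with
  | nil => simp
  | cons a l ih =>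
    have : {χ : Fin n → ℝ | ∀ x ∈ a :: l, ∑ i, χ i * (x.1 i : ℝ) < -d} =
        {χ : Fin n → ℝ | ∑ i, χ i * (a.1 i : ℝ) < -d} ∩
        {χ : Fin n → ℝ | ∀ x ∈ l, ∑ i, χ i * (x.1 i : ℝ) < -d} := by
      ext χ
      simp only [List.forall_mem_cons, Set.mem_inter_iff, Set.mem_ofPred_eq]
    rw [this]
    exact (isOpen_lt (CPT_cont a.1) continuous_const).inter ih

theorem t_CPT : S_CPT := by
  intro n L hL
  have key : ∃ (Λ : List (List (Vec n × Bool))) (d : ℝ), 0 < d ∧ (∀ l ∈ Λ, l ∈ L) ∧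
      ∀ χ ∈ Metric.sphere (0 : Fin n → ℝ) 1, ∃ l ∈ Λ,
        (∀ x ∈ l, d < ∑ i, χ i * (x.1 i : ℝ)) ∨ (∀ x ∈ l, ∑ i, χ i * (x.1 i : ℝ) < -d) := by
    refine (isCompact_sphere (0 : Fin n → ℝ) 1).induction_on
      (p := fun s => ∃ (Λ : List (List (Vec n × Bool))) (d : ℝ), 0 < d ∧ (∀ l ∈ Λ, l ∈ L) ∧
        ∀ χ ∈ s, ∃ l ∈ Λ,
        (∀ x ∈ l, d < ∑ i, χ i * (x.1 i : ℝ)) ∨ (∀ x ∈ l, ∑ i, χ i * (x.1 i : ℝ) < -d))
      ?_ ?_ ?_ ?_
    · exact ⟨[], 1, one_pos, by simp, by simp⟩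
    · rintro s t hst ⟨Λ, d, hd, h1, h2⟩
      exact ⟨Λ, d, hd, h1, fun χ hχ => h2 χ (hst hχ)⟩
    · rintro s t ⟨Λ, d, hd, h1, h2⟩ ⟨Λ', d', hd', h1', h2'⟩
      refine ⟨Λ ++ Λ', min d d', lt_min hd hd', ?_, ?_⟩
      · intro l hl
        rcases List.mem_append.mp hl with hl | hl
        · exact h1 l hl
        · exact h1' l hl
      · rintro χ (hχ | hχ)
        · obtain ⟨l, hl, h⟩ := h2 χ hχ
          refine ⟨l, List.mem_append_left _ hl, ?_⟩
          rcases h with h | h
          · exact Or.inl fun x hx => lt_of_le_of_lt (min_le_left _ _) (h x hx)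
          · exact Or.inr fun x hx => lt_of_lt_of_le (h x hx) (neg_le_neg (min_le_left _ _))
        · obtain ⟨l, hl, h⟩ := h2' χ hχ
          refine ⟨l, List.mem_append_right _ hl, ?_⟩
          rcases h with h | h
          · exact Or.inl fun x hx => lt_of_le_of_lt (min_le_right _ _) (h x hx)
          · exact Or.inr fun x hx => lt_of_lt_of_le (h x hx) (neg_le_neg (min_le_right _ _))
    · intro χ hχ
      have hχ0 : χ ≠ 0 := by
        rintro rfl
        simp at hχ
      obtain ⟨l, hl, h⟩ := hL χ hχ0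
      rcases h with h | h
      · obtain ⟨d, hd, hd'⟩ := CPT_gap l (fun x => ∑ i, χ i * (x.1 i : ℝ)) h
        refine ⟨_, mem_nhdsWithin_of_mem_nhds ((CPT_open l d).mem_nhds hd'), [l], d, hd, ?_, ?_⟩
        · intro l' hl'
          rw [List.mem_singleton.mp hl']
          exact hl
        · intro χ' hχ'
          exact ⟨l, by simp, Or.inl hχ'⟩
      · obtain ⟨d, hd, hd'⟩ := CPT_gap l (fun x => -∑ i, χ i * (x.1 i : ℝ))
          (fun x hx => by have := h x hx; linarith)
        refine ⟨_, mem_nhdsWithin_of_mem_nhds ((CPT_open' l d).mem_nhds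
          (fun x hx => by have := hd' x hx; linarith)), [l], d, hd, ?_, ?_⟩
        · intro l' hl'
          rw [List.mem_singleton.mp hl']
          exact hl
        · intro χ' hχ'
          exact ⟨l, by simp, Or.inr hχ'⟩
  obtain ⟨Λ, d, hd, h1, h2⟩ := key
  obtain ⟨U, hU, hbd⟩ := CPT_bd Λ.flatten (fun x => ∑ i, |x.1 i|)
  obtain ⟨N, hN⟩ := exists_nat_gt (((U : ℝ) + 1) / d)
  have hNpos : (0 : ℝ) < N := lt_of_le_of_lt (by positivity) hN
  have hN1 : 1 ≤ N := by
    have : 0 < N := by exact_mod_cast hNpos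
    omega
  have hNd : (U : ℝ) + 1 < N * d := by
    rw [div_lt_iff₀ hd] at hN
    exact hN
  refine ⟨Λ, N, U, hN1, hU, h1, ?_, ?_⟩
  · intro l hl x hx
    exact hbd x (List.mem_flatten.mpr ⟨l, hl, hx⟩)
  · rintro e he ⟨i₀, hi₀⟩
    have hχ : (fun i => (e i : ℝ) / N) ∈ Metric.sphere (0 : Fin n → ℝ) 1 := by
      rw [mem_sphere_zero_iff_norm]
      apply le_antisymm
      · rw [pi_norm_le_iff_of_nonneg zero_le_one]
        intro i
        rw [Real.norm_eq_abs, abs_div, abs_of_pos hNpos, div_le_one hNpos]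
        exact_mod_cast he i
      · have := norm_le_pi_norm (fun i => (e i : ℝ) / N) i₀
        rw [Real.norm_eq_abs, abs_div, abs_of_pos hNpos] at this
        have h3 : |(e i₀ : ℝ)| = N := by exact_mod_cast hi₀
        rw [h3, div_self hNpos.ne'] at this
        exact this
    obtain ⟨l, hl, h⟩ := h2 _ hχ
    have hval : ∀ x : Vec n × Bool, ∑ i, (e i : ℝ) / N * (x.1 i : ℝ) = ((ip x.1 e : ℤ) : ℝ) / N := by
      intro x
      unfold ip
      push_cast
      rw [Finset.sum_div]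
      exact Finset.sum_congr rfl fun i _ => by ring
    refine ⟨l, hl, ?_⟩
    rcases h with h | h
    · left
      intro x hx
      have h4 := h x hx
      rw [hval x, lt_div_iff₀ hNpos] at h4
      have h5 : ((U : ℝ) + 1) < ((ip x.1 e : ℤ) : ℝ) := by linarith
      have h6 : ((U : ℤ) + 1) < ip x.1 e := by exact_mod_cast h5
      exact h6.le
    · right
      intro x hx
      have h4 := h x hx
      rw [hval x, div_lt_iff₀ hNpos] at h4
      have h5 : ((ip x.1 e : ℤ) : ℝ) < -((U : ℝ) + 1) := by linarith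
      have h6 : ip x.1 e < -((U : ℤ) + 1) := by exact_mod_cast h5
      exact h6.le

end H114MB
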