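import Mathlib

/-!
# MP_909f0f_lc: the finite presentations of metabelian groups are recursively enumerable

Definitions and statements (`S_...`) of the parts of the proof.
-/

set_option autoImplicit false

namespace H114MB

open scoped BigOperators

/-! ### Part A: integer vectors and tameness certificates -/

/-- integer vectors -/
abbrev Vec (n : ℕ) := Fin n → ℤ

/-- inner product -/
def ip {n : ℕ} (u v : Vec n) : ℤ := ∑ i, u i * v i

/-- `p` lies in the box spanned by `0` and `e` -/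
def Box {n : ℕ} (e p : Vec n) : Prop := ∀ i, (0 ≤ p i ∧ p i ≤ e i) ∨ (e i ≤ p i ∧ p i ≤ 0)

/-- sign of a letter -/
def sgn (c : Bool) : ℤ := if c then 1 else -1

/-- `x` or its inverse -/
def pw {H : Type} [Group H] (x : H) (c : Bool) : H := if c then x else x⁻¹

/-- Values `V b e` (the conjugate of `b` by any word with exponent vector `e`) for the vectors `e` of
the ball `ip e e < s`. -/
structure Vals {H : Type} [Group H] {n : ℕ} (g : Fin n → H) (A : Set H) (s : ℤ)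
    (V : H → Vec n → H) : Prop where
  zero : ∀ b ∈ A, V b 0 = b
  step : ∀ b ∈ A, ∀ (e : Vec n) (i : Fin n) (c : Bool), ip e e < s →
    ip (e + Pi.single i (sgn c)) (e + Pi.single i (sgn c)) < s →
    (pw (g i) c)⁻¹ * V b e * pw (g i) c = V b (e + Pi.single i (sgn c))
  comm : ∀ a ∈ A, ∀ b ∈ A, ∀ e : Vec n, ip e e < s → Commute a (V b e)

/-- The geometric condition on the supports of the centralizers in `Λ`. -/
def Geo (n : ℕ) (s : ℤ) (Λ : Set (List (Vec n × Bool))) : Prop :=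
  ∀ e : Vec n, s ≤ ip e e → ∃ l ∈ Λ,
    (∀ x ∈ l, ∀ p : Vec n, Box e p → ip (p + x.1) (p + x.1) < ip e e) ∨
    (∀ x ∈ l, ∀ p : Vec n, Box e p → ip (x.1 - p) (x.1 - p) < ip e e)

/-- A tameness certificate in the group `H` generated by the `g i`. -/
structure Cert {H : Type} [Group H] {n : ℕ} (g : Fin n → H) (A : Set H) (s : ℤ)
    (Λ : Set (List (Vec n × Bool))) (V : H → Vec n → H) : Prop where
  vals : Vals g A s V
  gen : Subgroup.closure (Set.range g) = ⊤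
  comms : ∀ (i j : Fin n) (c d : Bool),
    (pw (g i) c)⁻¹ * (pw (g j) d)⁻¹ * pw (g i) c * pw (g j) d ∈ A
  ball : ∀ l ∈ Λ, ∀ x ∈ l, ip x.1 x.1 < s
  rel : ∀ l ∈ Λ, ∀ b ∈ A, b = (l.map fun x => pw (V b x.1) x.2).prod
  geo : Geo n s Λ

/-- STEP: enlarging the ball by one sphere -/
def S_STEP : Prop := ∀ (H : Type) [Group H] (n : ℕ) (g : Fin n → H) (A : Set H) (s s' : ℤ)
  (Λ : Set (List (Vec n × Bool))) (V V' : H → Vec n → H), Cert g A s Λ V → s ≤ s' →
  Vals g A s' V' → (∀ b ∈ A, ∀ e : Vec n, ip e e < s → V' b e = V b e) →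
  ∃ V'' : H → Vec n → H, Vals g A (s' + 1) V'' ∧
    ∀ b ∈ A, ∀ e : Vec n, ip e e < s → V'' b e = V b e

/-- SND: a group with a tameness certificate is metabelian -/
def S_SND : Prop := ∀ (H : Type) [Group H] (n : ℕ) (g : Fin n → H) (A : Set H) (s : ℤ)
  (Λ : Set (List (Vec n × Bool))) (V : H → Vec n → H), Cert g A s Λ V →
  ∀ x ∈ commutator H, ∀ y ∈ commutator H, x * y = y * x

/-- GEO: from directions to the geometric condition -/
def S_GEO : Prop := ∀ (n N U : ℕ) (Λ : Set (List (Vec n × Bool))), 1 ≤ N → 1 ≤ U →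
  (∀ l ∈ Λ, ∀ x ∈ l, ∑ i, |x.1 i| ≤ (U : ℤ)) →
  (∀ e : Vec n, (∀ i, |e i| ≤ (N : ℤ)) → (∃ i, |e i| = (N : ℤ)) → ∃ l ∈ Λ,
    (∀ x ∈ l, (U : ℤ) + 1 ≤ ip x.1 e) ∨ (∀ x ∈ l, ip x.1 e ≤ -((U : ℤ) + 1))) →
  Geo n ((n : ℤ) * ((N : ℤ) * (U : ℤ) ^ 2) ^ 2 + 1) Λ

/-- CPT: compactness of the sphere -/
def S_CPT : Prop := ∀ (n : ℕ) (L : Set (List (Vec n × Bool))),
  (∀ χ : Fin n → ℝ, χ ≠ 0 → ∃ l ∈ L, (∀ x ∈ l, 0 < ∑ i, χ i * (x.1 i : ℝ)) ∨
    (∀ x ∈ l, ∑ i, χ i * (x.1 i : ℝ) < 0)) →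
  ∃ (Λ : List (List (Vec n × Bool))) (N U : ℕ), 1 ≤ N ∧ 1 ≤ U ∧ (∀ l ∈ Λ, l ∈ L) ∧
    (∀ l ∈ Λ, ∀ x ∈ l, ∑ i, |x.1 i| ≤ (U : ℤ)) ∧
    ∀ e : Vec n, (∀ i, |e i| ≤ (N : ℤ)) → (∃ i, |e i| = (N : ℤ)) → ∃ l ∈ Λ,
      (∀ x ∈ l, (U : ℤ) + 1 ≤ ip x.1 e) ∨ (∀ x ∈ l, ip x.1 e ≤ -((U : ℤ) + 1))

/-! ### Part B: finitely presented metabelian groups are tame -/

/-- value of a word -/
def ev {G : Type} [Group G] {n : ℕ} (g : Fin n → G) (w : List (Fin n × Bool)) : G :=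
  (w.map fun y => pw (g y.1) y.2).prod

/-- ordered monomial -/
def mono {G : Type} [Group G] {n : ℕ} (g : Fin n → G) (u : Vec n) : G :=
  (List.ofFn fun i => g i ^ u i).prod

/-- height with respect to a character -/
def ht {G : Type} [Group G] (X : G →* Multiplicative ℝ) (x : G) : ℝ := Multiplicative.toAdd (X x)

/-- PATH: good paths in the quotient by the commutator subgroup -/
def S_PATH : Prop := ∀ (G : Type) [Group G] (n : ℕ) (g : Fin n → G),
  Subgroup.closure (Set.range g) = ⊤ → ∀ X : G →* Multiplicative ℝ, (∃ x, ht X x ≠ 0) →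
  ∃ C₀ : ℝ, ∀ C : ℝ, C₀ ≤ C → ∀ x : G, ∃ w : List (Fin n × Bool),
    (ev g w)⁻¹ * x ∈ commutator G ∧
    ∀ p, p <+: w → min (-C) (ht X x) ≤ ht X (ev g p) ∧ ht X (ev g p) ≤ max C (ht X x)

/-- PUSH: elements of the two factors of an amalgam commute only trivially -/
def S_PUSH : Prop := ∀ (G : Type) [Group G] (U V : Subgroup G),
  ∃ (P : Type) (_ : Group P) (iU : U →* P) (iV : V →* P),
    (∀ (a : G) (hu : a ∈ U) (hv : a ∈ V), iU ⟨a, hu⟩ = iV ⟨a, hv⟩) ∧
    ∀ (u : U) (v : V), iU u * iV v = iV v * iU u → (u : G) ∈ V ∨ (v : G) ∈ U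

/-- product of the labels along a path of the Cayley graph -/
def pp {G P : Type} [Group G] [Group P] {n : ℕ} (g : Fin n → G) (f : G → Fin n → P) :
    G → List (Fin n × Bool) → P
  | _, [] => 1
  | x, (i, true) :: w => f x i * pp g f (x * g i) w
  | x, (i, false) :: w => (f (x * (g i)⁻¹) i)⁻¹ * pp g f (x * (g i)⁻¹) w

/-- COC: if the relators are trivial then the product depends only on the value of the word -/
def S_COC : Prop := ∀ (G P : Type) [Group G] [Group P] (n : ℕ) (g : Fin n → G)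
  (R : Set (FreeGroup (Fin n))), (FreeGroup.lift g).ker = Subgroup.normalClosure R →
  ∀ f : G → Fin n → P, (∀ x : G, ∀ r ∈ R, pp g f x r.toWord = 1) →
  ∀ (x : G) (w w' : List (Fin n × Bool)), ev g w = ev g w' → pp g f x w = pp g f x w'

/-- AMA: the commutator subgroup is carried by a half space -/
def S_AMA : Prop := ∀ (G : Type) [Group G] (n : ℕ) (g : Fin n → G)
  (R : Set (FreeGroup (Fin n))), R.Finite → (FreeGroup.lift g).ker = Subgroup.normalClosure R →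
  Subgroup.closure (Set.range g) = ⊤ →
  (∀ x ∈ commutator G, ∀ y ∈ commutator G, x * y = y * x) →
  ∀ X : G →* Multiplicative ℝ, (∃ x, ht X x ≠ 0) → ∃ C : ℝ,
    (∀ a ∈ commutator G, ∃ w, ev g w = a ∧ ∀ p, p <+: w → -C ≤ ht X (ev g p)) ∨
    (∀ a ∈ commutator G, ∃ w, ev g w = a ∧ ∀ p, p <+: w → ht X (ev g p) ≤ C)

/-- HALF: finite generation over the half space -/
def S_HALF : Prop := ∀ (G : Type) [Group G] (n : ℕ) (g : Fin n → G),
  Subgroup.closure (Set.range g) = ⊤ →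
  (∀ x ∈ commutator G, ∀ y ∈ commutator G, x * y = y * x) →
  ∀ (X : G →* Multiplicative ℝ) (C : ℝ), (∃ x, ht X x ≠ 0) →
  (∀ a ∈ commutator G, ∃ w, ev g w = a ∧ ∀ p, p <+: w → -C ≤ ht X (ev g p)) →
  ∃ E : Finset G, (∀ e ∈ E, e ∈ commutator G) ∧ ∀ a ∈ commutator G,
    a ∈ Subgroup.closure {y | ∃ x : G, ∃ e ∈ E, 0 ≤ ht X x ∧ y = x * e * x⁻¹}

/-- NAK: Nakayama's lemma gives a centralizer supported in the open half space -/
def S_NAK : Prop := ∀ (G : Type) [Group G] (n : ℕ) (g : Fin n → G),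
  Subgroup.closure (Set.range g) = ⊤ →
  (∀ x ∈ commutator G, ∀ y ∈ commutator G, x * y = y * x) →
  ∀ (X : G →* Multiplicative ℝ) (χ : Fin n → ℝ), (∀ i, ht X (g i) = χ i) →
  (∃ x, ht X x ≠ 0) → ∀ E : Finset G, (∀ e ∈ E, e ∈ commutator G) →
  (∀ a ∈ commutator G,
    a ∈ Subgroup.closure {y | ∃ x : G, ∃ e ∈ E, 0 ≤ ht X x ∧ y = x * e * x⁻¹}) →
  ∃ l : List (Vec n × Bool),
    ((∀ x ∈ l, 0 < ∑ i, χ i * (x.1 i : ℝ)) ∨ (∀ x ∈ l, ∑ i, χ i * (x.1 i : ℝ) < 0)) ∧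
    ∀ a ∈ commutator G,
      a = (l.map fun x => (mono g x.1)⁻¹ * pw a x.2 * mono g x.1).prod

/-- CENT: existence of centralizers -/
def S_CENT : Prop := ∀ (G : Type) [Group G] (n : ℕ) (g : Fin n → G)
  (R : Set (FreeGroup (Fin n))), R.Finite → (FreeGroup.lift g).ker = Subgroup.normalClosure R →
  Subgroup.closure (Set.range g) = ⊤ →
  (∀ x ∈ commutator G, ∀ y ∈ commutator G, x * y = y * x) →
  ∀ χ : Fin n → ℝ, χ ≠ 0 → ∃ l : List (Vec n × Bool),
    ((∀ x ∈ l, 0 < ∑ i, χ i * (x.1 i : ℝ)) ∨ (∀ x ∈ l, ∑ i, χ i * (x.1 i : ℝ) < 0)) ∧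
    ∀ a ∈ commutator G,
      a = (l.map fun x => (mono g x.1)⁻¹ * pw a x.2 * mono g x.1).prod

/-! ### Part C: words and certificates -/

/-- words in the letters `x_0, x_1, ...` and their inverses -/
abbrev Wd := List (ℕ × Bool)

/-- inverse word -/
def winv (w : Wd) : Wd := (w.map fun y => (y.1, !y.2)).reverse

/-- conjugate word -/
def cw (a w : Wd) : Wd := winv w ++ a ++ w

/-- value of a word -/
def evw {H : Type} [Group H] (f : ℕ → H) (w : Wd) : H := (w.map fun y => pw (f y.1) y.2).prod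

/-- positive part of the inner product of the exponent vectors -/
def ipP (u w : Wd) : ℕ := (u.map fun y => w.count y).sum

/-- negative part of the inner product of the exponent vectors -/
def ipM (u w : Wd) : ℕ := (u.map fun y => w.count (y.1, !y.2)).sum

/-- square of the norm of the exponent vector -/
def nrm (w : Wd) : ℕ := ipP w w - ipM w w

/-- exponent vector -/
def wvec (n : ℕ) (w : Wd) : Vec n := fun i =>
  ((w.count ((i : ℕ), true) : ℕ) : ℤ) - ((w.count ((i : ℕ), false) : ℕ) : ℤ)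

/-- equal exponent vectors -/
def abeq (n : ℕ) (w w' : Wd) : Prop := ∀ i < n,
  w.count (i, true) + w'.count (i, false) = w'.count (i, true) + w.count (i, false)

/-- the list of the relations `T` contains a tameness certificate -/
def Check (n : ℕ) (T K : List Wd) (Λ : List (List (Wd × Bool))) (A : List Wd) (N U : ℕ) : Prop :=
  (1 ≤ N ∧ 1 ≤ U ∧ [] ∈ K) ∧
  (∀ w ∈ K, ∀ y ∈ w, y.1 < n) ∧
  (∀ l ∈ Λ, ∀ x ∈ l, x.1.length ≤ U ∧ ∀ y ∈ x.1, y.1 < n) ∧
  (∀ i < n, ∀ j < n, ∀ c ∈ [true, false], ∀ d ∈ [true, false],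
    [(i, !c), (j, !d), (i, c), (j, d)] ∈ A) ∧
  (∀ w ∈ K, ∀ i < n, ∀ c ∈ [true, false],
    n * (N * U ^ 2) ^ 2 + 1 ≤ nrm (w ++ [(i, c)]) ∨ ∃ w' ∈ K, abeq n (w ++ [(i, c)]) w') ∧
  (∀ w ∈ K, ∀ w' ∈ K, abeq n w w' → ∀ a ∈ A, cw a w ++ winv (cw a w') ∈ T) ∧
  (∀ w ∈ K, ∀ w' ∈ K, ∀ i < n, ∀ c ∈ [true, false], abeq n (w ++ [(i, c)]) w' →
    ∀ a ∈ A, cw a (w ++ [(i, c)]) ++ winv (cw a w') ∈ T) ∧
  (∀ w ∈ K, ∀ a ∈ A, ∀ b ∈ A, a ++ cw b w ++ winv a ++ winv (cw b w) ∈ T) ∧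
  (∀ l ∈ Λ, ∀ a ∈ A,
    winv a ++ (l.flatMap fun x => cw (if x.2 = true then a else winv a) x.1) ∈ T) ∧
  (∀ w ∈ K, (∀ i < n, w.count (i, true) ≤ w.count (i, false) + N ∧
      w.count (i, false) ≤ w.count (i, true) + N) →
    (∃ i < n, w.count (i, true) = w.count (i, false) + N ∨
      w.count (i, false) = w.count (i, true) + N) →
    ∃ l ∈ Λ, (∀ x ∈ l, ipM x.1 w + U + 1 ≤ ipP x.1 w) ∨
      (∀ x ∈ l, ipP x.1 w + U + 1 ≤ ipM x.1 w))

/-- SNDW: soundness for words -/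
def S_SNDW : Prop := ∀ (n : ℕ) (T K : List Wd) (Λ : List (List (Wd × Bool))) (A : List Wd)
  (N U : ℕ), Check n T K Λ A N U → ∀ (H : Type) [Group H] (f : ℕ → H),
  (∀ i, n ≤ i → f i = 1) → Subgroup.closure (Set.range f) = ⊤ → (∀ w ∈ T, evw f w = 1) →
  ∀ x ∈ commutator H, ∀ y ∈ commutator H, x * y = y * x

/-- CMPW: completeness for words -/
def S_CMPW : Prop := ∀ (G : Type) [Group G] (n : ℕ) (f : ℕ → G) (R : Set (FreeGroup (Fin n))),
  (∀ i, n ≤ i → f i = 1) → R.Finite →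
  (FreeGroup.lift fun i : Fin n => f i).ker = Subgroup.normalClosure R →
  Subgroup.closure (Set.range f) = ⊤ →
  (∀ x ∈ commutator G, ∀ y ∈ commutator G, x * y = y * x) →
  ∃ (T K : List Wd) (Λ : List (List (Wd × Bool))) (A : List Wd) (N U : ℕ),
    Check n T K Λ A N U ∧ ∀ w ∈ T, evw f w = 1

/-- the relators of a presentation, as in the frozen statement -/
def relset (p : ℕ × List Wd) : Set (FreeGroup (Fin p.1)) :=
  {r : FreeGroup (Fin p.1) | ∃ w ∈ p.2,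
    r = (w.map (fun x : ℕ × Bool =>
      if h : x.1 < p.1 then
        (if x.2 then FreeGroup.of (⟨x.1, h⟩ : Fin p.1)
         else (FreeGroup.of (⟨x.1, h⟩ : Fin p.1))⁻¹)
      else 1)).prod}

/-- the generators of the presented group -/
def fp (p : ℕ × List Wd) (i : ℕ) : PresentedGroup (relset p) :=
  if h : i < p.1 then PresentedGroup.of (⟨i, h⟩ : Fin p.1) else 1

/-- `v'` is obtained from `v` by insertion of a word of the list `R` -/
def Ins (R : List Wd) (v v' : Wd) : Prop :=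
  ∃ r ∈ R, ∃ k < v.length + 1, v' = v.take k ++ r ++ v.drop k

/-- trivial relators made of letters of `v` -/
def triv (n : ℕ) (v : Wd) : List Wd :=
  v.flatMap fun y => if n ≤ y.1 then [[y, (y.1, !y.2)], [y]] else [[y, (y.1, !y.2)]]

/-- one step of a derivation -/
def Stp (n : ℕ) (R : List Wd) (v v' : Wd) : Prop :=
  Ins (R ++ triv n v') v v' ∨ Ins (R ++ triv n v) v' v

/-- `d` is a derivation of the triviality of the word `w` -/
def Drv (n : ℕ) (R : List Wd) (w : Wd) (d : List Wd) : Prop :=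
  d.getD 0 [] = w ∧ d.getD (d.length - 1) [] = [] ∧
    ∀ k < d.length - 1, Stp n R (d.getD k []) (d.getD (k + 1) [])

/-- NC: the trivial words are the derivable ones -/
def S_NC : Prop := ∀ (p : ℕ × List Wd) (w : Wd), evw (fp p) w = 1 ↔ ∃ d, Drv p.1 p.2 w d

/-- the certificates -/
abbrev Ct := List Wd × List Wd × List (List (Wd × Bool)) × List Wd × ℕ × ℕ

/-- PCH: checking is primitive recursive -/
def S_PCH : Prop := PrimrecPred fun q : ℕ × Ct =>
  Check q.1 q.2.1 q.2.2.1 q.2.2.2.1 q.2.2.2.2.1 q.2.2.2.2.2.1 q.2.2.2.2.2.2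

/-- PDR: checking derivations is primitive recursive -/
def S_PDR : Prop := PrimrecPred fun q : (ℕ × List Wd) × Wd × List Wd =>
  Drv q.1.1 q.1.2 q.2.1 q.2.2

/-- EXRE: projections of primitive recursive relations are recursively enumerable -/
def S_EXRE : Prop := ∀ (α γ : Type) [Primcodable α] [Primcodable γ] (P : α × γ → Prop),
  PrimrecPred P → REPred fun a => ∃ c, P (a, c)

/-- the theorem -/
def S_FIN : Prop := REPred fun p : ℕ × List Wd =>
  derivedSeries (PresentedGroup (relset p)) 2 = ⊥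

end H114MB
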