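import Pool.Agent.H114.MB.Defs

set_option autoImplicit false

namespace H114MB

/-- EXRE: the projection of a primitive recursive relation is recursively enumerable -/
theorem t_EXRE : S_EXRE := by
  intro α γ _ _ P hP
  classical
  obtain ⟨hd, hp⟩ := hP
  let f : α → ℕ → Option γ := fun a n =>
    (Encodable.decode (α := γ) n).bind fun c => if P (a, c) then some c else none
  have hf : Primrec₂ f := by
    refine Primrec.option_bind (Primrec.decode.comp Primrec.snd) ?_
    have h1 : Primrec fun x : (α × ℕ) × γ => decide (P (x.1.1, x.2)) :=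
      hp.comp (Primrec.pair (Primrec.fst.comp Primrec.fst) Primrec.snd)
    have h2 : Primrec fun x : (α × ℕ) × γ => (cond (decide (P (x.1.1, x.2))) (some x.2) none) :=
      Primrec.cond h1 (Primrec.option_some.comp Primrec.snd) (Primrec.const none)
    refine h2.of_eq ?_
    rintro ⟨⟨a, n⟩, c⟩
    by_cases h : P (a, c) <;> simp [h]
  have h3 := (Partrec.rfindOpt hf.to_comp).dom_re
  refine h3.of_eq ?_
  intro a
  rw [Nat.rfindOpt_dom]
  constructor
  · rintro ⟨n, c, hc⟩
    simp only [f, Option.mem_def, Option.bind_eq_some_iff] at hc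
    obtain ⟨d, _, hd2⟩ := hc
    by_cases h : P (a, d)
    · exact ⟨d, h⟩
    · simp [h] at hd2
  · rintro ⟨c, hc⟩
    refine ⟨Encodable.encode c, c, ?_⟩
    simp [f, Encodable.encodek, hc]

end H114MB
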