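import Pool.Agent.H114.MB.Defs

set_option autoImplicit false

/-! Task FIN: final assembly (helper303). -/

namespace H114MB

theorem FIN_met (G : Type) [Group G] :
    derivedSeries G 2 = ⊥ ↔ ∀ x ∈ commutator G, ∀ y ∈ commutator G, x * y = y * x := by
  have h1 : derivedSeries G 2 = ⁅derivedSeries G 1, derivedSeries G 1⁆ := derivedSeries_succ G 1
  rw [h1, derivedSeries_one, Subgroup.commutator_eq_bot_iff_le_centralizer]
  constructor
  · intro h x hx y hy
    exact (Subgroup.mem_centralizer_iff.1 (h hx) y hy).symm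
  · intro h x hx
    rw [Subgroup.mem_centralizer_iff]
    intro y hy
    exact (h x hx y hy).symm

theorem FIN_big (p : ℕ × List Wd) (i : ℕ) (h : p.1 ≤ i) : fp p i = 1 := by
  unfold fp
  rw [dif_neg (by omega)]

theorem FIN_of (p : ℕ × List Wd) (i : Fin p.1) : fp p i = PresentedGroup.of i := by
  unfold fp
  rw [dif_pos i.2]

theorem FIN_closure (p : ℕ × List Wd) : Subgroup.closure (Set.range (fp p)) = ⊤ := by
  rw [eq_top_iff, ← PresentedGroup.closure_range_of (relset p)]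
  apply Subgroup.closure_mono
  rintro _ ⟨i, rfl⟩
  exact ⟨i, FIN_of p i⟩

theorem FIN_finite (p : ℕ × List Wd) : (relset p).Finite := by
  unfold relset
  have : {r : FreeGroup (Fin p.1) | ∃ w ∈ p.2,
    r = (w.map (fun x : ℕ × Bool =>
      if h : x.1 < p.1 then
        (if x.2 then FreeGroup.of (⟨x.1, h⟩ : Fin p.1)
         else (FreeGroup.of (⟨x.1, h⟩ : Fin p.1))⁻¹)
      else 1)).prod} = (fun w : Wd => (w.map (fun x : ℕ × Bool =>
      if h : x.1 < p.1 then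
        (if x.2 then FreeGroup.of (⟨x.1, h⟩ : Fin p.1)
         else (FreeGroup.of (⟨x.1, h⟩ : Fin p.1))⁻¹)
      else 1)).prod) '' {w | w ∈ p.2} := by
    ext r
    simp only [Set.mem_setOf_eq, Set.mem_image]
    constructor
    · rintro ⟨w, hw, h⟩; exact ⟨w, hw, h.symm⟩
    · rintro ⟨w, hw, h⟩; exact ⟨w, hw, h.symm⟩
  rw [this]
  exact (List.finite_toSet p.2).image _

theorem FIN_ker (p : ℕ × List Wd) :
    (FreeGroup.lift fun i : Fin p.1 => fp p i).ker = Subgroup.normalClosure (relset p) := by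
  have h1 : (FreeGroup.lift fun i : Fin p.1 => fp p i) = PresentedGroup.mk (relset p) := by
    apply FreeGroup.ext_hom
    intro i
    rw [FreeGroup.lift_apply_of, FIN_of]
    rfl
  rw [h1]
  exact QuotientGroup.ker_mk' _

/-- the decidable relation -/
def FIN_P (q : (ℕ × List Wd) × (Ct × List (List Wd))) : Prop :=
  Check q.1.1 q.2.1.1 q.2.1.2.1 q.2.1.2.2.1 q.2.1.2.2.2.1 q.2.1.2.2.2.2.1 q.2.1.2.2.2.2.2 ∧
    ∀ w ∈ q.2.1.1, ∃ d ∈ q.2.2, Drv q.1.1 q.1.2 w d

theorem FIN_prim (h4 : S_PCH) (h5 : S_PDR) : PrimrecPred FIN_P := by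
  have a1 : PrimrecPred fun q : (ℕ × List Wd) × (Ct × List (List Wd)) =>
      Check q.1.1 q.2.1.1 q.2.1.2.1 q.2.1.2.2.1 q.2.1.2.2.2.1 q.2.1.2.2.2.2.1 q.2.1.2.2.2.2.2 :=
    PrimrecPred.comp h4 (f := fun q : (ℕ × List Wd) × (Ct × List (List Wd)) => (q.1.1, q.2.1))
      (Primrec.pair (Primrec.fst.comp Primrec.fst) (Primrec.fst.comp Primrec.snd))
  have b1 : PrimrecRel fun (d : List Wd) (b : (ℕ × List Wd) × Wd) => Drv b.1.1 b.1.2 b.2 d :=
    PrimrecPred.comp h5 (f := fun x : List Wd × ((ℕ × List Wd) × Wd) => (x.2.1, x.2.2, x.1))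
      (Primrec.pair (Primrec.fst.comp Primrec.snd)
        (Primrec.pair (Primrec.snd.comp Primrec.snd) Primrec.fst))
  have b2 := b1.exists_mem_list
  have b3 : PrimrecRel fun (w : Wd) (c : (ℕ × List Wd) × List (List Wd)) =>
      ∃ d ∈ c.2, Drv c.1.1 c.1.2 w d :=
    PrimrecRel.comp b2 (f := fun x : Wd × ((ℕ × List Wd) × List (List Wd)) => x.2.2)
      (g := fun x : Wd × ((ℕ × List Wd) × List (List Wd)) => (x.2.1, x.1))
      (Primrec.snd.comp Primrec.snd) (Primrec.pair (Primrec.fst.comp Primrec.snd) Primrec.fst)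
  have b4 := b3.forall_mem_list
  have a2 : PrimrecPred fun q : (ℕ × List Wd) × (Ct × List (List Wd)) =>
      ∀ w ∈ q.2.1.1, ∃ d ∈ q.2.2, Drv q.1.1 q.1.2 w d :=
    PrimrecRel.comp b4 (f := fun q : (ℕ × List Wd) × (Ct × List (List Wd)) => q.2.1.1)
      (g := fun q : (ℕ × List Wd) × (Ct × List (List Wd)) => (q.1, q.2.2))
      (Primrec.fst.comp (Primrec.fst.comp Primrec.snd))
      (Primrec.pair Primrec.fst (Primrec.snd.comp Primrec.snd))
  exact a1.and a2

theorem t_FIN (h1 : S_SNDW) (h2 : S_CMPW) (h3 : S_NC) (h4 : S_PCH) (h5 : S_PDR) (h6 : S_EXRE) :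
    S_FIN := by
  classical
  have key := h6 (ℕ × List Wd) (Ct × List (List Wd)) FIN_P (FIN_prim h4 h5)
  refine key.of_eq ?_
  intro p
  rw [FIN_met]
  constructor
  · rintro ⟨⟨c, D⟩, hc, hD⟩
    refine h1 p.1 c.1 c.2.1 c.2.2.1 c.2.2.2.1 c.2.2.2.2.1 c.2.2.2.2.2 hc (PresentedGroup (relset p))
      (fp p) (FIN_big p) (FIN_closure p) ?_
    intro w hw
    obtain ⟨d, -, hd⟩ := hD w hw
    exact (h3 p w).2 ⟨d, hd⟩
  · intro hmet
    obtain ⟨T, K, Λ, A, N, U, hC, hT⟩ := h2 (PresentedGroup (relset p)) p.1 (fp p) (relset p)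
      (FIN_big p) (FIN_finite p) (FIN_ker p) (FIN_closure p) hmet
    have h7 : ∀ w : Wd, ∃ d : List Wd, evw (fp p) w = 1 → Drv p.1 p.2 w d := by
      intro w
      by_cases h : evw (fp p) w = 1
      · obtain ⟨d, hd⟩ := (h3 p w).1 h
        exact ⟨d, fun _ => hd⟩
      · exact ⟨[], fun h' => absurd h' h⟩
    choose dd hdd using h7
    exact ⟨((T, K, Λ, A, N, U), T.map dd), hC, fun w hw =>
      ⟨dd w, List.mem_map_of_mem hw, hdd w (hT w hw)⟩⟩

end H114MB
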