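import Pool.Agent.H114.MB.Defs

set_option autoImplicit false

namespace H114MB

open scoped BigOperators

private theorem GEO_sq {n : ℕ} (x : Vec n) (U : ℤ) (h : ∑ i, |x i| ≤ U) : ip x x ≤ U ^ 2 := by
  have h0 : 0 ≤ ∑ i, |x i| := Finset.sum_nonneg fun i _ => abs_nonneg _
  have h1 : ip x x ≤ ∑ i, |x i| * ∑ j, |x j| := by
    unfold ip
    refine Finset.sum_le_sum fun i _ => ?_
    have h2 : |x i| ≤ ∑ j, |x j| :=
      Finset.single_le_sum (f := fun j => |x j|) (fun j _ => abs_nonneg _) (Finset.mem_univ i)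
    calc x i * x i = |x i| * |x i| := (abs_mul_abs_self _).symm
      _ ≤ _ := mul_le_mul_of_nonneg_left h2 (abs_nonneg _)
  rw [← Finset.sum_mul] at h1
  nlinarith

private theorem GEO_box {n : ℕ} (x e p : Vec n) (hp : Box e p) :
    ip (p + x) (p + x) ≤ ip e e + 2 * ip x e + 2 * ip x x := by
  unfold ip
  rw [Finset.mul_sum, Finset.mul_sum, ← Finset.sum_add_distrib, ← Finset.sum_add_distrib]
  refine Finset.sum_le_sum fun i _ => ?_
  have h1 : 0 ≤ p i * (e i - p i) := by
    rcases hp i with h | h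
    · exact mul_nonneg h.1 (by linarith [h.2])
    · exact mul_nonneg_of_nonpos_of_nonpos h.2 (by linarith [h.1])
  simp only [Pi.add_apply]
  nlinarith [sq_nonneg (e i - p i + x i)]

theorem t_GEO : S_GEO := by
  intro n N U Λ hN hU hΛ hdir e' hs
  -- a largest coordinate
  have hn : 0 < n := by
    rcases Nat.eq_zero_or_pos n with h | h
    · subst h
      exfalso
      simp [ip] at hs
    · exact h
  haveI : Nonempty (Fin n) := ⟨⟨0, hn⟩⟩
  obtain ⟨i0, -, hi0⟩ := Finset.exists_max_image (Finset.univ : Finset (Fin n)) (fun i => |e' i|)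
    Finset.univ_nonempty
  set m : ℤ := |e' i0| with hm
  have hm0 : 0 ≤ m := abs_nonneg _
  have hmax : ∀ i, |e' i| ≤ m := fun i => hi0 i (Finset.mem_univ i)
  have hNz : (1 : ℤ) ≤ N := by exact_mod_cast hN
  have hUz : (1 : ℤ) ≤ U := by exact_mod_cast hU
  have hnz : (1 : ℤ) ≤ n := by exact_mod_cast hn
  have hsum : ip e' e' ≤ n * m ^ 2 := by
    have h1 : ip e' e' ≤ ∑ _i : Fin n, m ^ 2 := by
      unfold ip
      refine Finset.sum_le_sum fun i _ => ?_
      have h2 := hmax i
      have h3 : e' i * e' i = |e' i| * |e' i| := (abs_mul_abs_self _).symm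
      rw [h3]
      nlinarith [abs_nonneg (e' i)]
    rwa [Finset.sum_const, Finset.card_univ, Fintype.card_fin, nsmul_eq_mul] at h1
  have hmN : (N : ℤ) * (U : ℤ) ^ 2 < m := by
    by_contra hcon
    push Not at hcon
    have h1 : m ^ 2 ≤ ((N : ℤ) * (U : ℤ) ^ 2) ^ 2 := by nlinarith
    have h2 : (n : ℤ) * m ^ 2 ≤ (n : ℤ) * ((N : ℤ) * (U : ℤ) ^ 2) ^ 2 :=
      mul_le_mul_of_nonneg_left h1 (by linarith)
    linarith
  have hmpos : 0 < m := by
    have : 0 ≤ (N : ℤ) * (U : ℤ) ^ 2 := by positivity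
    linarith
  -- the direction
  set e : Vec n := fun i => ((N : ℤ) * e' i) / m with he
  have hr : ∀ i, 0 ≤ (N : ℤ) * e' i - m * e i ∧ (N : ℤ) * e' i - m * e i < m := by
    intro i
    have h1 := Int.emod_add_mul_ediv ((N : ℤ) * e' i) m
    have h2 := Int.emod_nonneg ((N : ℤ) * e' i) hmpos.ne'
    have h3 := Int.emod_lt_of_pos ((N : ℤ) * e' i) hmpos
    simp only [he]
    constructor <;> linarith
  have heN : ∀ i, |e i| ≤ (N : ℤ) := by
    intro i
    have h1 := abs_le.1 (hmax i)
    rw [abs_le]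
    simp only [he]
    constructor
    · rw [Int.le_ediv_iff_mul_le hmpos]
      nlinarith
    · have : (N : ℤ) * e' i / m ≤ (N * m) / m := Int.ediv_le_ediv hmpos (by nlinarith)
      rwa [Int.mul_ediv_cancel _ hmpos.ne'] at this
  have hei0 : |e i0| = (N : ℤ) := by
    simp only [he]
    rcases abs_choice (e' i0) with h | h
    · have h1 : e' i0 = m := by rw [hm]; exact h.symm
      rw [h1, Int.mul_ediv_cancel _ hmpos.ne', abs_of_nonneg (by linarith)]
    · have h1 : e' i0 = -m := by rw [hm, h, neg_neg]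
      rw [h1, mul_neg, ← neg_mul, Int.mul_ediv_cancel _ hmpos.ne', abs_neg,
        abs_of_nonneg (by linarith)]
  -- comparison of the inner products
  have hcmp : ∀ x : Vec n, ∑ i, |x i| ≤ (U : ℤ) →
      (N : ℤ) * ip x e' ≤ m * ip x e + m * U ∧ m * ip x e - m * U ≤ (N : ℤ) * ip x e' := by
    intro x hx
    have h1 : (N : ℤ) * ip x e' = m * ip x e + ∑ i, x i * ((N : ℤ) * e' i - m * e i) := by
      unfold ip
      rw [Finset.mul_sum, Finset.mul_sum, ← Finset.sum_add_distrib]
      refine Finset.sum_congr rfl fun i _ => ?_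
      ring
    have h2 : |∑ i, x i * ((N : ℤ) * e' i - m * e i)| ≤ m * U := by
      refine (Finset.abs_sum_le_sum_abs _ _).trans ?_
      have h3 : ∑ i, |x i * ((N : ℤ) * e' i - m * e i)| ≤ ∑ i, |x i| * m := by
        refine Finset.sum_le_sum fun i _ => ?_
        rw [abs_mul]
        refine mul_le_mul_of_nonneg_left ?_ (abs_nonneg _)
        rw [abs_of_nonneg (hr i).1]
        exact (hr i).2.le
      rw [← Finset.sum_mul] at h3
      nlinarith
    have h4 := abs_le.1 h2
    constructor <;> linarith [h4.1, h4.2]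
  obtain ⟨l, hl, hor⟩ := hdir e heN ⟨i0, hei0⟩
  refine ⟨l, hl, ?_⟩
  rcases hor with h | h
  · right
    intro x hx p hp
    have h1 := (hcmp x.1 (hΛ l hl x hx)).2
    have h2 := h x hx
    have h3 : m ≤ (N : ℤ) * ip x.1 e' := by nlinarith
    have h4 := GEO_sq x.1 U (hΛ l hl x hx)
    have h5 := GEO_box (-x.1) e' p hp
    have e1 : ip (x.1 - p) (x.1 - p) = ip (p + -x.1) (p + -x.1) := by
      unfold ip
      refine Finset.sum_congr rfl fun i _ => ?_
      simp only [Pi.sub_apply, Pi.add_apply, Pi.neg_apply]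
      ring
    have e2 : ip (-x.1) e' = - ip x.1 e' := by
      unfold ip
      rw [← Finset.sum_neg_distrib]
      refine Finset.sum_congr rfl fun i _ => ?_
      simp only [Pi.neg_apply]
      ring
    have e3 : ip (-x.1) (-x.1) = ip x.1 x.1 := by
      unfold ip
      refine Finset.sum_congr rfl fun i _ => ?_
      simp only [Pi.neg_apply]
      ring
    rw [e2, e3] at h5
    rw [e1]
    have h6 : (U : ℤ) ^ 2 < ip x.1 e' := by
      by_contra hcon
      push Not at hcon
      have : (N : ℤ) * ip x.1 e' ≤ N * (U : ℤ) ^ 2 := mul_le_mul_of_nonneg_left hcon (by linarith)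
      linarith
    linarith
  · left
    intro x hx p hp
    have h1 := (hcmp x.1 (hΛ l hl x hx)).1
    have h2 := h x hx
    have h3 : (N : ℤ) * ip x.1 e' ≤ -m := by nlinarith
    have h4 := GEO_sq x.1 U (hΛ l hl x hx)
    have h5 := GEO_box x.1 e' p hp
    have h6 : ip x.1 e' < -(U : ℤ) ^ 2 := by
      by_contra hcon
      push Not at hcon
      have : (N : ℤ) * (-(U : ℤ) ^ 2) ≤ N * ip x.1 e' := mul_le_mul_of_nonneg_left hcon (by linarith)
      linarith
    linarith

end H114MB
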