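import Pool.Agent.H114.MB.Defs

/-! Task HALF (helper955): finite generation over the half space. -/

set_option autoImplicit false

namespace H114MB

namespace HALFx

open scoped commutatorElement

section

variable {G : Type} [Group G] (X : G →* Multiplicative ℝ)

theorem ht_mul (x y : G) : ht X (x * y) = ht X x + ht X y := by
  unfold ht
  rw [map_mul, toAdd_mul]

theorem ht_one : ht X 1 = 0 := by
  unfold ht
  rw [map_one, toAdd_one]

theorem ht_inv (x : G) : ht X x⁻¹ = -ht X x := by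
  unfold ht
  rw [map_inv, toAdd_inv]

theorem ht_pow (x : G) (k : ℕ) : ht X (x ^ k) = k * ht X x := by
  induction k with
  | zero => simp [ht_one]
  | succ k ih =>
    rw [pow_succ, ht_mul, ih]
    push_cast
    ring

/-- conjugates of the elements of `E` with conjugators of height at least `h` -/
def SS (E : Finset G) (h : ℝ) : Set G := {y | ∃ x : G, ∃ e ∈ E, h ≤ ht X x ∧ y = x * e * x⁻¹}

theorem mem_SS {E : Finset G} {h : ℝ} {x e : G} (he : e ∈ E) (hx : h ≤ ht X x) :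
    x * e * x⁻¹ ∈ Subgroup.closure (SS X E h) :=
  Subgroup.subset_closure ⟨x, e, he, hx, rfl⟩

theorem SS_mono {E : Finset G} {h h' : ℝ} (hh : h ≤ h') :
    Subgroup.closure (SS X E h') ≤ Subgroup.closure (SS X E h) := by
  apply Subgroup.closure_mono
  rintro y ⟨x, e, he, hx, rfl⟩
  exact ⟨x, e, he, hh.trans hx, rfl⟩

theorem conj_SS {E : Finset G} {h : ℝ} {a : G} (ha : a ∈ Subgroup.closure (SS X E h)) (z : G) :
    z * a * z⁻¹ ∈ Subgroup.closure (SS X E (h + ht X z)) := by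
  induction ha using Subgroup.closure_induction with
  | mem a ha =>
    obtain ⟨x, e, he, hx, rfl⟩ := ha
    have h1 : z * (x * e * x⁻¹) * z⁻¹ = (z * x) * e * (z * x)⁻¹ := by group
    rw [h1]
    exact mem_SS X he (by rw [ht_mul]; linarith)
  | one => simp
  | mul a b _ _ iha ihb =>
    have h1 : z * (a * b) * z⁻¹ = (z * a * z⁻¹) * (z * b * z⁻¹) := by group
    rw [h1]
    exact mul_mem iha ihb
  | inv a _ iha =>
    have h1 : z * a⁻¹ * z⁻¹ = (z * a * z⁻¹)⁻¹ := by group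
    rw [h1]
    exact inv_mem iha

theorem comm_le {n : ℕ} (g : Fin n → G) (hg : Subgroup.closure (Set.range g) = ⊤)
    (N : Subgroup G) [N.Normal] (h : ∀ i j, ⁅g i, g j⁆ ∈ N) : commutator G ≤ N := by
  have h1 : ∀ i j, Commute (QuotientGroup.mk' N (g i)) (QuotientGroup.mk' N (g j)) := by
    intro i j
    rw [← commutatorElement_eq_one_iff_commute, ← map_commutatorElement]
    exact (QuotientGroup.eq_one_iff _).2 (h i j)
  have h2 : ∀ (x : G) (j : Fin n),
      Commute (QuotientGroup.mk' N x) (QuotientGroup.mk' N (g j)) := by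
    intro x j
    have hx : x ∈ Subgroup.closure (Set.range g) := by rw [hg]; trivial
    induction hx using Subgroup.closure_induction with
    | mem x hx =>
      obtain ⟨i, rfl⟩ := hx
      exact h1 i j
    | one => rw [map_one]; exact Commute.one_left _
    | mul a b _ _ iha ihb => rw [map_mul]; exact iha.mul_left ihb
    | inv a _ iha => rw [map_inv]; exact iha.inv_left
  have h3 : ∀ x y : G, Commute (QuotientGroup.mk' N x) (QuotientGroup.mk' N y) := by
    intro x y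
    have hy : y ∈ Subgroup.closure (Set.range g) := by rw [hg]; trivial
    induction hy using Subgroup.closure_induction with
    | mem y hy =>
      obtain ⟨i, rfl⟩ := hy
      exact h2 x i
    | one => rw [map_one]; exact Commute.one_right _
    | mul a b _ _ iha ihb => rw [map_mul]; exact iha.mul_right ihb
    | inv a _ iha => rw [map_inv]; exact iha.inv_right
  rw [commutator_def, Subgroup.commutator_le]
  intro x _ y _
  have h4 := h3 x y
  rw [← commutatorElement_eq_one_iff_commute, ← map_commutatorElement] at h4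
  exact (QuotientGroup.eq_one_iff _).1 h4

theorem large {E : Finset G} {E0 : Set G} (hE : ∀ e ∈ E0, e ∈ E) {t : G} (ht0 : 0 < ht X t)
    {a : G} (ha : a ∈ Subgroup.normalClosure E0) :
    ∃ k0 : ℕ, ∀ k ≥ k0, t ^ k * a * (t ^ k)⁻¹ ∈ Subgroup.closure (SS X E 0) := by
  have ha' : a ∈ Subgroup.closure (Group.conjugatesOfSet E0) := ha
  induction ha' using Subgroup.closure_induction with
  | mem a ha1 =>
    rw [Group.mem_conjugatesOfSet_iff] at ha1
    obtain ⟨e, he, hc⟩ := ha1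
    obtain ⟨c, rfl⟩ := isConj_iff.1 hc
    obtain ⟨k0, hk0⟩ := exists_nat_ge (-(ht X c) / ht X t)
    refine ⟨k0, fun k hk => ?_⟩
    have h1 : t ^ k * (c * e * c⁻¹) * (t ^ k)⁻¹ = (t ^ k * c) * e * (t ^ k * c)⁻¹ := by group
    rw [h1]
    refine mem_SS X (hE e he) ?_
    rw [ht_mul, ht_pow]
    have h2 : -(ht X c) / ht X t ≤ k := hk0.trans (by exact_mod_cast hk)
    rw [div_le_iff₀ ht0] at h2
    linarith
  | one => exact ⟨0, fun k _ => by simp⟩
  | mul a b h1 h2 iha ihb =>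
    obtain ⟨k1, hk1⟩ := iha h1
    obtain ⟨k2, hk2⟩ := ihb h2
    refine ⟨max k1 k2, fun k hk => ?_⟩
    have h3 : t ^ k * (a * b) * (t ^ k)⁻¹ = (t ^ k * a * (t ^ k)⁻¹) * (t ^ k * b * (t ^ k)⁻¹) := by
      group
    rw [h3]
    exact mul_mem (hk1 k (le_trans (le_max_left _ _) hk)) (hk2 k (le_trans (le_max_right _ _) hk))
  | inv a h1 iha =>
    obtain ⟨k1, hk1⟩ := iha h1
    refine ⟨k1, fun k hk => ?_⟩
    have h3 : t ^ k * a⁻¹ * (t ^ k)⁻¹ = (t ^ k * a * (t ^ k)⁻¹)⁻¹ := by group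
    rw [h3]
    exact inv_mem (hk1 k hk)

theorem inner {E : Finset G} {t : G} (ht0 : 0 < ht X t) {D : ℝ} {W Y : G}
    (hW : -D ≤ ht X W) (hY : Y * t * Y⁻¹ * t⁻¹ ∈ E) (k : ℕ) :
    W * (Y * t ^ k * Y⁻¹ * (t ^ k)⁻¹) * W⁻¹ ∈ Subgroup.closure (SS X E (-D)) := by
  induction k with
  | zero => simp
  | succ k ih =>
    have h1 : W * (Y * t ^ (k + 1) * Y⁻¹ * (t ^ (k + 1))⁻¹) * W⁻¹ =
        (W * (Y * t ^ k * Y⁻¹ * (t ^ k)⁻¹) * W⁻¹) *
          ((W * t ^ k) * (Y * t * Y⁻¹ * t⁻¹) * (W * t ^ k)⁻¹) := by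
      rw [pow_succ]
      group
    rw [h1]
    refine mul_mem ih (mem_SS X hY ?_)
    rw [ht_mul, ht_pow]
    have : 0 ≤ (k : ℝ) * ht X t := by positivity
    linarith

theorem words {E : Finset G} {t : G} (ht0 : 0 < ht X t) {D : ℝ} {n : ℕ} (g : Fin n → G)
    (hE : ∀ y : Fin n × Bool, pw (g y.1) y.2 * t * (pw (g y.1) y.2)⁻¹ * t⁻¹ ∈ E) (k : ℕ)
    (w : List (Fin n × Bool)) (hw : ∀ p, p <+: w → -D ≤ ht X (ev g p)) :
    ev g w * t ^ k * (ev g w)⁻¹ * (t ^ k)⁻¹ ∈ Subgroup.closure (SS X E (-D)) := by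
  induction w using List.reverseRecOn with
  | nil => simp [ev]
  | append_singleton w y ih =>
    have h1 : ev g (w ++ [y]) = ev g w * pw (g y.1) y.2 := by simp [ev]
    have h2 : ev g (w ++ [y]) * t ^ k * (ev g (w ++ [y]))⁻¹ * (t ^ k)⁻¹ =
        (ev g w * (pw (g y.1) y.2 * t ^ k * (pw (g y.1) y.2)⁻¹ * (t ^ k)⁻¹) * (ev g w)⁻¹) *
          (ev g w * t ^ k * (ev g w)⁻¹ * (t ^ k)⁻¹) := by
      rw [h1]
      group
    rw [h2]
    refine mul_mem (inner X ht0 (hw w (List.prefix_append _ _)) (hE y) k) ?_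
    exact ih fun p hp => hw p (hp.trans (List.prefix_append _ _))

theorem exists_t (h : ∃ x, ht X x ≠ 0) : ∃ t : G, 0 < ht X t := by
  obtain ⟨x, hx⟩ := h
  rcases lt_or_gt_of_ne hx with h1 | h1
  · exact ⟨x⁻¹, by rw [ht_inv]; linarith⟩
  · exact ⟨x, h1⟩

end

end HALFx

open HALFx in
open scoped commutatorElement in
theorem t_HALF : S_HALF := by
  classical
  intro G _ n g hg _ X C hX hC
  obtain ⟨t, ht0⟩ := exists_t X hX
  set E0 : Finset G := Finset.univ.image (fun p : Fin n × Fin n => ⁅g p.1, g p.2⁆) with hE0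
  set E1 : Finset G := Finset.univ.image (fun p : Fin n × Bool =>
    pw (g p.1) p.2 * t * (pw (g p.1) p.2)⁻¹ * t⁻¹) with hE1
  have hcm : ∀ x y : G, ⁅x, y⁆ ∈ commutator G := by
    intro x y
    rw [commutator_def]
    exact Subgroup.commutator_mem_commutator (Subgroup.mem_top _) (Subgroup.mem_top _)
  refine ⟨E0 ∪ E1, ?_, ?_⟩
  · intro e he
    rw [Finset.mem_union] at he
    rcases he with he | he
    · rw [hE0, Finset.mem_image] at he
      obtain ⟨p, -, rfl⟩ := he
      exact hcm _ _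
    · rw [hE1, Finset.mem_image] at he
      obtain ⟨p, -, rfl⟩ := he
      exact hcm _ _
  have hN : commutator G ≤ Subgroup.normalClosure (E0 : Set G) := by
    refine comm_le g hg _ fun i j => Subgroup.subset_normalClosure ?_
    rw [Finset.mem_coe, hE0, Finset.mem_image]
    exact ⟨(i, j), Finset.mem_univ _, rfl⟩
  have hE1' : ∀ y : Fin n × Bool,
      pw (g y.1) y.2 * t * (pw (g y.1) y.2)⁻¹ * t⁻¹ ∈ E0 ∪ E1 := by
    intro y
    rw [Finset.mem_union]
    right
    rw [hE1, Finset.mem_image]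
    exact ⟨y, Finset.mem_univ _, rfl⟩
  have key : ∀ a ∈ commutator G, a ∈ Subgroup.closure (SS X (E0 ∪ E1) (-|C|)) := by
    intro a ha
    obtain ⟨k, hk⟩ := large X (E := E0 ∪ E1) (E0 := (E0 : Set G))
      (fun e he => Finset.mem_union_left _ (Finset.mem_coe.1 he)) ht0 (hN ha)
    obtain ⟨w, hw, hp⟩ := hC a ha
    have h1 := words X ht0 (D := |C|) g hE1' k w
      (fun p hpw => le_trans (neg_le_neg (le_abs_self C)) (hp p hpw))
    rw [hw] at h1
    have h2 : t ^ k * a * (t ^ k)⁻¹ ∈ Subgroup.closure (SS X (E0 ∪ E1) (-|C|)) :=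
      SS_mono X (neg_nonpos.2 (abs_nonneg C)) (hk k le_rfl)
    have h3 : a = (a * t ^ k * a⁻¹ * (t ^ k)⁻¹) * (t ^ k * a * (t ^ k)⁻¹) := by group
    rw [h3]
    exact mul_mem h1 h2
  intro a ha
  obtain ⟨k0, hk0⟩ := exists_nat_ge (|C| / ht X t)
  have h1 : (t ^ k0)⁻¹ * a * ((t ^ k0)⁻¹)⁻¹ ∈ commutator G :=
    (inferInstance : (commutator G).Normal).conj_mem a ha _
  have h2 := conj_SS X (key _ h1) (t ^ k0)
  have h3 : t ^ k0 * ((t ^ k0)⁻¹ * a * ((t ^ k0)⁻¹)⁻¹) * (t ^ k0)⁻¹ = a := by group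
  rw [h3] at h2
  have h4 : (0 : ℝ) ≤ -|C| + ht X (t ^ k0) := by
    rw [ht_pow]
    rw [div_le_iff₀ ht0] at hk0
    linarith
  exact SS_mono X h4 h2

end H114MB
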