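import Pool.Agent.H114.MB.Defs

/-! # NAK: Nakayama's lemma gives a centralizer supported in the open half space -/

set_option autoImplicit false
set_option linter.deprecated false
set_option linter.style.haveILetI false

namespace H114MB

namespace NAKaux

variable {G A : Type} [Group G] [AddCommGroup A]

/-- signed value -/
def sv (φ : G →* AddMonoid.End A) (x : G × Bool) (a : A) : A :=
  if x.2 then φ x.1 a else -(φ x.1 a)

/-- the endomorphisms of nonnegative height -/
def M (φ : G →* AddMonoid.End A) (h : G → ℝ) (h1 : h 1 = 0) (hm : ∀ x y, h (x * y) = h x + h y) :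
    Submonoid (AddMonoid.End A) where
  carrier := {f | ∃ x, 0 ≤ h x ∧ f = φ x}
  mul_mem' := by
    rintro _ _ ⟨x, hx, rfl⟩ ⟨y, hy, rfl⟩
    exact ⟨x * y, by rw [hm]; positivity, by rw [map_mul]⟩
  one_mem' := ⟨1, by rw [h1], by rw [map_one]⟩

/-- the additive group spanned by the elements of positive height -/
def J (φ : G →* AddMonoid.End A) (h : G → ℝ) : AddSubgroup (AddMonoid.End A) :=
  AddSubgroup.closure {f | ∃ x, 0 < h x ∧ f = φ x}

theorem mul_J (φ : G →* AddMonoid.End A) (h : G → ℝ) (h1 : h 1 = 0)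
    (hm : ∀ x y, h (x * y) = h x + h y) {s : AddMonoid.End A}
    (hs : s ∈ AddSubgroup.closure (M φ h h1 hm : Set (AddMonoid.End A))) {f : AddMonoid.End A}
    (hf : f ∈ J φ h) : s * f ∈ J φ h := by
  induction hs using AddSubgroup.closure_induction with
  | mem s hs =>
    obtain ⟨x, hx, rfl⟩ := hs
    unfold J at hf
    induction hf using AddSubgroup.closure_induction with
    | mem f hf =>
      obtain ⟨y, hy, rfl⟩ := hf
      exact AddSubgroup.subset_closure ⟨x * y, by rw [hm]; linarith, by rw [map_mul]⟩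
    | zero => rw [mul_zero]; exact (J φ h).zero_mem
    | add f f' _ _ i1 i2 => rw [mul_add]; exact (J φ h).add_mem i1 i2
    | neg f _ i1 => rw [mul_neg]; exact (J φ h).neg_mem i1
  | zero => rw [zero_mul]; exact (J φ h).zero_mem
  | add f f' _ _ i1 i2 => rw [add_mul]; exact (J φ h).add_mem i1 i2
  | neg f _ i1 => rw [neg_mul]; exact (J φ h).neg_mem i1

theorem J_list (φ : G →* AddMonoid.End A) (h : G → ℝ) {f : AddMonoid.End A} (hf : f ∈ J φ h) :
    ∃ l : List (G × Bool), (∀ x ∈ l, 0 < h x.1) ∧ ∀ a, f a = (l.map fun x => sv φ x a).sum := by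
  unfold J at hf
  induction hf using AddSubgroup.closure_induction with
  | mem f hf =>
    obtain ⟨x, hx, rfl⟩ := hf
    exact ⟨[(x, true)], by simpa using hx, fun a => by simp [sv]⟩
  | zero => exact ⟨[], by simp, fun a => by simp⟩
  | add f f' _ _ i1 i2 =>
    obtain ⟨l1, p1, q1⟩ := i1
    obtain ⟨l2, p2, q2⟩ := i2
    refine ⟨l1 ++ l2, ?_, fun a => ?_⟩
    · intro x hx
      rcases List.mem_append.1 hx with hx | hx
      · exact p1 x hx
      · exact p2 x hx
    · have e : (f + f') a = f a + f' a := rfl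
      rw [e, q1, q2, List.map_append, List.sum_append]
  | neg f _ i1 =>
    obtain ⟨l1, p1, q1⟩ := i1
    refine ⟨l1.map fun x => (x.1, !x.2), ?_, fun a => ?_⟩
    · intro x hx
      obtain ⟨y, hy, rfl⟩ := List.mem_map.1 hx
      exact p1 y hy
    · have e : (-f) a = -(f a) := rfl
      rw [e, q1, List.map_map]
      clear q1 p1
      induction l1 with
      | nil => simp
      | cons x l ih =>
        rw [List.map_cons, List.map_cons, List.sum_cons, List.sum_cons, neg_add, ih]
        congr 1
        simp only [sv, Function.comp]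
        cases x.2 <;> simp

/-- Nakayama's lemma, abstract form -/
theorem nak {R M : Type} [CommRing R] [AddCommGroup M] [Module R M] (I : Ideal R)
    (hfg : (⊤ : Submodule R M).FG) (hI : ∀ a : M, ∃ r ∈ I, ∃ b : M, a = r • b) :
    ∃ r ∈ I, ∀ a : M, a = r • a := by
  obtain ⟨r, hr, h⟩ := Submodule.exists_sub_one_mem_and_smul_eq_zero_of_fg_of_le_smul I ⊤ hfg
    (by
      intro a _
      obtain ⟨r, hr, b, rfl⟩ := hI a
      exact Submodule.smul_mem_smul hr trivial)
  refine ⟨1 - r, ?_, fun a => ?_⟩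
  · rw [← neg_sub]; exact I.neg_mem hr
  · rw [sub_smul, one_smul, h a trivial, sub_zero]

theorem main (φ : G →* AddMonoid.End A) (hφ : ∀ x y, φ x * φ y = φ y * φ x) (h : G → ℝ)
    (h1 : h 1 = 0) (hm : ∀ x y, h (x * y) = h x + h y) (hne : ∃ x, h x ≠ 0) (E : Finset A)
    (hE : ∀ a : A, a ∈ AddSubgroup.closure {y | ∃ x : G, ∃ e ∈ E, 0 ≤ h x ∧ y = φ x e}) :
    ∃ l : List (G × Bool), (∀ x ∈ l, 0 < h x.1) ∧ ∀ a, a = (l.map fun x => sv φ x a).sum := by
  have hcomm : ∀ x ∈ (M φ h h1 hm : Set (AddMonoid.End A)),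
      ∀ y ∈ (M φ h h1 hm : Set (AddMonoid.End A)), x * y = y * x := by
    rintro _ ⟨x, _, rfl⟩ _ ⟨y, _, rfl⟩
    exact hφ x y
  letI : CommRing (Subring.closure (M φ h h1 hm : Set (AddMonoid.End A))) :=
    Subring.closureCommRingOfComm hcomm
  have hmem : ∀ x, 0 ≤ h x → φ x ∈ Subring.closure (M φ h h1 hm : Set (AddMonoid.End A)) :=
    fun x hx => Subring.subset_closure ⟨x, hx, rfl⟩
  have hcl : ∀ s ∈ Subring.closure (M φ h h1 hm : Set (AddMonoid.End A)),
      s ∈ AddSubgroup.closure (M φ h h1 hm : Set (AddMonoid.End A)) := by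
    intro s hs
    rw [Subring.mem_closure_iff, Submonoid.closure_eq] at hs
    exact hs
  obtain ⟨x0, hx0⟩ : ∃ x, 0 < h x := by
    obtain ⟨x, hx⟩ := hne
    rcases lt_or_gt_of_ne hx with hx | hx
    · refine ⟨x⁻¹, ?_⟩
      have := hm x x⁻¹
      rw [mul_inv_cancel, h1] at this
      linarith
    · exact ⟨x, hx⟩
  obtain ⟨r, hr, hra⟩ := nak (R := Subring.closure (M φ h h1 hm : Set (AddMonoid.End A)))
    (M := A) (Ideal.span {r | ∃ x, 0 < h x ∧ (r : AddMonoid.End A) = φ x}) (by
      refine ⟨E, ?_⟩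
      rw [eq_top_iff]
      intro a _
      have ha := hE a
      induction ha using AddSubgroup.closure_induction with
      | mem y hy =>
        obtain ⟨x, e, he, hx, rfl⟩ := hy
        exact Submodule.smul_mem _ (⟨φ x, hmem x hx⟩ :
          Subring.closure (M φ h h1 hm : Set (AddMonoid.End A))) (Submodule.subset_span he)
      | zero => exact Submodule.zero_mem _
      | add a b _ _ i1 i2 => exact Submodule.add_mem _ (i1 trivial) (i2 trivial)
      | neg a _ i1 => exact Submodule.neg_mem _ (i1 trivial)) (by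
      intro a
      refine ⟨⟨φ x0, hmem x0 hx0.le⟩, Ideal.subset_span ⟨x0, hx0, rfl⟩, φ x0⁻¹ a, ?_⟩
      show a = φ x0 (φ x0⁻¹ a)
      have : (φ x0 * φ x0⁻¹) a = a := by rw [← map_mul, mul_inv_cancel, map_one]; rfl
      exact this.symm)
  have hrJ : (r : AddMonoid.End A) ∈ J φ h := by
    clear hra
    induction hr using Submodule.span_induction with
    | mem r hr =>
      obtain ⟨x, hx, hrx⟩ := hr
      rw [hrx]
      exact AddSubgroup.subset_closure ⟨x, hx, rfl⟩
    | zero => exact (J φ h).zero_mem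
    | add a b _ _ ha hb => exact (J φ h).add_mem ha hb
    | smul s a _ ha => exact mul_J φ h h1 hm (hcl s s.2) ha
  obtain ⟨l, hl, hl2⟩ := J_list φ h hrJ
  exact ⟨l, hl, fun a => (hra a).trans (hl2 a)⟩

/-- every element is an ordered monomial modulo the commutator subgroup -/
theorem exists_mono {n : ℕ} (g : Fin n → G) (hg : Subgroup.closure (Set.range g) = ⊤) (y : G) :
    ∃ u : Vec n, (mono g u)⁻¹ * y ∈ commutator G := by
  have key : ∃ u : Vec n, Abelianization.of y = ∏ i, Abelianization.of (g i) ^ u i := by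
    have hy : y ∈ Subgroup.closure (Set.range g) := by rw [hg]; trivial
    induction hy using Subgroup.closure_induction with
    | mem y hy =>
      obtain ⟨i, rfl⟩ := hy
      refine ⟨Pi.single i 1, ?_⟩
      rw [Finset.prod_eq_single i]
      · simp
      · intro j _ hj
        simp [hj]
      · simp
    | one => exact ⟨0, by simp⟩
    | mul a b _ _ h1 h2 =>
      obtain ⟨u, hu⟩ := h1
      obtain ⟨v, hv⟩ := h2
      refine ⟨u + v, ?_⟩
      rw [map_mul, hu, hv, ← Finset.prod_mul_distrib]
      refine Finset.prod_congr rfl fun i _ => ?_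
      rw [Pi.add_apply, zpow_add]
    | inv a _ h1 =>
      obtain ⟨u, hu⟩ := h1
      refine ⟨-u, ?_⟩
      rw [map_inv, hu, ← Finset.prod_inv_distrib]
      refine Finset.prod_congr rfl fun i _ => ?_
      rw [Pi.neg_apply, zpow_neg]
  obtain ⟨u, hu⟩ := key
  refine ⟨u, ?_⟩
  have hm : Abelianization.of (mono g u) = ∏ i, Abelianization.of (g i) ^ u i := by
    unfold mono
    rw [map_list_prod, List.map_ofFn, List.prod_ofFn]
    refine Finset.prod_congr rfl fun i _ => ?_
    rw [Function.comp, map_zpow]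
  rw [← Abelianization.ker_of, MonoidHom.mem_ker, map_mul, map_inv, hm, hu, inv_mul_cancel]

theorem ht_mul (X : G →* Multiplicative ℝ) (x y : G) : ht X (x * y) = ht X x + ht X y := by
  unfold ht; rw [map_mul, toAdd_mul]

theorem ht_comm (X : G →* Multiplicative ℝ) {x : G} (hx : x ∈ commutator G) : ht X x = 0 := by
  have := Abelianization.commutator_subset_ker X hx
  rw [MonoidHom.mem_ker] at this
  unfold ht; rw [this, toAdd_one]

theorem ht_mono (X : G →* Multiplicative ℝ) {n : ℕ} (g : Fin n → G) (u : Vec n) :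
    ht X (mono g u) = ∑ i, ht X (g i) * (u i : ℝ) := by
  unfold ht mono
  rw [map_list_prod, List.map_ofFn, List.prod_ofFn, toAdd_prod]
  refine Finset.sum_congr rfl fun i _ => ?_
  rw [Function.comp, map_zpow, toAdd_zpow, zsmul_eq_mul, mul_comm]

end NAKaux

open NAKaux in
theorem t_NAK : S_NAK := by
  classical
  intro G _ n g hg hab X χ hχ hne E hE hgen
  let N := commutator G
  letI : CommGroup N := { (inferInstance : Group N) with
    mul_comm := fun a b => Subtype.ext (hab a a.2 b b.2) }
  let φ : G →* AddMonoid.End (Additive N) :=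
    { toFun := fun x => MonoidHom.toAdditive ((MulAut.conjNormal x : MulAut N).toMonoidHom)
      map_one' := by ext a; simp; rfl
      map_mul' := fun x y => by ext a; simp; rfl }
  have hφv : ∀ (x : G) (a : N), ((Additive.toMul (φ x (Additive.ofMul a)) : N) : G) =
      x * a * x⁻¹ := fun x a => rfl
  have hcj : ∀ (x y : G) (a : N), x⁻¹ * y ∈ N → x * (a : G) * x⁻¹ = y * a * y⁻¹ := by
    intro x y a h
    have h1 := hab _ h _ a.2
    have h2 : y = x * (x⁻¹ * y) := by group
    calc x * (a : G) * x⁻¹ = x * (a * (x⁻¹ * y)) * (x⁻¹ * y)⁻¹ * x⁻¹ := by group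
      _ = x * ((x⁻¹ * y) * a) * (x⁻¹ * y)⁻¹ * x⁻¹ := by rw [h1]
      _ = y * a * y⁻¹ := by group
  have hφ : ∀ x y, φ x * φ y = φ y * φ x := by
    intro x y
    rw [← map_mul, ← map_mul]
    refine AddMonoidHom.ext fun a => ?_
    apply Additive.toMul.injective
    apply Subtype.ext
    have := hcj (x * y) (y * x) (Additive.toMul a) (by
      show (x * y)⁻¹ * (y * x) ∈ commutator G
      rw [← Abelianization.ker_of, MonoidHom.mem_ker, map_mul, map_inv, map_mul, map_mul,
        mul_comm (Abelianization.of y) (Abelianization.of x), inv_mul_cancel])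
    exact this
  obtain ⟨l, hl, hl2⟩ := main φ hφ (ht X) (ht_comm X (one_mem _)) (ht_mul X) hne
    (E.subtype (fun x => x ∈ N)) (by
      intro a
      have ha := hgen ((Additive.toMul a : N) : G) (Additive.toMul a : N).2
      have key : ∀ z : G, z ∈ Subgroup.closure {y | ∃ x : G, ∃ e ∈ E, 0 ≤ ht X x ∧
          y = x * e * x⁻¹} → ∃ hz : z ∈ N, Additive.ofMul (⟨z, hz⟩ : N) ∈
            AddSubgroup.closure {y | ∃ x : G, ∃ e ∈ E.subtype (fun x => x ∈ N),
              0 ≤ ht X x ∧ y = φ x (Additive.ofMul e)} := by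
        intro z hz
        induction hz using Subgroup.closure_induction with
        | mem z hz =>
          obtain ⟨x, e, he, hx, rfl⟩ := hz
          have hN : x * e * x⁻¹ ∈ N := (inferInstance : N.Normal).conj_mem e (hE e he) x
          refine ⟨hN, AddSubgroup.subset_closure ⟨x, ⟨e, hE e he⟩, ?_, hx, rfl⟩⟩
          rw [Finset.mem_subtype]; exact he
        | one => exact ⟨N.one_mem, AddSubgroup.zero_mem _⟩
        | mul a b _ _ i1 i2 =>
          obtain ⟨n1, m1⟩ := i1
          obtain ⟨n2, m2⟩ := i2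
          exact ⟨N.mul_mem n1 n2, AddSubgroup.add_mem _ m1 m2⟩
        | inv a _ i1 =>
          obtain ⟨n1, m1⟩ := i1
          exact ⟨N.inv_mem n1, AddSubgroup.neg_mem _ m1⟩
      obtain ⟨_, h2⟩ := key _ ha
      exact h2)
  -- vectors
  have hvec : ∀ x : G, ∃ u : Vec n, (mono g u)⁻¹ * x⁻¹ ∈ N := fun x => exists_mono g hg x⁻¹
  choose u hu using hvec
  refine ⟨l.map fun x => (u x.1, x.2), Or.inr ?_, ?_⟩
  · intro x hx
    obtain ⟨y, hy, rfl⟩ := List.mem_map.1 hx
    have h1 := hl y hy
    have h2 := ht_comm X (hu y.1)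
    have h3 : ht X ((mono g (u y.1)) * ((mono g (u y.1))⁻¹ * y.1⁻¹)) = ht X (y.1⁻¹) := by
      congr 1; group
    rw [ht_mul, h2, add_zero, ht_mono] at h3
    have h4 := ht_mul X y.1 y.1⁻¹
    rw [mul_inv_cancel, ht_comm X (one_mem _)] at h4
    simp only [hχ] at h3
    simp only
    rw [h3]
    linarith
  · intro a ha
    have h1 := congrArg (fun b : Additive N => ((Additive.toMul b : N) : G))
      (hl2 (Additive.ofMul ⟨a, ha⟩))
    simp only [toMul_ofMul] at h1
    rw [List.map_map]
    refine h1.trans ?_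
    clear h1 hl2 hl
    induction l with
    | nil => rfl
    | cons x l ih =>
      rw [List.map_cons, List.map_cons, List.sum_cons, List.prod_cons, ← ih, toMul_add,
        Subgroup.coe_mul]
      congr 1
      have e1 := hcj x.1 (mono g (u x.1))⁻¹ ⟨a, ha⟩ (by
        have h2 := (inferInstance : N.Normal).conj_mem _ (hu x.1) (x.1⁻¹)
        have h3 : x.1⁻¹ * ((mono g (u x.1))⁻¹ * x.1⁻¹) * x.1⁻¹⁻¹ =
          x.1⁻¹ * (mono g (u x.1))⁻¹ := by group
        rw [h3] at h2; exact h2)
      rw [inv_inv] at e1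
      simp only [sv, Function.comp, pw]
      cases x.2
      · simp only [Bool.false_eq_true, if_false]
        rw [toMul_neg, Subgroup.coe_inv, hφv]
        simp only at e1 ⊢
        rw [e1]
        group
      · simp only [if_true]
        rw [hφv]
        exact e1

end H114MB
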