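import Pool.Agent.H114.MB.Defs

/-!
# NC: the trivial words are the derivable words
-/

set_option autoImplicit false

namespace H114MB

/-- words that may be inserted -/
def ncR (n : ℕ) (R : List Wd) (r : Wd) : Prop :=
  r ∈ R ∨ (∃ y : ℕ × Bool, r = [y, (y.1, !y.2)]) ∨ ∃ y : ℕ × Bool, n ≤ y.1 ∧ r = [y]

/-- one insertion -/
def ncI (n : ℕ) (R : List Wd) (v v' : Wd) : Prop :=
  ∃ x r z : Wd, ncR n R r ∧ v = x ++ z ∧ v' = x ++ r ++ z

theorem nc_ins (n : ℕ) (R : List Wd) (v v' : Wd) :
    Ins (R ++ triv n v') v v' ↔ ncI n R v v' := by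
  constructor
  · rintro ⟨r, hr, k, -, h⟩
    refine ⟨v.take k, r, v.drop k, ?_, (List.take_append_drop k v).symm, h⟩
    rcases List.mem_append.1 hr with hr | hr
    · exact Or.inl hr
    · unfold triv at hr
      rw [List.mem_flatMap] at hr
      obtain ⟨y, -, hr⟩ := hr
      split_ifs at hr with hn
      · simp only [List.mem_cons, List.not_mem_nil, or_false] at hr
        rcases hr with hr | hr
        · exact Or.inr (Or.inl ⟨y, hr⟩)
        · exact Or.inr (Or.inr ⟨y, hn, hr⟩)
      · simp only [List.mem_cons, List.not_mem_nil, or_false] at hr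
        exact Or.inr (Or.inl ⟨y, hr⟩)
  · rintro ⟨x, r, z, hr, rfl, rfl⟩
    refine ⟨r, ?_, x.length, by rw [List.length_append]; omega, by simp⟩
    rcases hr with hr | ⟨y, rfl⟩ | ⟨y, hn, rfl⟩
    · exact List.mem_append_left _ hr
    · refine List.mem_append_right _ ?_
      unfold triv
      rw [List.mem_flatMap]
      refine ⟨y, by simp, ?_⟩
      split_ifs <;> simp
    · refine List.mem_append_right _ ?_
      unfold triv
      rw [List.mem_flatMap]
      refine ⟨y, by simp, ?_⟩
      rw [if_pos hn]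
      simp

theorem nc_stp (n : ℕ) (R : List Wd) (v v' : Wd) :
    Stp n R v v' ↔ ncI n R v v' ∨ ncI n R v' v := by
  unfold Stp
  rw [nc_ins, nc_ins]

theorem nc_symm {n : ℕ} {R : List Wd} {v v' : Wd} (h : Stp n R v v') : Stp n R v' v := by
  rw [nc_stp] at *
  exact h.symm

theorem ncI_left {n : ℕ} {R : List Wd} {v v' : Wd} (u : Wd) (h : ncI n R v v') :
    ncI n R (u ++ v) (u ++ v') := by
  obtain ⟨x, r, z, hr, rfl, rfl⟩ := h
  exact ⟨u ++ x, r, z, hr, by simp, by simp⟩

theorem ncI_right {n : ℕ} {R : List Wd} {v v' : Wd} (u : Wd) (h : ncI n R v v') :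
    ncI n R (v ++ u) (v' ++ u) := by
  obtain ⟨x, r, z, hr, rfl, rfl⟩ := h
  exact ⟨x, r, z ++ u, hr, by simp, by simp⟩

/-- derivability -/
def ncE (n : ℕ) (R : List Wd) : Wd → Wd → Prop := Relation.ReflTransGen (Stp n R)

theorem ncE_left {n : ℕ} {R : List Wd} {v v' : Wd} (u : Wd) (h : ncE n R v v') :
    ncE n R (u ++ v) (u ++ v') := by
  unfold ncE at *
  induction h with
  | refl => exact Relation.ReflTransGen.refl
  | tail _ hab ih =>
    refine ih.tail ?_
    rw [nc_stp] at *
    exact hab.imp (ncI_left u) (ncI_left u)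

theorem ncE_right {n : ℕ} {R : List Wd} {v v' : Wd} (u : Wd) (h : ncE n R v v') :
    ncE n R (v ++ u) (v' ++ u) := by
  unfold ncE at *
  induction h with
  | refl => exact Relation.ReflTransGen.refl
  | tail _ hab ih =>
    refine ih.tail ?_
    rw [nc_stp] at *
    exact hab.imp (ncI_right u) (ncI_right u)

theorem ncE_symm {n : ℕ} {R : List Wd} {v v' : Wd} (h : ncE n R v v') : ncE n R v' v := by
  unfold ncE at *
  induction h with
  | refl => exact Relation.ReflTransGen.refl
  | tail _ hab ih => exact Relation.ReflTransGen.head (nc_symm hab) ih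

/-- the congruence -/
def ncC (n : ℕ) (R : List Wd) : Con (FreeMonoid (ℕ × Bool)) where
  r a b := ncE n R (FreeMonoid.toList a) (FreeMonoid.toList b)
  iseqv := ⟨fun _ => Relation.ReflTransGen.refl,
    fun h => ncE_symm h,
    fun h h' => Relation.ReflTransGen.trans h h'⟩
  mul' := fun {a b c d} h h' => by
    change ncE n R (FreeMonoid.toList (a * c)) (FreeMonoid.toList (b * d))
    rw [FreeMonoid.toList_mul, FreeMonoid.toList_mul]
    exact Relation.ReflTransGen.trans (ncE_right _ h) (ncE_left _ h')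

/-- class of a word -/
def ncK (n : ℕ) (R : List Wd) (w : Wd) : (ncC n R).Quotient :=
  ((FreeMonoid.ofList w : FreeMonoid (ℕ × Bool)) : (ncC n R).Quotient)

theorem ncK_append (n : ℕ) (R : List Wd) (v w : Wd) : ncK n R (v ++ w) = ncK n R v * ncK n R w := by
  unfold ncK
  rw [FreeMonoid.ofList_append, Con.coe_mul]

theorem ncK_nil (n : ℕ) (R : List Wd) : ncK n R [] = 1 := rfl

theorem ncK_eq {n : ℕ} {R : List Wd} {v w : Wd} : ncK n R v = ncK n R w ↔ ncE n R v w := by
  unfold ncK
  rw [Con.eq]
  rfl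

theorem ncK_one {n : ℕ} {R : List Wd} {r : Wd} (h : ncR n R r) : ncK n R r = 1 := by
  rw [← ncK_nil, ncK_eq]
  refine Relation.ReflTransGen.single ?_
  rw [nc_stp]
  exact Or.inr ⟨[], r, [], h, rfl, by simp⟩

/-- class of a letter as a unit -/
def ncU (n : ℕ) (R : List Wd) (i : ℕ) : ((ncC n R).Quotient)ˣ where
  val := ncK n R [(i, true)]
  inv := ncK n R [(i, false)]
  val_inv := by
    rw [← ncK_append]
    exact ncK_one (Or.inr (Or.inl ⟨(i, true), rfl⟩))
  inv_val := by
    rw [← ncK_append]
    exact ncK_one (Or.inr (Or.inl ⟨(i, false), rfl⟩))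

theorem nc_prod (n : ℕ) (R : List Wd) (F : ℕ × Bool → ((ncC n R).Quotient)ˣ)
    (hF : ∀ y, ((F y : ((ncC n R).Quotient)ˣ) : (ncC n R).Quotient) = ncK n R [y]) (w : Wd) :
    (((w.map F).prod : ((ncC n R).Quotient)ˣ) : (ncC n R).Quotient) = ncK n R w := by
  induction w with
  | nil => simp [ncK_nil]
  | cons y w ih =>
    rw [List.map_cons, List.prod_cons, Units.val_mul, ih, hF, ← ncK_append]
    rfl

theorem nc_lift (p : ℕ × List Wd) (r : FreeGroup (Fin p.1)) (hr : r ∈ relset p) :
    FreeGroup.lift (fun i : Fin p.1 => ncU p.1 p.2 i) r = 1 := by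
  obtain ⟨w, hw, rfl⟩ := hr
  rw [map_list_prod, List.map_map]
  apply Units.ext
  rw [nc_prod, Units.val_one]
  · exact ncK_one (Or.inl hw)
  · intro y
    simp only [Function.comp]
    split_ifs with h1 h2
    · rw [FreeGroup.lift_apply_of]
      obtain ⟨i, c⟩ := y
      simp only at h2
      subst h2
      rfl
    · rw [map_inv, FreeGroup.lift_apply_of]
      obtain ⟨i, c⟩ := y
      simp only [Bool.not_eq_true] at h2
      subst h2
      rfl
    · rw [map_one, Units.val_one]
      exact (ncK_one (Or.inr (Or.inr ⟨y, not_lt.1 h1, rfl⟩))).symm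

/-- the homomorphism on the presented group -/
def ncH (p : ℕ × List Wd) : PresentedGroup (relset p) →* ((ncC p.1 p.2).Quotient)ˣ :=
  PresentedGroup.toGroup (f := fun i : Fin p.1 => ncU p.1 p.2 i) (nc_lift p)

theorem ncH_letter (p : ℕ × List Wd) (y : ℕ × Bool) :
    ((ncH p (pw (fp p y.1) y.2) : ((ncC p.1 p.2).Quotient)ˣ) : (ncC p.1 p.2).Quotient) =
      ncK p.1 p.2 [y] := by
  obtain ⟨i, c⟩ := y
  unfold fp
  by_cases h : i < p.1
  · simp only [dif_pos h]
    have h1 : ncH p (PresentedGroup.of (⟨i, h⟩ : Fin p.1)) = ncU p.1 p.2 i :=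
      PresentedGroup.toGroup.of (nc_lift p)
    cases c
    · simp only [pw, Bool.false_eq_true, if_false]
      rw [map_inv, h1]
      rfl
    · simp only [pw, if_true]
      rw [h1]
      rfl
  · simp only [dif_neg h]
    have h1 : pw (1 : PresentedGroup (relset p)) c = 1 := by
      cases c <;> simp [pw]
    rw [h1, map_one, Units.val_one]
    exact (ncK_one (Or.inr (Or.inr ⟨(i, c), not_lt.1 h, rfl⟩))).symm

theorem ncH_word (p : ℕ × List Wd) (w : Wd) :
    ((ncH p (evw (fp p) w) : ((ncC p.1 p.2).Quotient)ˣ) : (ncC p.1 p.2).Quotient) =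
      ncK p.1 p.2 w := by
  unfold evw
  rw [map_list_prod, List.map_map]
  exact nc_prod p.1 p.2 _ (fun y => ncH_letter p y) w

theorem nc_list (n : ℕ) (R : List Wd) (w : Wd) (h : ncE n R w []) :
    ∃ d : List Wd, d ≠ [] ∧ Drv n R w d := by
  unfold ncE at h
  induction h using Relation.ReflTransGen.head_induction_on with
  | refl =>
    refine ⟨[[]], by simp, by simp, by simp, ?_⟩
    intro k hk
    simp at hk
  | @head a b hab _ ih =>
    obtain ⟨d, hd, h0, h1, h2⟩ := ih
    obtain ⟨c, d, rfl⟩ := List.exists_cons_of_ne_nil hd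
    refine ⟨a :: c :: d, by simp, by simp, ?_, ?_⟩
    · simpa using h1
    · intro k hk
      cases k with
      | zero =>
        have : (c :: d).getD 0 [] = b := h0
        simp only [List.getD_cons_zero, List.getD_cons_succ] at this ⊢
        rw [this]
        exact hab
      | succ k =>
        have := h2 k (by simp at hk ⊢; omega)
        simpa using this

theorem nc_rel (p : ℕ × List Wd) (w : Wd) (hw : w ∈ p.2) : evw (fp p) w = 1 := by
  have h1 : PresentedGroup.mk (relset p) ((w.map (fun x : ℕ × Bool =>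
      if h : x.1 < p.1 then
        (if x.2 then FreeGroup.of (⟨x.1, h⟩ : Fin p.1)
         else (FreeGroup.of (⟨x.1, h⟩ : Fin p.1))⁻¹)
      else 1)).prod) = 1 := by
    exact PresentedGroup.one_of_mem ⟨w, hw, rfl⟩
  rw [map_list_prod, List.map_map] at h1
  unfold evw
  rw [← h1]
  congr 1
  refine List.map_congr_left fun y _ => ?_
  simp only [Function.comp, fp]
  split_ifs with h2 h3
  · unfold pw
    rw [if_pos h3]
    rfl
  · unfold pw
    rw [if_neg h3, map_inv]
    rfl
  · rw [map_one]
    unfold pw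
    split_ifs
    · rfl
    · exact inv_one

theorem nc_evw_append {H : Type} [Group H] (f : ℕ → H) (v w : Wd) :
    evw f (v ++ w) = evw f v * evw f w := by
  unfold evw
  rw [List.map_append, List.prod_append]

theorem nc_R (p : ℕ × List Wd) (r : Wd) (hr : ncR p.1 p.2 r) : evw (fp p) r = 1 := by
  rcases hr with hr | ⟨y, rfl⟩ | ⟨y, hn, rfl⟩
  · exact nc_rel p r hr
  · obtain ⟨i, c⟩ := y
    cases c <;> simp [evw, pw]
  · unfold evw fp
    simp only [List.map_cons, List.map_nil, List.prod_cons, List.prod_nil, mul_one]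
    rw [dif_neg (not_lt.2 hn)]
    unfold pw
    split_ifs
    · rfl
    · exact inv_one

theorem nc_I (p : ℕ × List Wd) (v v' : Wd) (h : ncI p.1 p.2 v v') :
    evw (fp p) v = evw (fp p) v' := by
  obtain ⟨x, r, z, hr, rfl, rfl⟩ := h
  rw [nc_evw_append, nc_evw_append, nc_evw_append, nc_R p r hr, mul_one]

theorem t_NC : S_NC := by
  intro p w
  constructor
  · intro h
    have h1 := ncH_word p w
    rw [h, map_one, Units.val_one, ← ncK_nil, eq_comm, ncK_eq] at h1
    obtain ⟨d, -, hd⟩ := nc_list p.1 p.2 w h1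
    exact ⟨d, hd⟩
  · rintro ⟨d, h0, h1, h2⟩
    have key : ∀ k, k ≤ d.length - 1 → evw (fp p) (d.getD k []) = evw (fp p) w := by
      intro k
      induction k with
      | zero =>
        intro _
        rw [h0]
      | succ k ih =>
        intro hk
        rw [← ih (by omega)]
        have h3 := h2 k (by omega)
        rw [nc_stp] at h3
        rcases h3 with h3 | h3
        · exact (nc_I p _ _ h3).symm
        · exact nc_I p _ _ h3
    have h3 := key _ le_rfl
    rw [h1] at h3
    rw [← h3]
    rfl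

end H114MB
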