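import Pool.Agent.H114.MB.Defs

set_option autoImplicit false

/-! # MP_909f0f_lc: good paths modulo the commutator subgroup (task PATH) -/

namespace H114MB

theorem PATH_ev_append {G : Type} [Group G] {n : ℕ} (g : Fin n → G) (v w : List (Fin n × Bool)) :
    ev g (v ++ w) = ev g v * ev g w := by
  unfold ev
  rw [List.map_append, List.prod_append]

theorem PATH_ev_single {G : Type} [Group G] {n : ℕ} (g : Fin n → G) (y : Fin n × Bool) :
    ev g [y] = pw (g y.1) y.2 := by
  unfold ev
  simp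

theorem PATH_ht_mul {G : Type} [Group G] (X : G →* Multiplicative ℝ) (x y : G) :
    ht X (x * y) = ht X x + ht X y := by
  unfold ht
  rw [map_mul]; rfl

theorem PATH_ht_one {G : Type} [Group G] (X : G →* Multiplicative ℝ) : ht X 1 = 0 := by
  unfold ht
  rw [map_one]; rfl

theorem PATH_ht_inv {G : Type} [Group G] (X : G →* Multiplicative ℝ) (x : G) :
    ht X x⁻¹ = - ht X x := by
  unfold ht
  rw [map_inv]; rfl

theorem PATH_ht_zpow {G : Type} [Group G] (X : G →* Multiplicative ℝ) (x : G) (k : ℤ) :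
    ht X (x ^ k) = k * ht X x := by
  unfold ht
  rw [map_zpow, toAdd_zpow, zsmul_eq_mul]

theorem PATH_ht_of {G : Type} [Group G] (X : G →* Multiplicative ℝ) {x y : G}
    (h : Abelianization.of x = Abelianization.of y) : ht X x = ht X y := by
  unfold ht
  have h1 : ∀ z, X z = Abelianization.lift X (Abelianization.of z) := fun z => by
    rw [Abelianization.lift_apply_of]
  rw [h1 x, h1 y, h]

theorem PATH_rep {G : Type} [Group G] {n : ℕ} (g : Fin n → G) (X : G →* Multiplicative ℝ)
    (lo hi : ℝ) (w : List (Fin n × Bool))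
    (hw : ∀ p, p <+: w → lo ≤ ht X (ev g p) ∧ ht X (ev g p) ≤ hi) (y : Fin n × Bool) (k : ℕ) :
    lo ≤ ht X (ev g w) + k * ht X (pw (g y.1) y.2) →
    ht X (ev g w) + k * ht X (pw (g y.1) y.2) ≤ hi →
    ∃ w', ev g w' = ev g w * (pw (g y.1) y.2) ^ k ∧
      ∀ p, p <+: w' → lo ≤ ht X (ev g p) ∧ ht X (ev g p) ≤ hi := by
  induction k with
  | zero =>
    intro _ _
    exact ⟨w, by simp, hw⟩
  | succ k ih =>
    intro h1 h2
    have h0 := hw w (List.prefix_refl w)
    set H := ht X (ev g w) with hH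
    set h := ht X (pw (g y.1) y.2) with hh
    push_cast at h1 h2
    have hmid : lo ≤ H + k * h ∧ H + k * h ≤ hi := by
      have hk : (0 : ℝ) ≤ k := Nat.cast_nonneg k
      rcases le_total 0 h with hs | hs
      · have : 0 ≤ (k : ℝ) * h := mul_nonneg hk hs
        constructor <;> nlinarith [h0.1, h0.2]
      · have : (k : ℝ) * h ≤ 0 := mul_nonpos_of_nonneg_of_nonpos hk hs
        constructor <;> nlinarith [h0.1, h0.2]
    obtain ⟨w', hw'1, hw'2⟩ := ih hmid.1 hmid.2
    have hev : ev g (w' ++ [y]) = ev g w * (pw (g y.1) y.2) ^ (k + 1) := by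
      rw [PATH_ev_append, PATH_ev_single, hw'1, pow_succ, mul_assoc]
    refine ⟨w' ++ [y], hev, ?_⟩
    intro p hp
    rw [List.prefix_concat_iff] at hp
    rcases hp with rfl | hp
    · rw [hev, PATH_ht_mul]
      have : ht X ((pw (g y.1) y.2) ^ (k + 1)) = (k + 1) * h := by
        rw [← zpow_natCast, PATH_ht_zpow]
        push_cast
        rfl
      rw [this]
      exact ⟨h1, h2⟩
    · exact hw'2 p hp

theorem PATH_ext {G : Type} [Group G] {n : ℕ} (g : Fin n → G) (X : G →* Multiplicative ℝ)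
    (lo hi : ℝ) (w : List (Fin n × Bool))
    (hw : ∀ p, p <+: w → lo ≤ ht X (ev g p) ∧ ht X (ev g p) ≤ hi) (y : Fin n × Bool) (m : ℤ)
    (h1 : lo ≤ ht X (ev g w) + m * ht X (pw (g y.1) y.2))
    (h2 : ht X (ev g w) + m * ht X (pw (g y.1) y.2) ≤ hi) :
    ∃ w', ev g w' = ev g w * (pw (g y.1) y.2) ^ m ∧
      ∀ p, p <+: w' → lo ≤ ht X (ev g p) ∧ ht X (ev g p) ≤ hi := by
  rcases Int.eq_nat_or_neg m with ⟨k, rfl | rfl⟩
  · obtain ⟨w', h3, h4⟩ := PATH_rep g X lo hi w hw y k (by push_cast at h1; exact h1)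
      (by push_cast at h2; exact h2)
    exact ⟨w', by rw [h3, zpow_natCast], h4⟩
  · have hinv : pw (g y.1) (!y.2) = (pw (g y.1) y.2)⁻¹ := by
      unfold pw
      cases y.2 <;> simp
    obtain ⟨w', h3, h4⟩ := PATH_rep g X lo hi w hw (y.1, !y.2) k
      (by
        show lo ≤ ht X (ev g w) + k * ht X (pw (g y.1) (!y.2))
        rw [hinv, PATH_ht_inv]
        push_cast at h1
        linarith)
      (by
        show ht X (ev g w) + k * ht X (pw (g y.1) (!y.2)) ≤ hi
        rw [hinv, PATH_ht_inv]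
        push_cast at h2
        linarith)
    refine ⟨w', ?_, h4⟩
    rw [h3]
    show ev g w * (pw (g y.1) (!y.2)) ^ k = _
    rw [hinv, inv_pow, zpow_neg, zpow_natCast]

theorem PATH_int (H τ : ℝ) (hτ : 0 < τ) : ∃ m : ℤ, |H + m * τ| ≤ τ ∧ |H + m * τ| ≤ |H| := by
  rcases le_total 0 H with hH | hH
  · refine ⟨-⌊H / τ⌋, ?_⟩
    have h1 := Int.floor_le (H / τ)
    have h2 := Int.lt_floor_add_one (H / τ)
    have h3 : (0 : ℝ) ≤ ⌊H / τ⌋ := by
      have : (0 : ℤ) ≤ ⌊H / τ⌋ := Int.floor_nonneg.2 (div_nonneg hH hτ.le)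
      exact_mod_cast this
    rw [le_div_iff₀ hτ] at h1
    rw [div_lt_iff₀ hτ] at h2
    have h4 : 0 ≤ (⌊H / τ⌋ : ℝ) * τ := mul_nonneg h3 hτ.le
    push_cast
    rw [abs_of_nonneg (by nlinarith), abs_of_nonneg hH]
    constructor <;> nlinarith
  · refine ⟨⌊-H / τ⌋, ?_⟩
    have h1 := Int.floor_le (-H / τ)
    have h2 := Int.lt_floor_add_one (-H / τ)
    have h3 : (0 : ℝ) ≤ ⌊-H / τ⌋ := by
      have : (0 : ℤ) ≤ ⌊-H / τ⌋ := Int.floor_nonneg.2 (div_nonneg (by linarith) hτ.le)
      exact_mod_cast this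
    rw [le_div_iff₀ hτ] at h1
    rw [div_lt_iff₀ hτ] at h2
    have h4 : 0 ≤ (⌊-H / τ⌋ : ℝ) * τ := mul_nonneg h3 hτ.le
    rw [abs_of_nonpos (by nlinarith), abs_of_nonpos hH]
    constructor <;> nlinarith

theorem t_PATH : S_PATH := by
  intro G _ n g hg X hX
  -- a bound for the heights of the generators
  obtain ⟨c, hc0, hc⟩ : ∃ c : ℝ, 0 ≤ c ∧ ∀ i, |ht X (g i)| ≤ c := by
    refine ⟨∑ i, |ht X (g i)|, Finset.sum_nonneg fun _ _ => abs_nonneg _, fun i => ?_⟩
    exact Finset.single_le_sum (f := fun i => |ht X (g i)|) (fun _ _ => abs_nonneg _)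
      (Finset.mem_univ i)
  have hpc : ∀ y : Fin n × Bool, |ht X (pw (g y.1) y.2)| ≤ c := by
    intro y
    unfold pw
    split_ifs
    · exact hc _
    · rw [PATH_ht_inv, abs_neg]; exact hc _
  -- a letter of positive height
  obtain ⟨t, ht0⟩ : ∃ t : Fin n × Bool, 0 < ht X (pw (g t.1) t.2) := by
    by_contra hcon
    push Not at hcon
    have hz : ∀ i, ht X (g i) = 0 := by
      intro i
      have h1 := hcon (i, true)
      have h2 := hcon (i, false)
      simp only [pw, if_true, Bool.false_eq_true, if_false, PATH_ht_inv] at h1 h2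
      linarith
    have hall : ∀ x ∈ Subgroup.closure (Set.range g), ht X x = 0 := by
      intro x hmem
      induction hmem using Subgroup.closure_induction with
      | mem x hx =>
        obtain ⟨i, rfl⟩ := hx
        exact hz i
      | one => exact PATH_ht_one X
      | mul x y _ _ hx hy => rw [PATH_ht_mul, hx, hy, add_zero]
      | inv x _ hx => rw [PATH_ht_inv, hx, neg_zero]
    obtain ⟨x, hx⟩ := hX
    exact hx (hall x (by rw [hg]; trivial))
  set τ := ht X (pw (g t.1) t.2) with hτ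
  have hτc : τ ≤ c := (le_abs_self _).trans (hpc t)
  set tt := pw (g t.1) t.2 with htt
  -- (1)
  have step : ∀ (x : G) (y : Fin n × Bool),
      (∃ (K : ℤ) (w : List (Fin n × Bool)),
        Abelianization.of x = Abelianization.of (ev g w * tt ^ K) ∧
        (∀ p, p <+: w → -(2 * c) ≤ ht X (ev g p) ∧ ht X (ev g p) ≤ 2 * c) ∧
        |ht X (ev g w)| ≤ τ) →
      ∃ (K : ℤ) (w : List (Fin n × Bool)),
        Abelianization.of (x * pw (g y.1) y.2) = Abelianization.of (ev g w * tt ^ K) ∧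
        (∀ p, p <+: w → -(2 * c) ≤ ht X (ev g p) ∧ ht X (ev g p) ≤ 2 * c) ∧
        |ht X (ev g w)| ≤ τ := by
    rintro x y ⟨K, w, h1, h2, h3⟩
    have hy := hpc y
    have hH' : ht X (ev g (w ++ [y])) = ht X (ev g w) + ht X (pw (g y.1) y.2) := by
      rw [PATH_ev_append, PATH_ev_single, PATH_ht_mul]
    have hb : |ht X (ev g (w ++ [y]))| ≤ 2 * c := by
      rw [hH']
      refine (abs_add_le _ _).trans ?_
      linarith
    have hw1 : ∀ p, p <+: w ++ [y] → -(2 * c) ≤ ht X (ev g p) ∧ ht X (ev g p) ≤ 2 * c := by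
      intro p hp
      rw [List.prefix_concat_iff] at hp
      rcases hp with rfl | hp
      · exact abs_le.1 hb
      · exact h2 p hp
    obtain ⟨m, hm1, hm2⟩ := PATH_int (ht X (ev g (w ++ [y]))) τ ht0
    have hm3 := abs_le.1 (hm2.trans hb)
    obtain ⟨w', hw', hp'⟩ := PATH_ext g X _ _ _ hw1 t m hm3.1 hm3.2
    refine ⟨K - m, w', ?_, hp', ?_⟩
    · rw [hw', PATH_ev_append, PATH_ev_single]
      simp only [map_mul, map_zpow]
      rw [h1, map_mul, map_zpow, zpow_sub]
      simp only [htt]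
      generalize Abelianization.of (ev g w) = A
      generalize Abelianization.of (pw (g t.1) t.2) = B
      generalize Abelianization.of (pw (g y.1) y.2) = D
      calc A * B ^ K * D = A * D * B ^ K := by rw [mul_right_comm]
        _ = A * D * B ^ m * (B ^ K * (B ^ m)⁻¹) := by
            rw [mul_assoc (A * D), mul_comm (B ^ K), mul_inv_cancel_left]
    · rw [hw', PATH_ht_mul, PATH_ht_zpow]
      exact hm1
  have main : ∀ x : G, ∃ (K : ℤ) (w : List (Fin n × Bool)),
        Abelianization.of x = Abelianization.of (ev g w * tt ^ K) ∧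
        (∀ p, p <+: w → -(2 * c) ≤ ht X (ev g p) ∧ ht X (ev g p) ≤ 2 * c) ∧
        |ht X (ev g w)| ≤ τ := by
    intro x
    have hmem : x ∈ Subgroup.closure (Set.range g) := by rw [hg]; trivial
    induction hmem using Subgroup.closure_induction_right with
    | one =>
      refine ⟨0, [], by simp [ev], ?_, ?_⟩
      · intro p hp
        rw [List.prefix_nil] at hp
        subst hp
        simp only [ev, List.map_nil, List.prod_nil, PATH_ht_one]
        constructor <;> linarith
      · simp only [ev, List.map_nil, List.prod_nil, PATH_ht_one, abs_zero]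
        exact ht0.le
    | mul_right x hx y hy ih =>
      obtain ⟨i, rfl⟩ := hy
      have := step x (i, true) ih
      simpa [pw] using this
    | mul_inv_cancel x hx y hy ih =>
      obtain ⟨i, rfl⟩ := hy
      have := step x (i, false) ih
      simpa [pw] using this
  refine ⟨2 * c, ?_⟩
  intro C hC x
  obtain ⟨K, w, h1, h2, h3⟩ := main x
  have hx : ht X x = ht X (ev g w) + K * τ := by
    rw [PATH_ht_of X h1, PATH_ht_mul, PATH_ht_zpow]
  have hw1 : ∀ p, p <+: w → min (-C) (ht X x) ≤ ht X (ev g p) ∧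
      ht X (ev g p) ≤ max C (ht X x) := by
    intro p hp
    obtain ⟨h4, h5⟩ := h2 p hp
    exact ⟨(min_le_left _ _).trans (by linarith), le_trans (by linarith) (le_max_left _ _)⟩
  obtain ⟨w', hw', hp'⟩ := PATH_ext g X _ _ _ hw1 t K (by rw [← hx]; exact min_le_right _ _)
    (by rw [← hx]; exact le_max_right _ _)
  refine ⟨w', ?_, hp'⟩
  rw [hw']
  have h6 : Abelianization.of ((ev g w * tt ^ K)⁻¹ * x) = 1 := by
    rw [map_mul, map_inv, h1, inv_mul_cancel]
  rwa [← Abelianization.ker_of, MonoidHom.mem_ker]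

end H114MB
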