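import Mathlib
import Pool.Agent.H114.MB.Defs

set_option autoImplicit false

/-!
# Task PCH: checking certificates is primitive recursive
-/

namespace H114MB

section PCH

variable {α β γ : Type} [Primcodable α] [Primcodable β] [Primcodable γ]

private theorem PCH_fst {f : α → β × γ} (h : Primrec f) : Primrec fun a => (f a).1 :=
  Primrec.fst.comp h

private theorem PCH_snd {f : α → β × γ} (h : Primrec f) : Primrec fun a => (f a).2 :=
  Primrec.snd.comp h

private theorem PCH_not {f : α → Bool} (h : Primrec f) : Primrec fun a => !(f a) :=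
  Primrec.not.comp h

private theorem PCH_append {f g : α → List β} (h : Primrec f) (h' : Primrec g) :
    Primrec fun a => f a ++ g a :=
  Primrec.list_append.comp h h'

private theorem PCH_cons {f : α → β} {g : α → List β} (h : Primrec f) (h' : Primrec g) :
    Primrec fun a => f a :: g a :=
  Primrec.list_cons.comp h h'

private theorem PCH_length {f : α → List β} (h : Primrec f) :
    Primrec fun a => (f a).length :=
  Primrec.list_length.comp h

private theorem PCH_add {f g : α → ℕ} (h : Primrec f) (h' : Primrec g) :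
    Primrec fun a => f a + g a :=
  Primrec.nat_add.comp h h'

private theorem PCH_sub {f g : α → ℕ} (h : Primrec f) (h' : Primrec g) :
    Primrec fun a => f a - g a :=
  Primrec.nat_sub.comp h h'

private theorem PCH_mul {f g : α → ℕ} (h : Primrec f) (h' : Primrec g) :
    Primrec fun a => f a * g a :=
  Primrec.nat_mul.comp h h'

private theorem PCH_sq {f : α → ℕ} (h : Primrec f) : Primrec fun a => f a ^ 2 := by
  refine (PCH_mul h h).of_eq fun a => ?_
  rw [sq]

private theorem PCH_ite {f : α → Bool} {g g' : α → β} (h : Primrec f) (h1 : Primrec g)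
    (h2 : Primrec g') : Primrec fun a => if f a = true then g a else g' a :=
  Primrec.ite (Primrec.eq.comp h (Primrec.const true)) h1 h2

private theorem PCH_sum {f : α → List ℕ} (h : Primrec f) : Primrec fun a => (f a).sum := by
  have : Primrec fun a => (f a).foldr (fun x y => x + y) 0 :=
    Primrec.list_foldr h (Primrec.const 0)
      (Primrec.nat_add.comp (Primrec.fst.comp Primrec.snd) (Primrec.snd.comp Primrec.snd)).to₂
  exact this.of_eq fun a => by rw [List.sum]

private theorem PCH_map {f : α → List β} {g : α → β → γ} (h : Primrec f)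
    (h' : Primrec fun q : α × β => g q.1 q.2) : Primrec fun a => (f a).map (g a) :=
  Primrec.list_map h h'

private theorem PCH_flatMap {f : α → List β} {g : α → β → List γ} (h : Primrec f)
    (h' : Primrec fun q : α × β => g q.1 q.2) : Primrec fun a => (f a).flatMap (g a) :=
  Primrec.list_flatMap h h'

private theorem PCH_eq {f g : α → β} (h : Primrec f) (h' : Primrec g) :
    PrimrecPred fun a => f a = g a :=
  Primrec.eq.comp h h'

private theorem PCH_le {f g : α → ℕ} (h : Primrec f) (h' : Primrec g) :
    PrimrecPred fun a => f a ≤ g a :=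
  Primrec.nat_le.comp h h'

private theorem PCH_lt {f g : α → ℕ} (h : Primrec f) (h' : Primrec g) :
    PrimrecPred fun a => f a < g a :=
  Primrec.nat_lt.comp h h'

/-- bounded universal quantifier over a list -/
private theorem PCH_all {f : α → List β} {P : α → β → Prop} (h : Primrec f)
    (hP : PrimrecPred fun q : α × β => P q.1 q.2) : PrimrecPred fun a => ∀ b ∈ f a, P a b := by
  have h1 : PrimrecRel fun (b : β) (a : α) => P a b :=
    hP.comp (f := fun q : β × α => (q.2, q.1)) (Primrec.pair Primrec.snd Primrec.fst)
  exact h1.forall_mem_list.comp h Primrec.id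

/-- bounded existential quantifier over a list -/
private theorem PCH_ex {f : α → List β} {P : α → β → Prop} (h : Primrec f)
    (hP : PrimrecPred fun q : α × β => P q.1 q.2) : PrimrecPred fun a => ∃ b ∈ f a, P a b := by
  have h1 : PrimrecRel fun (b : β) (a : α) => P a b :=
    hP.comp (f := fun q : β × α => (q.2, q.1)) (Primrec.pair Primrec.snd Primrec.fst)
  exact h1.exists_mem_list.comp h Primrec.id

private theorem PCH_allLt {f : α → ℕ} {P : α → ℕ → Prop} (h : Primrec f)
    (hP : PrimrecPred fun q : α × ℕ => P q.1 q.2) : PrimrecPred fun a => ∀ b < f a, P a b :=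
  (PCH_all (Primrec.list_range.comp h) hP).of_eq fun a => by simp

private theorem PCH_exLt {f : α → ℕ} {P : α → ℕ → Prop} (h : Primrec f)
    (hP : PrimrecPred fun q : α × ℕ => P q.1 q.2) : PrimrecPred fun a => ∃ b < f a, P a b :=
  (PCH_ex (Primrec.list_range.comp h) hP).of_eq fun a => by simp

private theorem PCH_mem {f : α → β} {g : α → List β} (h : Primrec f) (h' : Primrec g) :
    PrimrecPred fun a => f a ∈ g a :=
  (PCH_ex (P := fun a b => b = f a) h'
    (PCH_eq (Primrec.snd (α := α) (β := β)) (h.comp Primrec.fst))).of_eq fun a => by simp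

private theorem PCH_imp {p q : α → Prop} (h : PrimrecPred p) (h' : PrimrecPred q) :
    PrimrecPred fun a => p a → q a := by
  refine (h.not.or h').of_eq fun a => ?_
  tauto

private theorem PCH_and {p q : α → Prop} (h : PrimrecPred p) (h' : PrimrecPred q) :
    PrimrecPred fun a => p a ∧ q a := h.and h'

private theorem PCH_or {p q : α → Prop} (h : PrimrecPred p) (h' : PrimrecPred q) :
    PrimrecPred fun a => p a ∨ q a := h.or h'

private theorem PCH_count {f : α → Wd} {g : α → ℕ × Bool} (h : Primrec f) (h' : Primrec g) :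
    Primrec fun a => (f a).count (g a) := by
  have hR : PrimrecRel fun (x y : ℕ × Bool) => x = y := Primrec.eq
  have h1 : Primrec₂ fun (L : List (ℕ × Bool)) (b : ℕ × Bool) => L.filter (fun a => a = b) :=
    hR.listFilter
  refine (Primrec.list_length.comp (h1.comp h h')).of_eq fun a => ?_
  rw [List.count_eq_length_filter]
  congr 1
  apply List.filter_congr
  intro x _
  rw [Bool.eq_iff_iff]
  simp

private theorem PCH_winv {f : α → Wd} (h : Primrec f) : Primrec fun a => winv (f a) := by
  unfold winv
  exact Primrec.list_reverse.comp (PCH_map h (Primrec.pair (PCH_fst Primrec.snd)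
    (PCH_not (PCH_snd Primrec.snd))))

private theorem PCH_cw {f g : α → Wd} (h : Primrec f) (h' : Primrec g) :
    Primrec fun a => cw (f a) (g a) := by
  unfold cw
  exact PCH_append (PCH_append (PCH_winv h') h) h'

private theorem PCH_ipP {f g : α → Wd} (h : Primrec f) (h' : Primrec g) :
    Primrec fun a => ipP (f a) (g a) := by
  unfold ipP
  exact PCH_sum (PCH_map h (PCH_count (h'.comp Primrec.fst) Primrec.snd))

private theorem PCH_ipM {f g : α → Wd} (h : Primrec f) (h' : Primrec g) :
    Primrec fun a => ipM (f a) (g a) := by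
  unfold ipM
  exact PCH_sum (PCH_map h (PCH_count (h'.comp Primrec.fst)
    (Primrec.pair (PCH_fst Primrec.snd) (PCH_not (PCH_snd Primrec.snd)))))

private theorem PCH_nrm {f : α → Wd} (h : Primrec f) : Primrec fun a => nrm (f a) := by
  unfold nrm
  exact PCH_sub (PCH_ipP h h) (PCH_ipM h h)

private theorem PCH_abeq {n : α → ℕ} {f g : α → Wd} (hn : Primrec n) (h : Primrec f)
    (h' : Primrec g) : PrimrecPred fun a => abeq (n a) (f a) (g a) := by
  unfold abeq
  refine PCH_allLt hn (PCH_eq (PCH_add ?_ ?_) (PCH_add ?_ ?_))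
  · exact PCH_count (h.comp Primrec.fst) (Primrec.pair Primrec.snd (Primrec.const true))
  · exact PCH_count (h'.comp Primrec.fst) (Primrec.pair Primrec.snd (Primrec.const false))
  · exact PCH_count (h'.comp Primrec.fst) (Primrec.pair Primrec.snd (Primrec.const true))
  · exact PCH_count (h.comp Primrec.fst) (Primrec.pair Primrec.snd (Primrec.const false))

end PCH

/-- the domain of the predicate -/
private abbrev PCH_Q := ℕ × Ct

private theorem PCH_1 : PrimrecPred fun q : PCH_Q =>
    (1 ≤ q.2.2.2.2.2.1 ∧ 1 ≤ q.2.2.2.2.2.2 ∧ [] ∈ q.2.2.1) := by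
  refine PCH_and (PCH_le ?_ ?_) (PCH_and (PCH_le ?_ ?_) (PCH_mem ?_ ?_)) <;>
    (repeat with_reducible first
      | exact Primrec.const _
      | exact Primrec.id
      | exact Primrec.fst
      | exact Primrec.snd
      | apply PCH_winv
      | apply PCH_cw
      | apply PCH_ipP
      | apply PCH_ipM
      | apply PCH_nrm
      | apply PCH_count
      | apply PCH_ite
      | apply PCH_append
      | apply PCH_cons
      | apply PCH_length
      | apply PCH_add
      | apply PCH_mul
      | apply PCH_sq
      | apply PCH_not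
      | apply PCH_fst
      | apply PCH_snd
      | apply Primrec.pair)

private theorem PCH_2 : PrimrecPred fun q : PCH_Q =>
    (∀ w ∈ q.2.2.1, ∀ y ∈ w, y.1 < q.1) := by
  refine PCH_all ?_ (PCH_all ?_ (PCH_lt ?_ ?_)) <;>
    (repeat with_reducible first
      | exact Primrec.const _
      | exact Primrec.id
      | exact Primrec.fst
      | exact Primrec.snd
      | apply PCH_winv
      | apply PCH_cw
      | apply PCH_ipP
      | apply PCH_ipM
      | apply PCH_nrm
      | apply PCH_count
      | apply PCH_ite
      | apply PCH_append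
      | apply PCH_cons
      | apply PCH_length
      | apply PCH_add
      | apply PCH_mul
      | apply PCH_sq
      | apply PCH_not
      | apply PCH_fst
      | apply PCH_snd
      | apply Primrec.pair)

private theorem PCH_3 : PrimrecPred fun q : PCH_Q =>
    (∀ l ∈ q.2.2.2.1, ∀ x ∈ l, x.1.length ≤ q.2.2.2.2.2.2 ∧ ∀ y ∈ x.1, y.1 < q.1) := by
  refine PCH_all ?_ (PCH_all ?_ (PCH_and (PCH_le ?_ ?_) (PCH_all ?_ (PCH_lt ?_ ?_)))) <;>
    (repeat with_reducible first
      | exact Primrec.const _
      | exact Primrec.id
      | exact Primrec.fst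
      | exact Primrec.snd
      | apply PCH_winv
      | apply PCH_cw
      | apply PCH_ipP
      | apply PCH_ipM
      | apply PCH_nrm
      | apply PCH_count
      | apply PCH_ite
      | apply PCH_append
      | apply PCH_cons
      | apply PCH_length
      | apply PCH_add
      | apply PCH_mul
      | apply PCH_sq
      | apply PCH_not
      | apply PCH_fst
      | apply PCH_snd
      | apply Primrec.pair)

private theorem PCH_4 : PrimrecPred fun q : PCH_Q =>
    (∀ i < q.1, ∀ j < q.1, ∀ c ∈ [true, false], ∀ d ∈ [true, false],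
    [(i, !c), (j, !d), (i, c), (j, d)] ∈ q.2.2.2.2.1) := by
  refine PCH_allLt ?_ (PCH_allLt ?_ (PCH_all ?_ (PCH_all ?_ (PCH_mem ?_ ?_)))) <;>
    (repeat with_reducible first
      | exact Primrec.const _
      | exact Primrec.id
      | exact Primrec.fst
      | exact Primrec.snd
      | apply PCH_winv
      | apply PCH_cw
      | apply PCH_ipP
      | apply PCH_ipM
      | apply PCH_nrm
      | apply PCH_count
      | apply PCH_ite
      | apply PCH_append
      | apply PCH_cons
      | apply PCH_length
      | apply PCH_add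
      | apply PCH_mul
      | apply PCH_sq
      | apply PCH_not
      | apply PCH_fst
      | apply PCH_snd
      | apply Primrec.pair)

private theorem PCH_5 : PrimrecPred fun q : PCH_Q =>
    (∀ w ∈ q.2.2.1, ∀ i < q.1, ∀ c ∈ [true, false],
    q.1 * (q.2.2.2.2.2.1 * q.2.2.2.2.2.2 ^ 2) ^ 2 + 1 ≤ nrm (w ++ [(i, c)]) ∨
      ∃ w' ∈ q.2.2.1, abeq q.1 (w ++ [(i, c)]) w') := by
  refine PCH_all ?_ (PCH_allLt ?_ (PCH_all ?_ (PCH_or (PCH_le ?_ ?_) (PCH_ex ?_
    (PCH_abeq ?_ ?_ ?_))))) <;>
    (repeat with_reducible first
      | exact Primrec.const _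
      | exact Primrec.id
      | exact Primrec.fst
      | exact Primrec.snd
      | apply PCH_winv
      | apply PCH_cw
      | apply PCH_ipP
      | apply PCH_ipM
      | apply PCH_nrm
      | apply PCH_count
      | apply PCH_ite
      | apply PCH_append
      | apply PCH_cons
      | apply PCH_length
      | apply PCH_add
      | apply PCH_mul
      | apply PCH_sq
      | apply PCH_not
      | apply PCH_fst
      | apply PCH_snd
      | apply Primrec.pair)

private theorem PCH_6 : PrimrecPred fun q : PCH_Q =>
    (∀ w ∈ q.2.2.1, ∀ w' ∈ q.2.2.1, abeq q.1 w w' → ∀ a ∈ q.2.2.2.2.1,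
      cw a w ++ winv (cw a w') ∈ q.2.1) := by
  refine PCH_all ?_ (PCH_all ?_ (PCH_imp (PCH_abeq ?_ ?_ ?_) (PCH_all ?_
    (PCH_mem ?_ ?_)))) <;>
    (repeat with_reducible first
      | exact Primrec.const _
      | exact Primrec.id
      | exact Primrec.fst
      | exact Primrec.snd
      | apply PCH_winv
      | apply PCH_cw
      | apply PCH_ipP
      | apply PCH_ipM
      | apply PCH_nrm
      | apply PCH_count
      | apply PCH_ite
      | apply PCH_append
      | apply PCH_cons
      | apply PCH_length
      | apply PCH_add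
      | apply PCH_mul
      | apply PCH_sq
      | apply PCH_not
      | apply PCH_fst
      | apply PCH_snd
      | apply Primrec.pair)

private theorem PCH_7 : PrimrecPred fun q : PCH_Q =>
    (∀ w ∈ q.2.2.1, ∀ w' ∈ q.2.2.1, ∀ i < q.1, ∀ c ∈ [true, false],
      abeq q.1 (w ++ [(i, c)]) w' →
      ∀ a ∈ q.2.2.2.2.1, cw a (w ++ [(i, c)]) ++ winv (cw a w') ∈ q.2.1) := by
  refine PCH_all ?_ (PCH_all ?_ (PCH_allLt ?_ (PCH_all ?_ (PCH_imp (PCH_abeq ?_ ?_ ?_)
    (PCH_all ?_ (PCH_mem ?_ ?_)))))) <;>
    (repeat with_reducible first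
      | exact Primrec.const _
      | exact Primrec.id
      | exact Primrec.fst
      | exact Primrec.snd
      | apply PCH_winv
      | apply PCH_cw
      | apply PCH_ipP
      | apply PCH_ipM
      | apply PCH_nrm
      | apply PCH_count
      | apply PCH_ite
      | apply PCH_append
      | apply PCH_cons
      | apply PCH_length
      | apply PCH_add
      | apply PCH_mul
      | apply PCH_sq
      | apply PCH_not
      | apply PCH_fst
      | apply PCH_snd
      | apply Primrec.pair)

private theorem PCH_8 : PrimrecPred fun q : PCH_Q =>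
    (∀ w ∈ q.2.2.1, ∀ a ∈ q.2.2.2.2.1, ∀ b ∈ q.2.2.2.2.1,
      a ++ cw b w ++ winv a ++ winv (cw b w) ∈ q.2.1) := by
  refine PCH_all ?_ (PCH_all ?_ (PCH_all ?_ (PCH_mem ?_ ?_))) <;>
    (repeat with_reducible first
      | exact Primrec.const _
      | exact Primrec.id
      | exact Primrec.fst
      | exact Primrec.snd
      | apply PCH_winv
      | apply PCH_cw
      | apply PCH_ipP
      | apply PCH_ipM
      | apply PCH_nrm
      | apply PCH_count
      | apply PCH_ite
      | apply PCH_append
      | apply PCH_cons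
      | apply PCH_length
      | apply PCH_add
      | apply PCH_mul
      | apply PCH_sq
      | apply PCH_not
      | apply PCH_fst
      | apply PCH_snd
      | apply Primrec.pair)

private theorem PCH_9 : PrimrecPred fun q : PCH_Q =>
    (∀ l ∈ q.2.2.2.1, ∀ a ∈ q.2.2.2.2.1,
    winv a ++ (l.flatMap fun x => cw (if x.2 = true then a else winv a) x.1) ∈ q.2.1) := by
  refine PCH_all ?_ (PCH_all ?_ (PCH_mem (PCH_append ?_ (PCH_flatMap ?_ ?_)) ?_)) <;>
    (repeat with_reducible first
      | exact Primrec.const _
      | exact Primrec.id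
      | exact Primrec.fst
      | exact Primrec.snd
      | apply PCH_winv
      | apply PCH_cw
      | apply PCH_ipP
      | apply PCH_ipM
      | apply PCH_nrm
      | apply PCH_count
      | apply PCH_ite
      | apply PCH_append
      | apply PCH_cons
      | apply PCH_length
      | apply PCH_add
      | apply PCH_mul
      | apply PCH_sq
      | apply PCH_not
      | apply PCH_fst
      | apply PCH_snd
      | apply Primrec.pair)

private theorem PCH_10 : PrimrecPred fun q : PCH_Q =>
    (∀ w ∈ q.2.2.1, (∀ i < q.1, w.count (i, true) ≤ w.count (i, false) + q.2.2.2.2.2.1 ∧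
      w.count (i, false) ≤ w.count (i, true) + q.2.2.2.2.2.1) →
    (∃ i < q.1, w.count (i, true) = w.count (i, false) + q.2.2.2.2.2.1 ∨
      w.count (i, false) = w.count (i, true) + q.2.2.2.2.2.1) →
    ∃ l ∈ q.2.2.2.1, (∀ x ∈ l, ipM x.1 w + q.2.2.2.2.2.2 + 1 ≤ ipP x.1 w) ∨
      (∀ x ∈ l, ipP x.1 w + q.2.2.2.2.2.2 + 1 ≤ ipM x.1 w)) := by
  refine PCH_all ?_ (PCH_imp (PCH_allLt ?_ (PCH_and (PCH_le ?_ ?_) (PCH_le ?_ ?_)))
    (PCH_imp (PCH_exLt ?_ (PCH_or (PCH_eq ?_ ?_) (PCH_eq ?_ ?_)))
      (PCH_ex ?_ (PCH_or (PCH_all ?_ (PCH_le ?_ ?_)) (PCH_all ?_ (PCH_le ?_ ?_)))))) <;>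
    (repeat with_reducible first
      | exact Primrec.const _
      | exact Primrec.id
      | exact Primrec.fst
      | exact Primrec.snd
      | apply PCH_winv
      | apply PCH_cw
      | apply PCH_ipP
      | apply PCH_ipM
      | apply PCH_nrm
      | apply PCH_count
      | apply PCH_ite
      | apply PCH_append
      | apply PCH_cons
      | apply PCH_length
      | apply PCH_add
      | apply PCH_mul
      | apply PCH_sq
      | apply PCH_not
      | apply PCH_fst
      | apply PCH_snd
      | apply Primrec.pair)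

theorem t_PCH : S_PCH := by
  unfold S_PCH Check
  exact PCH_and PCH_1 (PCH_and PCH_2 (PCH_and PCH_3 (PCH_and PCH_4 (PCH_and PCH_5
    (PCH_and PCH_6 (PCH_and PCH_7 (PCH_and PCH_8 (PCH_and PCH_9 PCH_10))))))))

end H114MB
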