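import Pool.Agent.H114.MB.Defs

set_option autoImplicit false

namespace H114MB

theorem PDR_ex_mem {α β : Type} [Primcodable α] [Primcodable β] {f : α → List β}
    {R : α → β → Prop} (hf : Primrec f) (hR : PrimrecPred fun x : α × β => R x.1 x.2) :
    PrimrecPred fun a => ∃ b ∈ f a, R a b := by
  have h1 : PrimrecRel fun (b : β) (a : α) => R a b :=
    hR.comp (Primrec.snd.pair Primrec.fst)
  exact h1.exists_mem_list.comp hf Primrec.id

theorem PDR_all_mem {α β : Type} [Primcodable α] [Primcodable β] {f : α → List β}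
    {R : α → β → Prop} (hf : Primrec f) (hR : PrimrecPred fun x : α × β => R x.1 x.2) :
    PrimrecPred fun a => ∀ b ∈ f a, R a b := by
  have h1 : PrimrecRel fun (b : β) (a : α) => R a b :=
    hR.comp (Primrec.snd.pair Primrec.fst)
  exact h1.forall_mem_list.comp hf Primrec.id

theorem PDR_ex_lt {α : Type} [Primcodable α] {f : α → ℕ} {R : α → ℕ → Prop} (hf : Primrec f)
    (hR : PrimrecPred fun x : α × ℕ => R x.1 x.2) : PrimrecPred fun a => ∃ k < f a, R a k :=
  (PDR_ex_mem (Primrec.list_range.comp hf) hR).of_eq fun a => by simp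

theorem PDR_all_lt {α : Type} [Primcodable α] {f : α → ℕ} {R : α → ℕ → Prop} (hf : Primrec f)
    (hR : PrimrecPred fun x : α × ℕ => R x.1 x.2) : PrimrecPred fun a => ∀ k < f a, R a k :=
  (PDR_all_mem (Primrec.list_range.comp hf) hR).of_eq fun a => by simp

theorem PDR_triv : Primrec fun x : ℕ × Wd => triv x.1 x.2 := by
  unfold triv
  refine Primrec.list_flatMap Primrec.snd ?_
  have hy : Primrec fun q : (ℕ × Wd) × (ℕ × Bool) => q.2 := Primrec.snd
  have hny : Primrec fun q : (ℕ × Wd) × (ℕ × Bool) => (q.2.1, !q.2.2) :=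
    (Primrec.fst.comp hy).pair (Primrec.not.comp (Primrec.snd.comp hy))
  have h1 : Primrec fun q : (ℕ × Wd) × (ℕ × Bool) => [q.2, (q.2.1, !q.2.2)] :=
    Primrec.list_cons.comp hy (Primrec.list_cons.comp hny (Primrec.const []))
  have h2 : Primrec fun q : (ℕ × Wd) × (ℕ × Bool) => [q.2] :=
    Primrec.list_cons.comp hy (Primrec.const [])
  have h3 : Primrec fun q : (ℕ × Wd) × (ℕ × Bool) => [[q.2, (q.2.1, !q.2.2)], [q.2]] :=
    Primrec.list_cons.comp h1 (Primrec.list_cons.comp h2 (Primrec.const []))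
  have h4 : Primrec fun q : (ℕ × Wd) × (ℕ × Bool) => [[q.2, (q.2.1, !q.2.2)]] :=
    Primrec.list_cons.comp h1 (Primrec.const [])
  exact Primrec.ite (Primrec.nat_le.comp (Primrec.fst.comp Primrec.fst) (Primrec.fst.comp hy)) h3 h4

theorem PDR_ins : PrimrecPred fun x : List Wd × Wd × Wd => Ins x.1 x.2.1 x.2.2 := by
  unfold Ins
  refine PDR_ex_mem Primrec.fst ?_
  refine PDR_ex_lt (f := fun x : (List Wd × Wd × Wd) × Wd => x.1.2.1.length + 1)
    (R := fun x k => x.1.2.2 = List.take k x.1.2.1 ++ x.2 ++ List.drop k x.1.2.1)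
    (Primrec.succ.comp (Primrec.list_length.comp
      (Primrec.fst.comp (Primrec.snd.comp Primrec.fst)))) ?_
  have hv : Primrec fun q : ((List Wd × Wd × Wd) × Wd) × ℕ => q.1.1.2.1 :=
    Primrec.fst.comp (Primrec.snd.comp (Primrec.fst.comp Primrec.fst))
  have hv' : Primrec fun q : ((List Wd × Wd × Wd) × Wd) × ℕ => q.1.1.2.2 :=
    Primrec.snd.comp (Primrec.snd.comp (Primrec.fst.comp Primrec.fst))
  have hr : Primrec fun q : ((List Wd × Wd × Wd) × Wd) × ℕ => q.1.2 :=
    Primrec.snd.comp Primrec.fst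
  have hk : Primrec fun q : ((List Wd × Wd × Wd) × Wd) × ℕ => q.2 := Primrec.snd
  exact Primrec.eq.comp hv' (Primrec.list_append.comp
    (Primrec.list_append.comp (Primrec.list_take.comp hk hv) hr) (Primrec.list_drop.comp hk hv))

theorem PDR_stp : PrimrecPred fun x : (ℕ × List Wd) × Wd × Wd => Stp x.1.1 x.1.2 x.2.1 x.2.2 := by
  unfold Stp
  have hn : Primrec fun x : (ℕ × List Wd) × Wd × Wd => x.1.1 := Primrec.fst.comp Primrec.fst
  have hR : Primrec fun x : (ℕ × List Wd) × Wd × Wd => x.1.2 := Primrec.snd.comp Primrec.fst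
  have hv : Primrec fun x : (ℕ × List Wd) × Wd × Wd => x.2.1 := Primrec.fst.comp Primrec.snd
  have hv' : Primrec fun x : (ℕ × List Wd) × Wd × Wd => x.2.2 := Primrec.snd.comp Primrec.snd
  have h1 := PDR_ins.comp ((Primrec.list_append.comp hR (PDR_triv.comp (hn.pair hv'))).pair
    (hv.pair hv'))
  have h2 := PDR_ins.comp ((Primrec.list_append.comp hR (PDR_triv.comp (hn.pair hv))).pair
    (hv'.pair hv))
  exact h1.or h2

theorem t_PDR : S_PDR := by
  unfold S_PDR Drv
  have hn : Primrec fun q : (ℕ × List Wd) × Wd × List Wd => q.1.1 := Primrec.fst.comp Primrec.fst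
  have hR : Primrec fun q : (ℕ × List Wd) × Wd × List Wd => q.1.2 := Primrec.snd.comp Primrec.fst
  have hw : Primrec fun q : (ℕ × List Wd) × Wd × List Wd => q.2.1 := Primrec.fst.comp Primrec.snd
  have hd : Primrec fun q : (ℕ × List Wd) × Wd × List Wd => q.2.2 := Primrec.snd.comp Primrec.snd
  have hl : Primrec fun q : (ℕ × List Wd) × Wd × List Wd => q.2.2.length - 1 :=
    Primrec.nat_sub.comp (Primrec.list_length.comp hd) (Primrec.const 1)
  have h1 : PrimrecPred fun q : (ℕ × List Wd) × Wd × List Wd => q.2.2.getD 0 [] = q.2.1 :=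
    Primrec.eq.comp ((Primrec.list_getD []).comp hd (Primrec.const 0)) hw
  have h2 : PrimrecPred fun q : (ℕ × List Wd) × Wd × List Wd =>
      q.2.2.getD (q.2.2.length - 1) [] = [] :=
    Primrec.eq.comp ((Primrec.list_getD []).comp hd hl) (Primrec.const [])
  refine h1.and (h2.and ?_)
  refine PDR_all_lt (f := fun q : (ℕ × List Wd) × Wd × List Wd => q.2.2.length - 1)
    (R := fun q k => Stp q.1.1 q.1.2 (q.2.2.getD k []) (q.2.2.getD (k + 1) [])) hl ?_
  have hd' : Primrec fun x : ((ℕ × List Wd) × Wd × List Wd) × ℕ => x.1.2.2 :=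
    hd.comp Primrec.fst
  have hp' : Primrec fun x : ((ℕ × List Wd) × Wd × List Wd) × ℕ => x.1.1 :=
    Primrec.fst.comp Primrec.fst
  exact PDR_stp.comp (hp'.pair (((Primrec.list_getD []).comp hd' Primrec.snd).pair
    ((Primrec.list_getD []).comp hd' (Primrec.succ.comp Primrec.snd))))

end H114MB
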