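import Pool.Agent.H114.MB.Defs

set_option autoImplicit false

/-! Task PUSH: elements of the two factors of an amalgam commute only trivially. -/

namespace H114MB

open Monoid

namespace PUSHaux

variable {G : Type} [Group G] (U V : Subgroup G)

/-- the two factors -/
def W : Bool → Subgroup G := fun b => if b then U else V

/-- the inclusions -/
def φ (b : Bool) : (U ⊓ V : Subgroup G) →* W U V b :=
  Subgroup.inclusion (by
    cases b
    · exact inf_le_right
    · exact inf_le_left)

theorem φ_inj (b : Bool) : Function.Injective (φ U V b) := Subgroup.inclusion_injective _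

/-- the amalgam -/
abbrev P : Type := PushoutI (φ U V)

/-- first factor -/
def iU : U →* P U V := PushoutI.of (φ := φ U V) true

/-- second factor -/
def iV : V →* P U V := PushoutI.of (φ := φ U V) false

theorem agree (a : G) (hu : a ∈ U) (hv : a ∈ V) : iU U V ⟨a, hu⟩ = iV U V ⟨a, hv⟩ := by
  have h1 : PushoutI.of (φ := φ U V) true (φ U V true ⟨a, hu, hv⟩) =
    PushoutI.base (φ U V) ⟨a, hu, hv⟩ := PushoutI.of_apply_eq_base _ _ _
  have h2 : PushoutI.of (φ := φ U V) false (φ U V false ⟨a, hu, hv⟩) =
    PushoutI.base (φ U V) ⟨a, hu, hv⟩ := PushoutI.of_apply_eq_base _ _ _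
  exact h1.trans h2.symm

theorem not_range_true (x : U) (h : (x : G) ∉ V) :
    (show W U V true from x) ∉ (φ U V true).range := by
  rintro ⟨y, hy⟩
  apply h
  have : (y : G) = x := congrArg (fun z : W U V true => (z : G)) hy
  rw [← this]
  exact y.2.2

theorem not_range_false (x : V) (h : (x : G) ∉ U) :
    (show W U V false from x) ∉ (φ U V false).range := by
  rintro ⟨y, hy⟩
  apply h
  have : (y : G) = x := congrArg (fun z : W U V false => (z : G)) hy
  rw [← this]
  exact y.2.1

/-- the reduced word `u v u⁻¹ v⁻¹` -/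
def wd (u : U) (v : V) (hu : (u : G) ∉ V) (hv : (v : G) ∉ U) :
    CoprodI.Word (fun b => W U V b) where
  toList := [⟨true, (show W U V true from u)⟩, ⟨false, (show W U V false from v)⟩,
    ⟨true, (show W U V true from u⁻¹)⟩, ⟨false, (show W U V false from v⁻¹)⟩]
  ne_one := by
    intro l hl
    have hu1 : u ≠ 1 := by rintro rfl; exact hu (V.one_mem)
    have hv1 : v ≠ 1 := by rintro rfl; exact hv (U.one_mem)
    have hu2 : u⁻¹ ≠ 1 := by rwa [ne_eq, inv_eq_one]
    have hv2 : v⁻¹ ≠ 1 := by rwa [ne_eq, inv_eq_one]
    simp only [List.mem_cons, List.not_mem_nil, or_false] at hl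
    rcases hl with rfl | rfl | rfl | rfl
    · exact hu1
    · exact hv1
    · exact hu2
    · exact hv2
  chain_ne := by simp

theorem comm (u : U) (v : V) (h : iU U V u * iV U V v = iV U V v * iU U V u) :
    (u : G) ∈ V ∨ (v : G) ∈ U := by
  by_contra hc
  rw [not_or] at hc
  obtain ⟨hu, hv⟩ := hc
  have hu' : ((u⁻¹ : U) : G) ∉ V := by
    intro h'
    apply hu
    have := V.inv_mem h'
    simpa using this
  have hv' : ((v⁻¹ : V) : G) ∉ U := by
    intro h'
    apply hv
    have := U.inv_mem h'
    simpa using this
  have hred : PushoutI.Reduced (φ U V) (wd U V u v hu hv) := by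
    intro g hg
    have hg' : g ∈ [(⟨true, (show W U V true from u)⟩ : Σ b, W U V b),
      ⟨false, (show W U V false from v)⟩,
      ⟨true, (show W U V true from u⁻¹)⟩, ⟨false, (show W U V false from v⁻¹)⟩] := hg
    simp only [List.mem_cons, List.not_mem_nil, or_false] at hg'
    rcases hg' with rfl | rfl | rfl | rfl
    · exact not_range_true U V u hu
    · exact not_range_false U V v hv
    · exact not_range_true U V u⁻¹ hu'
    · exact not_range_false U V v⁻¹ hv'
  have hprod : PushoutI.ofCoprodI (φ := φ U V) (wd U V u v hu hv).prod = 1 := by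
    have e1 : PushoutI.ofCoprodI (φ := φ U V) (wd U V u v hu hv).prod =
        iU U V u * (iV U V v * (iU U V u⁻¹ * (iV U V v⁻¹ * 1))) := by
      unfold CoprodI.Word.prod
      have e2 : (wd U V u v hu hv).toList = [(⟨true, (show W U V true from u)⟩ : Σ b, W U V b),
        ⟨false, (show W U V false from v)⟩,
        ⟨true, (show W U V true from u⁻¹)⟩, ⟨false, (show W U V false from v⁻¹)⟩] := rfl
      rw [e2]
      simp only [List.map_cons, List.map_nil, List.prod_cons, List.prod_nil, map_mul, map_one,
        PushoutI.ofCoprodI_of]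
      rfl
    rw [e1, map_inv, map_inv, mul_one, ← mul_assoc, ← mul_assoc, h]
    group
  have hemp := hred.eq_empty_of_mem_range (φ_inj U V) (by
    rw [hprod]; exact Subgroup.one_mem _)
  have : (wd U V u v hu hv).toList = [] := by rw [hemp]; rfl
  exact absurd this (by simp [wd])

end PUSHaux

theorem t_PUSH : S_PUSH := by
  intro G _ U V
  exact ⟨PUSHaux.P U V, inferInstance, PUSHaux.iU U V, PUSHaux.iV U V, PUSHaux.agree U V,
    PUSHaux.comm U V⟩

end H114MB
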