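import Pool.Agent.H114.MB.Defs

/-!
# SND: a group with a tameness certificate is metabelian
-/

set_option autoImplicit false

namespace H114MB

open scoped commutatorElement

theorem SND_closure {G : Type} [Group G] (S : Set G) (h : ∀ x ∈ S, ∀ y ∈ S, x * y = y * x) :
    ∀ x ∈ Subgroup.closure S, ∀ y ∈ Subgroup.closure S, x * y = y * x := by
  have h2 : Subgroup.closure S ≤ Subgroup.centralizer S := by
    rw [Subgroup.closure_le]
    intro x hx
    rw [SetLike.mem_coe, Subgroup.mem_centralizer_iff]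
    intro y hy
    exact h y hy x hx
  have h4 : Subgroup.closure S ≤ Subgroup.centralizer (Subgroup.closure S : Set G) := by
    rw [Subgroup.closure_le]
    intro x hx
    rw [SetLike.mem_coe, Subgroup.mem_centralizer_iff]
    intro y hy
    exact ((Subgroup.mem_centralizer_iff.1 (h2 hy)) x hx).symm
  intro x hx y hy
  exact ((Subgroup.mem_centralizer_iff.1 (h4 hx)) y hy).symm

theorem SND_vals (hS : S_STEP) {H : Type} [Group H] {n : ℕ} {g : Fin n → H} {A : Set H} {s : ℤ}
    {Λ : Set (List (Vec n × Bool))} {V : H → Vec n → H} (hc : Cert g A s Λ V) (k : ℕ) :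
    ∃ V' : H → Vec n → H, Vals g A (s + k) V' ∧
      ∀ b ∈ A, ∀ e : Vec n, ip e e < s → V' b e = V b e := by
  induction k with
  | zero =>
    refine ⟨V, ?_, fun b _ e _ => rfl⟩
    have := hc.vals
    simpa using this
  | succ k ih =>
    obtain ⟨V', h1, h2⟩ := ih
    obtain ⟨V'', h3, h4⟩ := hS H n g A s (s + k) Λ V V' hc (by omega) h1 h2
    refine ⟨V'', ?_, h4⟩
    have e : s + ((k + 1 : ℕ) : ℤ) = s + k + 1 := by push_cast; ring
    rw [e]
    exact h3

/-- the conjugates by `x` are values -/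
def SND_Q {H : Type} [Group H] {n : ℕ} (g : Fin n → H) (A : Set H) (x : H) : Prop :=
  ∃ (e : Vec n) (S : ℤ), ∀ (s' : ℤ) (V' : H → Vec n → H), S ≤ s' → Vals g A s' V' →
    ip e e < s' ∧ ∀ b ∈ A, x⁻¹ * b * x = V' b e

theorem SND_one {H : Type} [Group H] {n : ℕ} (g : Fin n → H) (A : Set H) : SND_Q g A 1 := by
  refine ⟨0, 1, fun s' V' hs hV => ⟨?_, fun b hb => ?_⟩⟩
  · have : ip (0 : Vec n) 0 = 0 := by simp [ip]
    omega
  · rw [hV.zero b hb]
    simp

theorem SND_stp {H : Type} [Group H] {n : ℕ} {g : Fin n → H} {A : Set H} {x : H}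
    (h : SND_Q g A x) (i : Fin n) (c : Bool) : SND_Q g A (x * pw (g i) c) := by
  obtain ⟨e, S, hx⟩ := h
  refine ⟨e + Pi.single i (sgn c), max S (ip (e + Pi.single i (sgn c))
    (e + Pi.single i (sgn c)) + 1), fun s' V' hs hV => ?_⟩
  obtain ⟨h1, h2⟩ := hx s' V' ((le_max_left _ _).trans hs) hV
  have h3 : ip (e + Pi.single i (sgn c)) (e + Pi.single i (sgn c)) < s' := by
    have := (le_max_right S _).trans hs
    omega
  refine ⟨h3, fun b hb => ?_⟩
  rw [← hV.step b hb e i c h1 h3, ← h2 b hb]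
  group

theorem SND_all {H : Type} [Group H] {n : ℕ} {g : Fin n → H} {A : Set H}
    (hg : Subgroup.closure (Set.range g) = ⊤) (x : H) : SND_Q g A x := by
  have hx : x ∈ Subgroup.closure (Set.range g) := by rw [hg]; exact Subgroup.mem_top x
  induction hx using Subgroup.closure_induction_right with
  | one => exact SND_one g A
  | mul_right x _ y hy h =>
    obtain ⟨i, rfl⟩ := hy
    have := SND_stp h i true
    simpa [pw] using this
  | mul_inv_cancel x _ y hy h =>
    obtain ⟨i, rfl⟩ := hy
    have := SND_stp h i false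
    simpa [pw] using this

theorem t_SND (hS : S_STEP) : S_SND := by
  intro H _ n g A s Λ V hc
  -- conjugates commute
  have h1 : ∀ x : H, ∀ a ∈ A, ∀ b ∈ A, a * (x⁻¹ * b * x) = (x⁻¹ * b * x) * a := by
    intro x a ha b hb
    obtain ⟨e, S, hx⟩ := SND_all (A := A) hc.gen x
    obtain ⟨V', hV, -⟩ := SND_vals hS hc (S - s).toNat
    obtain ⟨h2, h3⟩ := hx _ V' (by omega) hV
    rw [h3 b hb]
    exact hV.comm a ha b hb e h2
  have h2 : ∀ x ∈ Group.conjugatesOfSet A, ∀ y ∈ Group.conjugatesOfSet A, x * y = y * x := by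
    intro x hx y hy
    rw [Group.mem_conjugatesOfSet_iff] at hx hy
    obtain ⟨a, ha, hx⟩ := hx
    obtain ⟨b, hb, hy⟩ := hy
    rw [isConj_iff] at hx hy
    obtain ⟨u, rfl⟩ := hx
    obtain ⟨v, rfl⟩ := hy
    have h3 := h1 (v⁻¹ * u) a ha b hb
    have e1 : u * a * u⁻¹ * (v * b * v⁻¹) =
        u * (a * ((v⁻¹ * u)⁻¹ * b * (v⁻¹ * u))) * u⁻¹ := by group
    have e2 : v * b * v⁻¹ * (u * a * u⁻¹) =
        u * (((v⁻¹ * u)⁻¹ * b * (v⁻¹ * u)) * a) * u⁻¹ := by group
    rw [e1, e2, h3]
  have h3 := SND_closure _ h2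
  have hN : Subgroup.closure (Group.conjugatesOfSet A) = Subgroup.normalClosure A := rfl
  rw [hN] at h3
  -- the quotient is commutative
  have h4 : ∀ x ∈ Subgroup.closure (Set.range fun i => (QuotientGroup.mk' (Subgroup.normalClosure A)) (g i)),
      ∀ y ∈ Subgroup.closure (Set.range fun i => (QuotientGroup.mk' (Subgroup.normalClosure A)) (g i)),
      x * y = y * x := by
    apply SND_closure
    rintro _ ⟨i, rfl⟩ _ ⟨j, rfl⟩
    have h5 : (g i)⁻¹ * (g j)⁻¹ * g i * g j ∈ Subgroup.normalClosure A := by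
      apply Subgroup.subset_normalClosure
      have := hc.comms i j true true
      simpa [pw] using this
    have h6 := (QuotientGroup.eq_one_iff (N := Subgroup.normalClosure A) _).2 h5
    have h7 : (QuotientGroup.mk' (Subgroup.normalClosure A)) ((g i)⁻¹ * (g j)⁻¹ * g i * g j) = 1 :=
      h6
    rw [map_mul, map_mul, map_mul, map_inv, map_inv] at h7
    set a := (QuotientGroup.mk' (Subgroup.normalClosure A)) (g i)
    set b := (QuotientGroup.mk' (Subgroup.normalClosure A)) (g j)
    show a * b = b * a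
    calc a * b = b * a * (a⁻¹ * b⁻¹ * a * b) := by group
      _ = b * a := by rw [h7, mul_one]
  have htop : Subgroup.closure (Set.range fun i =>
      (QuotientGroup.mk' (Subgroup.normalClosure A)) (g i)) = ⊤ := by
    have h5 : (Set.range fun i => (QuotientGroup.mk' (Subgroup.normalClosure A)) (g i)) =
        (QuotientGroup.mk' (Subgroup.normalClosure A)) '' Set.range g := by
      rw [← Set.range_comp]
      rfl
    rw [h5, ← MonoidHom.map_closure, hc.gen, ← MonoidHom.range_eq_map]
    exact MonoidHom.range_eq_top.2 (QuotientGroup.mk'_surjective _)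
  rw [htop] at h4
  have h5 : commutator H ≤ Subgroup.normalClosure A := by
    rw [commutator_def, Subgroup.commutator_le]
    intro x _ y _
    rw [← QuotientGroup.eq_one_iff]
    have h6 := h4 ((QuotientGroup.mk' (Subgroup.normalClosure A)) x) (Subgroup.mem_top _)
      ((QuotientGroup.mk' (Subgroup.normalClosure A)) y) (Subgroup.mem_top _)
    have h7 : (QuotientGroup.mk' (Subgroup.normalClosure A)) ⁅x, y⁆ = 1 := by
      rw [map_commutatorElement, commutatorElement_eq_one_iff_mul_comm]
      exact h6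
    exact h7
  intro x hx y hy
  exact h3 x (h5 hx) y (h5 hy)

end H114MB
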