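import Pool.Agent.H114.MB.Defs

set_option autoImplicit false

/-! # MP_909f0f_lc: soundness for words (task SNDW) -/

namespace H114MB

theorem SNDW_append {H : Type} [Group H] (f : ℕ → H) (v w : Wd) :
    evw f (v ++ w) = evw f v * evw f w := by
  unfold evw
  rw [List.map_append, List.prod_append]

theorem SNDW_nil {H : Type} [Group H] (f : ℕ → H) : evw f [] = 1 := rfl

theorem SNDW_single {H : Type} [Group H] (f : ℕ → H) (y : ℕ × Bool) :
    evw f [y] = pw (f y.1) y.2 := by
  unfold evw
  simp

theorem SNDW_cons {H : Type} [Group H] (f : ℕ → H) (y : ℕ × Bool) (w : Wd) :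
    evw f (y :: w) = pw (f y.1) y.2 * evw f w := rfl

theorem SNDW_pw_not {H : Type} [Group H] (x : H) (c : Bool) : pw x (!c) = (pw x c)⁻¹ := by
  unfold pw
  cases c <;> simp

theorem SNDW_winv {H : Type} [Group H] (f : ℕ → H) (w : Wd) :
    evw f (winv w) = (evw f w)⁻¹ := by
  induction w with
  | nil => simp [winv, evw]
  | cons y w ih =>
    have h1 : winv (y :: w) = winv w ++ [(y.1, !y.2)] := by
      simp [winv]
    rw [h1, SNDW_append, ih, SNDW_single, SNDW_cons, mul_inv_rev]
    show (evw f w)⁻¹ * pw (f y.1) (!y.2) = _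
    rw [SNDW_pw_not]

theorem SNDW_cw {H : Type} [Group H] (f : ℕ → H) (a w : Wd) :
    evw f (cw a w) = (evw f w)⁻¹ * evw f a * evw f w := by
  unfold cw
  rw [SNDW_append, SNDW_append, SNDW_winv]

theorem SNDW_abeq (n : ℕ) (w w' : Wd) : abeq n w w' ↔ wvec n w = wvec n w' := by
  constructor
  · intro h
    funext i
    have := h i i.2
    unfold wvec
    omega
  · intro h i hi
    have := congrFun h ⟨i, hi⟩
    simp only [wvec] at this
    omega

theorem SNDW_wvec_append (n : ℕ) (u v : Wd) : wvec n (u ++ v) = wvec n u + wvec n v := by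
  funext i
  simp only [wvec, List.count_append, Pi.add_apply]
  push_cast
  ring

theorem SNDW_wvec_nil (n : ℕ) : wvec n [] = 0 := by
  funext i
  simp [wvec]

theorem SNDW_wvec_single (n : ℕ) (i : Fin n) (c : Bool) :
    wvec n [((i : ℕ), c)] = Pi.single i (sgn c) := by
  funext j
  by_cases h : j = i
  · subst h
    rw [Pi.single_eq_same]
    cases c <;> simp [wvec, sgn]
  · rw [Pi.single_eq_of_ne h]
    have h' : (i : ℕ) ≠ (j : ℕ) := fun hh => h (Fin.ext hh.symm)
    cases c <;> simp [wvec, h']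

theorem SNDW_sgn_wvec (n : ℕ) (i : Fin n) (c : Bool) (w : Wd) :
    sgn c * wvec n w i = ((w.count ((i : ℕ), c) : ℕ) : ℤ) - ((w.count ((i : ℕ), !c) : ℕ) : ℤ) := by
  cases c <;> simp [wvec, sgn]

theorem SNDW_ip_add {n : ℕ} (u v w : Vec n) : ip (u + v) w = ip u w + ip v w := by
  unfold ip
  rw [← Finset.sum_add_distrib]
  apply Finset.sum_congr rfl
  intro i _
  simp only [Pi.add_apply]
  ring

theorem SNDW_ip_single {n : ℕ} (i : Fin n) (c : ℤ) (w : Vec n) :
    ip (Pi.single i c) w = c * w i := by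
  unfold ip
  rw [Finset.sum_eq_single i]
  · rw [Pi.single_eq_same]
  · intro j _ hj
    rw [Pi.single_eq_of_ne hj, zero_mul]
  · intro h
    exact absurd (Finset.mem_univ i) h

theorem SNDW_ip (n : ℕ) (u w : Wd) (hu : ∀ y ∈ u, y.1 < n) :
    (ipP u w : ℤ) - ipM u w = ip (wvec n u) (wvec n w) := by
  induction u with
  | nil =>
    rw [SNDW_wvec_nil]
    simp [ipP, ipM, ip]
  | cons y u ih =>
    have hy := hu y (List.mem_cons_self)
    have ih' := ih (fun z hz => hu z (List.mem_cons_of_mem _ hz))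
    have h1 : y :: u = [y] ++ u := rfl
    have h2 : wvec n [y] = Pi.single ⟨y.1, hy⟩ (sgn y.2) := SNDW_wvec_single n ⟨y.1, hy⟩ y.2
    rw [h1, SNDW_wvec_append, SNDW_ip_add, ← ih', h2, SNDW_ip_single, SNDW_sgn_wvec]
    have h3 : ipP ([y] ++ u) w = w.count y + ipP u w := by simp [ipP]
    have h4 : ipM ([y] ++ u) w = w.count (y.1, !y.2) + ipM u w := by simp [ipM]
    rw [h3, h4]
    push_cast
    show _ = ((w.count (y.1, y.2) : ℕ) : ℤ) - _ + _
    ring

theorem SNDW_ip_nonneg {n : ℕ} (u : Vec n) : 0 ≤ ip u u :=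
  Finset.sum_nonneg fun _ _ => mul_self_nonneg _

theorem SNDW_nrm (n : ℕ) (w : Wd) (hw : ∀ y ∈ w, y.1 < n) :
    (nrm w : ℤ) = ip (wvec n w) (wvec n w) := by
  have h1 := SNDW_ip n w w hw
  have h2 := SNDW_ip_nonneg (wvec n w)
  unfold nrm
  omega

theorem SNDW_sum_abs (n : ℕ) (w : Wd) (hw : ∀ y ∈ w, y.1 < n) :
    ∑ i, |wvec n w i| ≤ (w.length : ℤ) := by
  induction w with
  | nil => rw [SNDW_wvec_nil]; simp
  | cons y w ih =>
    have hy := hw y (List.mem_cons_self)
    have ih' := ih (fun z hz => hw z (List.mem_cons_of_mem _ hz))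
    have h1 : y :: w = [y] ++ w := rfl
    have h2 : wvec n [y] = Pi.single ⟨y.1, hy⟩ (sgn y.2) := SNDW_wvec_single n ⟨y.1, hy⟩ y.2
    rw [h1, SNDW_wvec_append, h2]
    have h3 : ∑ i, |((Pi.single ⟨y.1, hy⟩ (sgn y.2) : Vec n) + wvec n w) i| ≤
        ∑ i, (|(Pi.single ⟨y.1, hy⟩ (sgn y.2) : Vec n) i| + |wvec n w i|) :=
      Finset.sum_le_sum fun i _ => abs_add_le _ _
    refine h3.trans ?_
    rw [Finset.sum_add_distrib, Finset.sum_eq_single (⟨y.1, hy⟩ : Fin n)]
    · rw [Pi.single_eq_same]
      have h4 : |sgn y.2| = 1 := by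
        unfold sgn
        split_ifs <;> simp
      rw [h4]
      simp only [List.singleton_append, List.length_cons]
      push_cast
      linarith
    · intro j _ hj
      rw [Pi.single_eq_of_ne hj, abs_zero]
    · intro h
      exact absurd (Finset.mem_univ _) h

theorem SNDW_ip_le {n : ℕ} (e : Vec n) (B : ℤ) (h : ∀ i, |e i| ≤ B) : ip e e ≤ n * B ^ 2 := by
  unfold ip
  calc ∑ i, e i * e i ≤ ∑ _i : Fin n, B ^ 2 := by
        apply Finset.sum_le_sum
        intro i _
        have h1 := h i
        have h2 : e i * e i = |e i| ^ 2 := by rw [sq_abs, sq]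
        rw [h2]
        exact pow_le_pow_left₀ (abs_nonneg _) h1 2
    _ = n * B ^ 2 := by
        rw [Finset.sum_const, Finset.card_univ, Fintype.card_fin, nsmul_eq_mul]

open Classical in
/-- values -/
noncomputable def SNDW_V {H : Type} [Group H] (f : ℕ → H) (n : ℕ) (K : List Wd) (b : H)
    (e : Vec n) : H :=
  if h : ∃ w ∈ K, wvec n w = e then
    (evw f (Classical.choose h))⁻¹ * b * evw f (Classical.choose h) else 1

theorem t_SNDW (hSND : S_SND) (hGEO : S_GEO) : S_SNDW := by
  intro n T K Λ A N U hCheck H _ f hf hgen hT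
  obtain ⟨⟨hN, hU, hnil⟩, h2, h3, h4, h5, h6, h7, h8, h9, h10⟩ := hCheck
  set g : Fin n → H := fun i => f i with hg
  set A' : Set H := {h | ∃ a ∈ A, h = evw f a} with hA'
  set s : ℤ := (n : ℤ) * ((N : ℤ) * (U : ℤ) ^ 2) ^ 2 + 1 with hs
  set Λ' : Set (List (Vec n × Bool)) :=
    {l' | ∃ l ∈ Λ, l' = l.map (fun x => (wvec n x.1, x.2))} with hΛ'
  have hNZ : (1 : ℤ) ≤ N := by exact_mod_cast hN
  have hUZ : (1 : ℤ) ≤ U := by exact_mod_cast hU
  have hU2 : (1 : ℤ) ≤ (U : ℤ) ^ 2 := one_le_pow₀ hUZ
  -- small vectors lie in the ball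
  have hsmall : ∀ (e : Vec n) (B : ℤ), 0 ≤ B → B ≤ N * (U : ℤ) ^ 2 → (∀ i, |e i| ≤ B) →
      ip e e < s := by
    intro e B hB0 hB he
    have k1 := SNDW_ip_le e B he
    have k2 : B ^ 2 ≤ (N * (U : ℤ) ^ 2) ^ 2 := pow_le_pow_left₀ hB0 hB 2
    have k3 : (n : ℤ) * B ^ 2 ≤ n * (N * (U : ℤ) ^ 2) ^ 2 :=
      mul_le_mul_of_nonneg_left k2 (Int.natCast_nonneg n)
    rw [hs]
    linarith
  have hUle : (U : ℤ) ≤ N * (U : ℤ) ^ 2 := by nlinarith
  have hNle : (N : ℤ) ≤ N * (U : ℤ) ^ 2 := by nlinarith
  -- words of length at most U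
  have hword : ∀ w : Wd, w.length ≤ U → (∀ y ∈ w, y.1 < n) → ip (wvec n w) (wvec n w) < s := by
    intro w hw hy
    apply hsmall _ U (by linarith) hUle
    intro i
    have k1 := SNDW_sum_abs n w hy
    have k2 : |wvec n w i| ≤ ∑ i, |wvec n w i| :=
      Finset.single_le_sum (f := fun i => |wvec n w i|) (fun _ _ => abs_nonneg _)
        (Finset.mem_univ i)
    have k3 : (w.length : ℤ) ≤ U := by exact_mod_cast hw
    linarith
  -- the ball is covered
  have hcov : ∀ (m : ℕ) (e : Vec n), ip e e = m → ip e e < s → ∃ w ∈ K, wvec n w = e := by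
    intro m
    induction m using Nat.strong_induction_on with
    | _ m ih =>
      intro e hem hes
      by_cases he : e = 0
      · subst he
        exact ⟨[], hnil, SNDW_wvec_nil n⟩
      · obtain ⟨i, hi⟩ := Function.ne_iff.1 he
        have hi' : e i ≠ 0 := hi
        obtain ⟨c, hc⟩ : ∃ c : Bool, 1 ≤ sgn c * e i := by
          rcases lt_or_gt_of_ne hi' with h | h
          · exact ⟨false, by simp [sgn]; omega⟩
          · exact ⟨true, by simp [sgn]; omega⟩
        have hsg : sgn c * sgn c = 1 := by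
          unfold sgn
          split_ifs <;> norm_num
        set e' : Vec n := e - Pi.single i (sgn c) with he'
        have hee : e = e' + Pi.single i (sgn c) := by rw [he', sub_add_cancel]
        have hcomm : ∀ u v : Vec n, ip u v = ip v u := by
          intro u v
          unfold ip
          exact Finset.sum_congr rfl fun i _ => mul_comm _ _
        have hip : ip e' e' = ip e e - 2 * (sgn c * e i) + 1 := by
          have k1 : ip e e = ip e' e' + 2 * (sgn c * e' i) + sgn c * sgn c := by
            conv_lhs => rw [hee]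
            rw [SNDW_ip_add, hcomm e', hcomm (Pi.single i (sgn c)), SNDW_ip_add, SNDW_ip_add,
              hcomm e' (Pi.single i (sgn c)), SNDW_ip_single, SNDW_ip_single, Pi.single_eq_same]
            ring
          have k2 : e' i = e i - sgn c := by
            rw [he', Pi.sub_apply, Pi.single_eq_same]
          rw [k2, mul_sub, hsg] at k1
          linarith
        have h0 := SNDW_ip_nonneg e'
        obtain ⟨w, hwK, hw⟩ := ih (ip e' e').toNat (by omega) e' (by omega) (by omega)
        have hwl : ∀ y ∈ w ++ [((i : ℕ), c)], y.1 < n := by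
          intro y hy
          rw [List.mem_append, List.mem_singleton] at hy
          rcases hy with hy | rfl
          · exact h2 w hwK y hy
          · exact i.2
        have hwe : wvec n (w ++ [((i : ℕ), c)]) = e := by
          rw [SNDW_wvec_append, hw, SNDW_wvec_single, ← hee]
        rcases h5 w hwK i i.2 c (by cases c <;> simp) with h | ⟨w', hw'K, hw'⟩
        · exfalso
          have k1 := SNDW_nrm n _ hwl
          rw [hwe] at k1
          have k2 : s ≤ nrm (w ++ [((i : ℕ), c)]) := by
            rw [hs]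
            exact_mod_cast h
          omega
        · exact ⟨w', hw'K, by rw [← (SNDW_abeq n _ _).1 hw', hwe]⟩
  have hcov' : ∀ e : Vec n, ip e e < s → ∃ w ∈ K, wvec n w = e := fun e he =>
    hcov (ip e e).toNat e (by have := SNDW_ip_nonneg e; omega) he
  set V : H → Vec n → H := SNDW_V f n K with hV
  have hVw : ∀ a ∈ A, ∀ w ∈ K, V (evw f a) (wvec n w) = (evw f w)⁻¹ * evw f a * evw f w := by
    intro a ha w hw
    have hex : ∃ w' ∈ K, wvec n w' = wvec n w := ⟨w, hw, rfl⟩
    have hsp := Classical.choose_spec hex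
    rw [hV]
    unfold SNDW_V
    rw [dif_pos hex]
    have k1 := hT _ (h6 _ hsp.1 w hw ((SNDW_abeq n _ _).2 hsp.2) a ha)
    rw [SNDW_append, SNDW_winv, SNDW_cw, SNDW_cw, mul_inv_eq_one] at k1
    exact k1
  have hvals : Vals g A' s V := by
    refine ⟨?_, ?_, ?_⟩
    · rintro b ⟨a, ha, rfl⟩
      have := hVw a ha [] hnil
      rw [SNDW_wvec_nil, SNDW_nil] at this
      rw [this]
      simp
    · rintro b ⟨a, ha, rfl⟩ e i c he he'
      obtain ⟨w, hw, rfl⟩ := hcov' e he
      obtain ⟨w', hw', hww⟩ := hcov' _ he'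
      rw [hVw a ha w hw, ← hww, hVw a ha w' hw']
      have k1 := hT _ (h7 w hw w' hw' i i.2 c (by cases c <;> simp)
        ((SNDW_abeq n _ _).2 (by rw [SNDW_wvec_append, SNDW_wvec_single, hww])) a ha)
      rw [SNDW_append, SNDW_winv, SNDW_cw, SNDW_cw, mul_inv_eq_one, SNDW_append,
        SNDW_single] at k1
      rw [← k1]
      simp only [hg, mul_inv_rev, mul_assoc]
    · rintro a' ⟨a, ha, rfl⟩ b' ⟨b, hb, rfl⟩ e he
      obtain ⟨w, hw, rfl⟩ := hcov' e he
      rw [hVw b hb w hw]
      have k1 := hT _ (h8 w hw a ha b hb)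
      rw [SNDW_append, SNDW_append, SNDW_append, SNDW_winv, SNDW_winv, SNDW_cw] at k1
      have k2 := mul_inv_eq_one.1 k1
      rw [mul_inv_eq_iff_eq_mul] at k2
      exact k2
  have hshort : ∀ a ∈ A, ∀ w : Wd, w.length ≤ U → (∀ y ∈ w, y.1 < n) →
      V (evw f a) (wvec n w) = (evw f w)⁻¹ * evw f a * evw f w := by
    intro a ha w
    induction w using List.reverseRecOn with
    | nil =>
      intro _ _
      rw [SNDW_wvec_nil, SNDW_nil, hvals.zero _ ⟨a, ha, rfl⟩]
      simp
    | append_singleton w y ih =>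
      intro hl hy
      have hl' : w.length ≤ U := by
        rw [List.length_append] at hl
        omega
      have hy' : ∀ z ∈ w, z.1 < n := fun z hz => hy z (List.mem_append_left _ hz)
      have hyn : y.1 < n := hy y (by simp)
      have k0 : wvec n [y] = Pi.single ⟨y.1, hyn⟩ (sgn y.2) := SNDW_wvec_single n ⟨y.1, hyn⟩ y.2
      have k1 := hvals.step (evw f a) ⟨a, ha, rfl⟩ (wvec n w) ⟨y.1, hyn⟩ y.2 (hword w hl' hy')
        (by
          have := hword _ hl hy
          rwa [SNDW_wvec_append, k0] at this)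
      rw [SNDW_wvec_append, k0, ← k1, ih hl' hy', SNDW_append, SNDW_single]
      simp only [hg, mul_inv_rev, mul_assoc]
  have hcert : Cert g A' s Λ' V := by
    refine ⟨hvals, ?_, ?_, ?_, ?_, ?_⟩
    · rw [eq_top_iff, ← hgen, Subgroup.closure_le]
      rintro x ⟨i, rfl⟩
      by_cases hi : i < n
      · exact Subgroup.subset_closure ⟨⟨i, hi⟩, rfl⟩
      · rw [hf i (by omega)]
        exact Subgroup.one_mem _
    · intro i j c d
      refine ⟨_, h4 i i.2 j j.2 c (by cases c <;> simp) d (by cases d <;> simp), ?_⟩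
      rw [SNDW_cons, SNDW_cons, SNDW_cons, SNDW_single]
      simp only [hg, SNDW_pw_not, mul_assoc]
    · rintro l ⟨l0, hl0, rfl⟩ x hx
      rw [List.mem_map] at hx
      obtain ⟨y, hy, rfl⟩ := hx
      exact hword y.1 (h3 l0 hl0 y hy).1 (h3 l0 hl0 y hy).2
    · rintro l ⟨l0, hl0, rfl⟩ b ⟨a, ha, rfl⟩
      have k1 := hT _ (h9 l0 hl0 a ha)
      rw [SNDW_append, SNDW_winv, inv_mul_eq_one] at k1
      rw [List.map_map]
      have k2 : ∀ l1 : List (Wd × Bool), (∀ x ∈ l1, x ∈ l0) →
          evw f (l1.flatMap fun x => cw (if x.2 = true then a else winv a) x.1) =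
          (l1.map ((fun x : Vec n × Bool => pw (V (evw f a) x.1) x.2) ∘
            fun x : Wd × Bool => (wvec n x.1, x.2))).prod := by
        intro l1
        induction l1 with
        | nil => intro _; rfl
        | cons x l1 ih =>
          intro hx
          have hx0 := hx x List.mem_cons_self
          rw [List.flatMap_cons, SNDW_append, ih (fun z hz => hx z (List.mem_cons_of_mem _ hz)),
            List.map_cons, List.prod_cons]
          congr 1
          simp only [Function.comp_apply]
          rw [hshort a ha x.1 (h3 l0 hl0 x hx0).1 (h3 l0 hl0 x hx0).2, SNDW_cw]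
          unfold pw
          split_ifs
          · rfl
          · rw [SNDW_winv]
            simp [mul_assoc]
      rw [← k2 l0 (fun x hx => hx)]
      exact k1
    · apply hGEO n N U Λ' hN hU
      · rintro l ⟨l0, hl0, rfl⟩ x hx
        rw [List.mem_map] at hx
        obtain ⟨y, hy, rfl⟩ := hx
        have k1 := SNDW_sum_abs n y.1 (h3 l0 hl0 y hy).2
        have k2 : (y.1.length : ℤ) ≤ U := by exact_mod_cast (h3 l0 hl0 y hy).1
        exact k1.trans k2
      · intro e he1 he2
        obtain ⟨w, hw, rfl⟩ := hcov' e (hsmall e N (by linarith) hNle he1)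
        have k1 : ∀ i < n, w.count (i, true) ≤ w.count (i, false) + N ∧
            w.count (i, false) ≤ w.count (i, true) + N := by
          intro i hi
          have := abs_le.1 (he1 ⟨i, hi⟩)
          simp only [wvec] at this
          omega
        have k2 : ∃ i < n, w.count (i, true) = w.count (i, false) + N ∨
            w.count (i, false) = w.count (i, true) + N := by
          obtain ⟨i, hi⟩ := he2
          refine ⟨i, i.2, ?_⟩
          simp only [wvec] at hi
          rcases abs_eq (by omega : (0 : ℤ) ≤ N) |>.1 hi with h | h <;> omega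
        obtain ⟨l, hl, hl'⟩ := h10 w hw k1 k2
        refine ⟨_, ⟨l, hl, rfl⟩, ?_⟩
        rcases hl' with hl' | hl'
        · left
          intro x hx
          rw [List.mem_map] at hx
          obtain ⟨y, hy, rfl⟩ := hx
          have k3 := SNDW_ip n y.1 w (h3 l hl y hy).2
          have k4 := hl' y hy
          show (U : ℤ) + 1 ≤ ip (wvec n y.1) (wvec n w)
          omega
        · right
          intro x hx
          rw [List.mem_map] at hx
          obtain ⟨y, hy, rfl⟩ := hx
          have k3 := SNDW_ip n y.1 w (h3 l hl y hy).2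
          have k4 := hl' y hy
          show ip (wvec n y.1) (wvec n w) ≤ -((U : ℤ) + 1)
          omega
  exact hSND H n g A' s Λ' V hcert

end H114MB
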