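import Pool.Agent.H114.MB.Defs

/-! STEP: enlarging the ball by one sphere. -/

set_option autoImplicit false

namespace H114MB

open scoped BigOperators

theorem st_ip_comm {n : ℕ} (u v : Vec n) : ip u v = ip v u := by
  unfold ip; exact Finset.sum_congr rfl fun i _ => mul_comm _ _

theorem st_ip_add_left {n : ℕ} (u v w : Vec n) : ip (u + v) w = ip u w + ip v w := by
  unfold ip
  rw [← Finset.sum_add_distrib]
  exact Finset.sum_congr rfl fun i _ => by simp [add_mul]

theorem st_ip_add_right {n : ℕ} (u v w : Vec n) : ip u (v + w) = ip u v + ip u w := by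
  rw [st_ip_comm, st_ip_add_left, st_ip_comm v, st_ip_comm w]

theorem st_ip_single {n : ℕ} (i : Fin n) (t : ℤ) (v : Vec n) : ip (Pi.single i t) v = t * v i := by
  unfold ip
  simp [Pi.single_apply, ite_mul]

theorem st_ip_nonneg {n : ℕ} (u : Vec n) : 0 ≤ ip u u :=
  Finset.sum_nonneg fun i _ => mul_self_nonneg _

theorem st_ip_zero {n : ℕ} (u : Vec n) (h : ip u u = 0) : u = 0 := by
  funext i
  have h1 := (Finset.sum_eq_zero_iff_of_nonneg (fun i _ => mul_self_nonneg (u i))).1 h i
    (Finset.mem_univ i)
  simpa using h1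

theorem st_sgn_sq (c : Bool) : sgn c * sgn c = 1 := by cases c <;> simp [sgn]

theorem st_nb {n : ℕ} (e : Vec n) (i : Fin n) (c : Bool) :
    ip (e + Pi.single i (sgn c)) (e + Pi.single i (sgn c)) = ip e e + 2 * (sgn c * e i) + 1 := by
  rw [st_ip_add_left, st_ip_add_right, st_ip_add_right, st_ip_comm e (Pi.single i (sgn c)),
    st_ip_single, st_ip_single]
  simp only [Pi.single_eq_same, st_sgn_sq]
  ring

theorem st_sgn_not (c : Bool) : sgn (!c) = - sgn c := by cases c <;> simp [sgn]

theorem st_pw_not {H : Type} [Group H] (x : H) (c : Bool) : pw x (!c) = (pw x c)⁻¹ := by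
  cases c <;> simp [pw]

theorem st_conj_pw {H : Type} [Group H] (y z : H) (c : Bool) :
    y⁻¹ * pw z c * y = pw (y⁻¹ * z * y) c := by
  cases c
  · simp only [pw, Bool.false_eq_true, if_false]; group
  · simp [pw]

theorem st_conj_prod {H α : Type} [Group H] (y : H) (l : List α) (F : α → H) :
    y⁻¹ * (l.map F).prod * y = (l.map fun x => y⁻¹ * F x * y).prod := by
  induction l with
  | nil => simp
  | cons a l ih =>
    simp only [List.map_cons, List.prod_cons, ← ih]
    group

theorem st_commute_pw {H : Type} [Group H] {a z : H} (c : Bool) (h : Commute a z) :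
    Commute a (pw z c) := by
  cases c
  · simpa [pw] using h.inv_right
  · simpa [pw] using h

theorem st_commute_conj {H : Type} [Group H] {a b : H} (y : H) (h : Commute a b) :
    Commute (y⁻¹ * a * y) (y⁻¹ * b * y) := by
  have h1 : a * b = b * a := h
  show y⁻¹ * a * y * (y⁻¹ * b * y) = y⁻¹ * b * y * (y⁻¹ * a * y)
  calc y⁻¹ * a * y * (y⁻¹ * b * y) = y⁻¹ * (a * b) * y := by group
    _ = y⁻¹ * (b * a) * y := by rw [h1]
    _ = _ := by group

/-- a nonzero vector of the box has a neighbour towards `0` in the box -/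
theorem st_pred {n : ℕ} (e p : Vec n) (hp : Box e p) (h0 : p ≠ 0) :
    ∃ (j : Fin n) (d : Bool) (p₁ : Vec n), p = p₁ + Pi.single j (sgn d) ∧ Box e p₁ ∧
      ∑ i, |p₁ i| < ∑ i, |p i| ∧ sgn d * p j ≥ 1 := by
  obtain ⟨j, hj⟩ : ∃ j, p j ≠ 0 := by
    by_contra h
    push Not at h
    exact h0 (funext h)
  have key : ∀ d : Bool, sgn d * p j ≥ 1 → ∃ (j : Fin n) (d : Bool) (p₁ : Vec n),
      p = p₁ + Pi.single j (sgn d) ∧ Box e p₁ ∧
      ∑ i, |p₁ i| < ∑ i, |p i| ∧ sgn d * p j ≥ 1 := by
    intro d hd
    refine ⟨j, d, p - Pi.single j (sgn d), by simp, ?_, ?_, hd⟩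
    · intro i
      by_cases hi : i = j
      · subst hi
        have h1 := hp i
        cases d
        · simp only [sgn, Bool.false_eq_true, if_false] at hd ⊢
          simp only [Pi.sub_apply, Pi.single_eq_same]
          omega
        · simp only [sgn, if_true] at hd ⊢
          simp only [Pi.sub_apply, Pi.single_eq_same]
          omega
      · have h1 := hp i
        simpa [Pi.single_apply, hi] using h1
    · apply Finset.sum_lt_sum
      · intro i _
        by_cases hi : i = j
        · subst hi
          simp only [Pi.sub_apply, Pi.single_eq_same]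
          cases d
          · simp only [sgn, Bool.false_eq_true, if_false] at hd ⊢
            rw [abs_le]
            have : |p i| = -p i := abs_of_nonpos (by omega)
            rw [this]
            constructor <;> omega
          · simp only [sgn, if_true] at hd ⊢
            rw [abs_le]
            have : |p i| = p i := abs_of_nonneg (by omega)
            rw [this]
            constructor <;> omega
        · simp [Pi.single_apply, hi]
      · refine ⟨j, Finset.mem_univ j, ?_⟩
        simp only [Pi.sub_apply, Pi.single_eq_same]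
        cases d
        · simp only [sgn, Bool.false_eq_true, if_false] at hd ⊢
          rw [abs_lt]
          have : |p j| = -p j := abs_of_nonpos (by omega)
          rw [this]
          constructor <;> omega
        · simp only [sgn, if_true] at hd ⊢
          rw [abs_lt]
          have : |p j| = p j := abs_of_nonneg (by omega)
          rw [this]
          constructor <;> omega
  rcases lt_or_gt_of_ne hj with h | h
  · exact key false (by simp only [sgn, Bool.false_eq_true, if_false]; omega)
  · exact key true (by simp only [sgn, if_true]; omega)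

/-- points of the box different from `e` are shorter -/
theorem st_box_lt {n : ℕ} (e p : Vec n) (hp : Box e p) (h0 : p ≠ e) : ip p p < ip e e := by
  unfold ip
  apply Finset.sum_lt_sum
  · intro i _
    rcases hp i with h | h
    · nlinarith
    · nlinarith
  · obtain ⟨j, hj⟩ : ∃ j, p j ≠ e j := by
      by_contra h
      push Not at h
      exact h0 (funext h)
    refine ⟨j, Finset.mem_univ j, ?_⟩
    rcases hp j with h | h
    · have : p j < e j := lt_of_le_of_ne h.2 hj
      nlinarith
    · have : e j < p j := lt_of_le_of_ne h.1 (Ne.symm hj)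
      nlinarith

theorem st_box_zero {n : ℕ} (e : Vec n) : Box e 0 := fun i => by
  rcases le_total 0 (e i) with h | h
  · left; simpa using h
  · right; simpa using h

theorem st_box_self {n : ℕ} (e : Vec n) : Box e e := fun i => by
  rcases le_total 0 (e i) with h | h
  · left; exact ⟨h, le_refl _⟩
  · right; exact ⟨le_refl _, h⟩

theorem st_box_compl {n : ℕ} (e p : Vec n) (hp : Box e p) : Box e (e - p) := fun i => by
  rcases hp i with h | h
  · left; simp only [Pi.sub_apply]; omega
  · right; simp only [Pi.sub_apply]; omega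

section main

variable {H : Type} [Group H] {n : ℕ} {g : Fin n → H} {A : Set H} {s s' : ℤ}
  {Λ : Set (List (Vec n × Bool))} {V V' : H → Vec n → H}

/-- the new values commute with `A` -/
theorem st_comm (hC : Cert g A s Λ V) (hs : s ≤ s') (hV : Vals g A s' V')
    (hag : ∀ b ∈ A, ∀ e : Vec n, ip e e < s → V' b e = V b e) (e' e₁ : Vec n) (i : Fin n)
    (c : Bool) (he : ip e' e' = s') (h1 : e' = e₁ + Pi.single i (sgn c))
    (hbox : Box e' e₁) (a b : H) (ha : a ∈ A) (hb : b ∈ A) :
    Commute a ((pw (g i) c)⁻¹ * V' b e₁ * pw (g i) c) := by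
  have hne : e₁ ≠ e' := by
    intro h
    rw [← h] at h1
    have := congrFun h1 i
    simp only [Pi.add_apply, Pi.single_eq_same] at this
    cases c <;> simp [sgn] at this
  have he1 : ip e₁ e₁ < s' := by rw [← he]; exact st_box_lt e' e₁ hbox hne
  obtain ⟨l, hl, hgeo⟩ := hC.geo e' (by rw [he]; exact hs)
  have hrel : ∀ b ∈ A, b = (l.map fun x => pw (V' b x.1) x.2).prod := by
    intro b hb
    have h := hC.rel l hl b hb
    rw [h]
    congr 1
    apply List.map_congr_left
    intro x hx
    rw [← h, hag b hb x.1 (hC.ball l hl x hx)]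
  rcases hgeo with hgeo | hgeo
  · -- first case
    rw [he] at hgeo
    have claim : ∀ (k : ℕ) (p : Vec n), (∑ i, |p i|).toNat = k → Box e' p → p ≠ e' →
        V' b p = (l.map fun x => pw (V' b (p + x.1)) x.2).prod := by
      intro k
      induction k using Nat.strong_induction_on with
      | _ k ih =>
      intro p hk hp hpe
      by_cases h0 : p = 0
      · subst h0
        rw [hV.zero b hb]
        simp only [zero_add]
        exact hrel b hb
      · obtain ⟨j, d, p₁, hp1, hb1, hlt, hsg⟩ := st_pred e' p hp h0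
        have hnn : 0 ≤ ∑ i, |p₁ i| := Finset.sum_nonneg fun i _ => abs_nonneg _
        have hp1e : p₁ ≠ e' := by
          rintro rfl
          have := st_box_lt p₁ p hp hpe
          have h2 := st_nb p₁ j d
          rw [← hp1] at h2
          have h3 : p j = p₁ j + sgn d := by rw [hp1]; simp
          have h4 : sgn d * p₁ j = sgn d * p j - 1 := by
            rw [h3, mul_add, st_sgn_sq]; ring
          omega
        have hih := ih _ (by omega) p₁ rfl hb1 hp1e
        have hp1lt : ip p₁ p₁ < s' := by rw [← he]; exact st_box_lt e' p₁ hb1 hp1e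
        have hplt : ip p p < s' := by rw [← he]; exact st_box_lt e' p hp hpe
        have hstep := hV.step b hb p₁ j d hp1lt (by rw [← hp1]; exact hplt)
        rw [← hp1] at hstep
        rw [← hstep, hih, st_conj_prod]
        congr 1
        apply List.map_congr_left
        intro x hx
        rw [st_conj_pw, hV.step b hb (p₁ + x.1) j d (hgeo x hx p₁ hb1) ?_]
        · congr 2
          rw [hp1]; abel
        · have := hgeo x hx p hp
          have e2 : p₁ + x.1 + Pi.single j (sgn d) = p + x.1 := by rw [hp1]; abel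
          rw [e2]; exact this
    rw [claim _ e₁ rfl hbox hne, st_conj_prod]
    apply Commute.list_prod_right
    intro z hz
    obtain ⟨x, hx, rfl⟩ := List.mem_map.1 hz
    have e2 : e₁ + x.1 + Pi.single i (sgn c) = e' + x.1 := by rw [h1]; abel
    rw [st_conj_pw, hV.step b hb (e₁ + x.1) i c (hgeo x hx e₁ hbox)
      (by rw [e2]; exact hgeo x hx e' (st_box_self e'))]
    apply st_commute_pw
    rw [e2]
    exact hV.comm a ha b hb _ (hgeo x hx e' (st_box_self e'))
  · -- second case
    rw [he] at hgeo
    have claim : ∀ x ∈ l, ∀ (k : ℕ) (p : Vec n), (∑ i, |p i|).toNat = k → Box e' p → p ≠ e' →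
        Commute (V' a (x.1 - (e' - p))) (V' b p) := by
      intro x hx k
      induction k using Nat.strong_induction_on with
      | _ k ih =>
      intro p hk hp hpe
      by_cases h0 : p = 0
      · subst h0
        rw [hV.zero b hb]
        exact (hV.comm b hb a ha _ (hgeo x hx (e' - 0) (st_box_compl e' 0 hp))).symm
      · obtain ⟨j, d, p₁, hp1, hb1, hlt, hsg⟩ := st_pred e' p hp h0
        have hnn : 0 ≤ ∑ i, |p₁ i| := Finset.sum_nonneg fun i _ => abs_nonneg _
        have hp1e : p₁ ≠ e' := by
          rintro rfl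
          have := st_box_lt p₁ p hp hpe
          have h2 := st_nb p₁ j d
          rw [← hp1] at h2
          have h3 : p j = p₁ j + sgn d := by rw [hp1]; simp
          have h4 : sgn d * p₁ j = sgn d * p j - 1 := by
            rw [h3, mul_add, st_sgn_sq]; ring
          omega
        have hih := ih _ (by omega) p₁ rfl hb1 hp1e
        have hp1lt : ip p₁ p₁ < s' := by rw [← he]; exact st_box_lt e' p₁ hb1 hp1e
        have hplt : ip p p < s' := by rw [← he]; exact st_box_lt e' p hp hpe
        have hstep := hV.step b hb p₁ j d hp1lt (by rw [← hp1]; exact hplt)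
        rw [← hp1] at hstep
        have hc := st_commute_conj (pw (g j) d) hih
        have e2 : x.1 - (e' - p₁) + Pi.single j (sgn d) = x.1 - (e' - p) := by rw [hp1]; abel
        rw [hstep, hV.step a ha (x.1 - (e' - p₁)) j d
          (hgeo x hx (e' - p₁) (st_box_compl e' p₁ hb1))
          (by rw [e2]; exact hgeo x hx (e' - p) (st_box_compl e' p hp)), e2] at hc
        exact hc
    have hx0 : ∀ x ∈ l, Commute (V' a x.1) ((pw (g i) c)⁻¹ * V' b e₁ * pw (g i) c) := by
      intro x hx
      have hc := st_commute_conj (pw (g i) c) (claim x hx _ e₁ rfl hbox hne)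
      have e2 : x.1 - (e' - e₁) + Pi.single i (sgn c) = x.1 := by rw [h1]; abel
      have e3 : ip x.1 x.1 < s' := by
        have := hgeo x hx 0 (st_box_zero e')
        simpa using this
      rw [hV.step a ha (x.1 - (e' - e₁)) i c
        (hgeo x hx (e' - e₁) (st_box_compl e' e₁ hbox)) (by rw [e2]; exact e3), e2] at hc
      exact hc
    rw [hrel a ha]
    apply Commute.symm
    apply Commute.list_prod_right
    intro z hz
    obtain ⟨x, hx, rfl⟩ := List.mem_map.1 hz
    exact st_commute_pw _ (hx0 x hx).symm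

end main

/-- consistency of the two ways to reach a new vector -/
theorem st_corner {H : Type} [Group H] {n : ℕ} {g : Fin n → H} {A : Set H} {s' : ℤ}
    {V' : H → Vec n → H} (hV : Vals g A s' V')
    (hcomms : ∀ (i j : Fin n) (c d : Bool),
      (pw (g i) c)⁻¹ * (pw (g j) d)⁻¹ * pw (g i) c * pw (g j) d ∈ A)
    (b : H) (hb : b ∈ A) (e e' e₁ : Vec n) (i j : Fin n) (c d : Bool)
    (he'def : e' = e + Pi.single j (sgn d)) (h1 : e' = e₁ + Pi.single i (sgn c))
    (he : ip e e < s') (he' : ip e' e' = s') (h3 : sgn c * e' i ≥ 1)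
    (hF' : ∀ a ∈ A, Commute a ((pw (g i) c)⁻¹ * V' b e₁ * pw (g i) c)) :
    (pw (g j) d)⁻¹ * V' b e * pw (g j) d = (pw (g i) c)⁻¹ * V' b e₁ * pw (g i) c := by
  have hnb : ip e' e' = ip e e + 2 * (sgn d * e j) + 1 := by rw [he'def]; exact st_nb e j d
  have hej : e' j = e j + sgn d := by rw [he'def]; simp
  have hsj : sgn d * e' j ≥ 1 := by
    have h1 : sgn d * e' j = sgn d * e j + 1 := by rw [hej, mul_add, st_sgn_sq]
    omega
  by_cases hij : j = i
  · subst hij
    have hcd : c = d := by
      cases c <;> cases d <;>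
        simp only [sgn, Bool.false_eq_true, if_false, if_true] at h3 hsj ⊢
      · omega
      · omega
    subst hcd
    have : e = e₁ := add_right_cancel (he'def.symm.trans h1)
    rw [this]
  · -- the fourth corner
    obtain ⟨e0, he0⟩ : ∃ e0 : Vec n, e0 = e - Pi.single i (sgn c) := ⟨_, rfl⟩
    have h5 : e = e0 + Pi.single i (sgn c) := by rw [he0, sub_add_cancel]
    have h6 : e₁ = e0 + Pi.single j (sgn d) := by
      have h8 : e₁ = e' - Pi.single i (sgn c) := by rw [h1, add_sub_cancel_right]
      rw [h8, he0, he'def]; abel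
    have hei : e' i = e i := by
      rw [he'def, Pi.add_apply, Pi.single_eq_of_ne (Ne.symm hij), add_zero]
    have hn2 : ip e e = ip e0 e0 + 2 * (sgn c * e0 i) + 1 := by
      have := st_nb e0 i c
      rwa [← h5] at this
    have he0i : e i = e0 i + sgn c := by
      have := congrFun h5 i
      rwa [Pi.add_apply, Pi.single_eq_same] at this
    have h9 : sgn c * e i = sgn c * e0 i + 1 := by
      rw [he0i, mul_add, st_sgn_sq]
    rw [hei] at h3
    have he0lt : ip e0 e0 < s' := by omega
    have he1lt : ip e₁ e₁ < s' := by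
      have hn3 : ip e' e' = ip e₁ e₁ + 2 * (sgn c * e₁ i) + 1 := by rw [h1]; exact st_nb e₁ i c
      have h10 : e' i = e₁ i + sgn c := by
        have := congrFun h1 i
        rwa [Pi.add_apply, Pi.single_eq_same] at this
      have h11 : sgn c * e' i = sgn c * e₁ i + 1 := by
        rw [h10, mul_add, st_sgn_sq]
      rw [hei] at h11
      omega
    have hs1 : (pw (g i) c)⁻¹ * V' b e0 * pw (g i) c = V' b e := by
      have := hV.step b hb e0 i c he0lt (by rw [← h5]; exact he)
      rwa [← h5] at this
    have hs2 : (pw (g j) d)⁻¹ * V' b e0 * pw (g j) d = V' b e₁ := by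
      have := hV.step b hb e0 j d he0lt (by rw [← h6]; exact he1lt)
      rwa [← h6] at this
    rw [← hs1]
    rw [← hs2] at hF' ⊢
    have hk := hcomms i j c d
    have hk2 := hF' _ hk
    generalize pw (g i) c = x at hk2 ⊢
    generalize pw (g j) d = y at hk2 ⊢
    generalize V' b e0 = v at hk2 ⊢
    have hk3 : (x⁻¹ * y⁻¹ * x * y) * (x⁻¹ * (y⁻¹ * v * y) * x)
        = (x⁻¹ * (y⁻¹ * v * y) * x) * (x⁻¹ * y⁻¹ * x * y) := hk2
    calc y⁻¹ * (x⁻¹ * v * x) * y
        = (x⁻¹ * y⁻¹ * x * y)⁻¹ * ((x⁻¹ * (y⁻¹ * v * y) * x) * (x⁻¹ * y⁻¹ * x * y)) := by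
          simp only [mul_inv_rev, inv_inv, mul_assoc, mul_inv_cancel_left]
      _ = (x⁻¹ * y⁻¹ * x * y)⁻¹ * ((x⁻¹ * y⁻¹ * x * y) * (x⁻¹ * (y⁻¹ * v * y) * x)) := by
          rw [hk3]
      _ = _ := by rw [inv_mul_cancel_left]

theorem st_cancel {n : ℕ} (e : Vec n) (j : Fin n) (d : Bool) :
    e + Pi.single j (sgn d) + Pi.single j (sgn (!d)) = e := by
  funext i
  by_cases hi : i = j
  · subst hi
    simp only [Pi.add_apply, Pi.single_eq_same]
    cases d <;> simp [sgn]
  · simp only [Pi.add_apply, Pi.single_eq_of_ne hi, add_zero]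

theorem st_gs {H : Type} [Group H] {n : ℕ} {g : Fin n → H} {A : Set H} {s' : ℤ}
    {V' V'' : H → Vec n → H} (hV : Vals g A s' V')
    (Fold : ∀ b ∈ A, ∀ e : Vec n, ip e e < s' → V'' b e = V' b e)
    (Fstep : ∀ b ∈ A, ∀ (e e' : Vec n) (j : Fin n) (d : Bool), e' = e + Pi.single j (sgn d) →
      ip e e < s' → ip e' e' = s' → (pw (g j) d)⁻¹ * V' b e * pw (g j) d = V'' b e')
    (b : H) (hb : b ∈ A) (e e' : Vec n) (j : Fin n) (d : Bool)
    (hee : e' = e + Pi.single j (sgn d)) (he : ip e e < s' + 1) (he2 : ip e' e' < s' + 1) :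
    (pw (g j) d)⁻¹ * V'' b e * pw (g j) d = V'' b e' := by
  have c1 : ip e e < s' ∨ ip e e = s' := by omega
  have c2 : ip e' e' < s' ∨ ip e' e' = s' := by omega
  rcases c1 with h1 | h1
  · rcases c2 with h2 | h2
    · rw [Fold b hb e h1, Fold b hb e' h2, hee]
      exact hV.step b hb e j d h1 (by rw [← hee]; exact h2)
    · rw [Fold b hb e h1]
      exact Fstep b hb e e' j d hee h1 h2
  · rcases c2 with h2 | h2
    · have h3 : e = e' + Pi.single j (sgn (!d)) := by rw [hee]; exact (st_cancel e j d).symm
      have h4 := Fstep b hb e' e j (!d) h3 h2 h1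
      rw [st_pw_not] at h4
      rw [Fold b hb e' h2, ← h4]
      simp only [inv_inv, mul_assoc, inv_mul_cancel_left, inv_mul_cancel, mul_one]
    · exfalso
      have h3 := st_nb e j d
      rw [← hee, h1, h2] at h3
      omega

theorem st_final {H : Type} [Group H] {n : ℕ} {g : Fin n → H} {A : Set H} {s s' : ℤ}
    {V V'' : H → Vec n → H} (G0 : ∀ b ∈ A, V'' b 0 = b)
    (Gs : ∀ b ∈ A, ∀ (e : Vec n) (i : Fin n) (c : Bool), ip e e < s' + 1 →
      ip (e + Pi.single i (sgn c)) (e + Pi.single i (sgn c)) < s' + 1 →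
      (pw (g i) c)⁻¹ * V'' b e * pw (g i) c = V'' b (e + Pi.single i (sgn c)))
    (Gc : ∀ a ∈ A, ∀ b ∈ A, ∀ e : Vec n, ip e e < s' + 1 → Commute a (V'' b e))
    (Ga : ∀ b ∈ A, ∀ e : Vec n, ip e e < s → V'' b e = V b e) :
    ∃ V'' : H → Vec n → H, Vals g A (s' + 1) V'' ∧
      ∀ b ∈ A, ∀ e : Vec n, ip e e < s → V'' b e = V b e :=
  ⟨V'', ⟨G0, Gs, Gc⟩, Ga⟩

theorem t_STEP : S_STEP := by
  classical
  intro H _ n g A s s' Λ V V' hC hs hV hag
  -- choice of a neighbour towards `0`
  have hch : ∀ e : Vec n, e ≠ 0 → ∃ (i : Fin n) (c : Bool) (e₁ : Vec n),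
      e = e₁ + Pi.single i (sgn c) ∧ Box e e₁ ∧ sgn c * e i ≥ 1 := by
    intro e h0
    obtain ⟨j, d, p₁, h1, h2, -, h4⟩ := st_pred e e (st_box_self e) h0
    exact ⟨j, d, p₁, h1, h2, h4⟩
  choose ci cc ce hc1 hc2 hc3 using hch
  set V'' : H → Vec n → H := fun b e => if h0 : e = 0 then b else if ip e e = s' then
    (pw (g (ci e h0)) (cc e h0))⁻¹ * V' b (ce e h0) * pw (g (ci e h0)) (cc e h0) else V' b e
    with hV''
  have F0 : ∀ b, V'' b 0 = b := by intro b; simp [hV'']
  have Fold : ∀ b ∈ A, ∀ e : Vec n, ip e e < s' → V'' b e = V' b e := by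
    intro b hb e he
    by_cases h0 : e = 0
    · subst h0; rw [F0, hV.zero b hb]
    · simp only [hV'', dif_neg h0, if_neg he.ne]
  have Fnew : ∀ b, ∀ e : Vec n, ∀ h0 : e ≠ 0, ip e e = s' → V'' b e =
      (pw (g (ci e h0)) (cc e h0))⁻¹ * V' b (ce e h0) * pw (g (ci e h0)) (cc e h0) := by
    intro b e h0 he
    simp only [hV'', dif_neg h0, if_pos he]
  have Fcomm : ∀ a ∈ A, ∀ b ∈ A, ∀ e : Vec n, ip e e = s' → Commute a (V'' b e) := by
    intro a ha b hb e he
    by_cases h0 : e = 0
    · subst h0
      rw [F0]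
      -- the list is empty
      obtain ⟨l, hl, hgeo⟩ := hC.geo 0 (by rw [he]; exact hs)
      have hl0 : l = [] := by
        rcases l with _ | ⟨x, l⟩
        · rfl
        · exfalso
          have hz : ip (0 : Vec n) 0 = 0 := by simp [ip]
          rcases hgeo with h | h
          · have := h x (by simp) 0 (st_box_zero 0)
            have h2 := st_ip_nonneg (0 + x.1)
            omega
          · have := h x (by simp) 0 (st_box_zero 0)
            have h2 := st_ip_nonneg (x.1 - 0)
            omega
      have hb1 := hC.rel l hl b hb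
      rw [hl0] at hb1
      simp only [List.map_nil, List.prod_nil] at hb1
      rw [hb1]
      exact Commute.one_right a
    · rw [Fnew b e h0 he]
      exact st_comm hC hs hV hag e (ce e h0) (ci e h0) (cc e h0) he (hc1 e h0) (hc2 e h0) a b ha hb
  -- the step from an old vector to a new one
  have Fstep : ∀ b ∈ A, ∀ (e e' : Vec n) (j : Fin n) (d : Bool), e' = e + Pi.single j (sgn d) →
      ip e e < s' → ip e' e' = s' → (pw (g j) d)⁻¹ * V' b e * pw (g j) d = V'' b e' := by
    clear_value V''
    clear hV''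
    intro b hb e e' j d he'def he he'
    have hne : e' ≠ 0 := by
      intro h0
      rw [h0] at he'
      have h1 := st_ip_nonneg e
      have h2 : ip (0 : Vec n) 0 = 0 := by simp [ip]
      omega
    have hF' : ∀ a ∈ A, Commute a ((pw (g (ci e' hne)) (cc e' hne))⁻¹ * V' b (ce e' hne)
        * pw (g (ci e' hne)) (cc e' hne)) := by
      intro a ha
      have := Fcomm a ha b hb e' he'
      rwa [Fnew b e' hne he'] at this
    rw [Fnew b e' hne he']
    exact st_corner hV hC.comms b hb e e' (ce e' hne) (ci e' hne) j (cc e' hne) d he'def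
      (hc1 e' hne) he he' (hc3 e' hne) hF'
  clear_value V''
  clear hV''
  have G0 : ∀ b ∈ A, V'' b 0 = b := fun b _ => F0 b
  have Gs : ∀ b ∈ A, ∀ (e : Vec n) (j : Fin n) (d : Bool), ip e e < s' + 1 →
      ip (e + Pi.single j (sgn d)) (e + Pi.single j (sgn d)) < s' + 1 →
      (pw (g j) d)⁻¹ * V'' b e * pw (g j) d = V'' b (e + Pi.single j (sgn d)) := by
    intro b hb e j d he he2
    exact st_gs hV Fold Fstep b hb e _ j d rfl he he2
  have Gc : ∀ a ∈ A, ∀ b ∈ A, ∀ e : Vec n, ip e e < s' + 1 → Commute a (V'' b e) := by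
    intro a ha b hb e he
    rcases lt_or_eq_of_le (Int.lt_add_one_iff.1 he) with h1 | h1
    · rw [Fold b hb e h1]
      exact hV.comm a ha b hb e h1
    · exact Fcomm a ha b hb e h1
  have Ga : ∀ b ∈ A, ∀ e : Vec n, ip e e < s → V'' b e = V b e := by
    intro b hb e he
    rw [Fold b hb e (lt_of_lt_of_le he hs), hag b hb e he]
  exact st_final G0 Gs Gc Ga

end H114MB
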